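import Pool.Agent.H419R2.A3

/-! The number of ideals of norm `n` in terms of a quadratic character: discriminants divisible by
four. -/

namespace Pool.Agent.L0h49.E

open H419R2 QuadraticAlgebra Module

/-- what is used about the character -/
structure Psi (D : ℕ) (ψ : ℕ → ℤ) : Prop where
  zero : ψ 0 = 0
  one : ψ 1 = 1
  mul : ∀ a b, ψ (a * b) = ψ a * ψ b
  abs : ∀ a, |(ψ a : ℝ)| ≤ 1
  per : ∀ a, ψ (a + D) = ψ a
  neg : ∃ c : ℕ, c.Coprime D ∧ ψ c = -1

/-- `∑_{b ∣ n} ψ(b)` -/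
def rrp (ψ : ℕ → ℤ) (n : ℕ) : ℤ := ∑ b ∈ n.divisors, ψ b

theorem rrp_rec {ψ : ℕ → ℤ} (hmul : ∀ a b, ψ (a * b) = ψ a * ψ b) {l n : ℕ} (hl : l.Prime)
    (hn : n ≠ 0) :
    rrp ψ (l * n) = (1 + ψ l) * rrp ψ n - ψ l * (if l ∣ n then rrp ψ (n / l) else 0) := by
  unfold rrp
  rw [divisors_prime_mul hl hn]
  have h1 := Finset.sum_union_inter (s₁ := n.divisors)
    (s₂ := n.divisors.image (fun b => l * b)) (f := fun b : ℕ => ψ b)
  have himg : ∀ s : Finset ℕ, ∑ b ∈ s.image (fun b => l * b), ψ b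
      = ψ l * ∑ b ∈ s, ψ b := by
    intro s
    rw [Finset.sum_image (by
      intro a _ b _ h
      exact Nat.eq_of_mul_eq_mul_left hl.pos h), Finset.mul_sum]
    apply Finset.sum_congr rfl
    intro b _
    rw [hmul]
  have hinter : ∑ b ∈ n.divisors ∩ n.divisors.image (fun b => l * b), ψ b
      = ψ l * (if l ∣ n then ∑ b ∈ (n / l).divisors, ψ b else 0) := by
    split_ifs with h
    · obtain ⟨k, rfl⟩ := h
      rw [Nat.mul_div_cancel_left _ hl.pos, ← himg]
      apply Finset.sum_congr _ (fun _ _ => rfl)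
      have hk : k ≠ 0 := by rintro rfl; simp at hn
      ext b
      simp only [Nat.mem_divisors, Finset.mem_inter, Finset.mem_image]
      constructor
      · rintro ⟨⟨h1, _⟩, ⟨c, ⟨h2, _⟩, rfl⟩⟩
        exact ⟨c, ⟨Nat.dvd_of_mul_dvd_mul_left hl.pos h1, hk⟩, rfl⟩
      · rintro ⟨c, ⟨h2, _⟩, rfl⟩
        exact ⟨⟨Nat.mul_dvd_mul_left l h2, hn⟩, ⟨c, ⟨h2.mul_left l, hn⟩, rfl⟩⟩
    · rw [mul_zero]
      apply Finset.sum_eq_zero
      intro b hb
      exfalso
      simp only [Nat.mem_divisors, Finset.mem_inter, Finset.mem_image] at hb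
      obtain ⟨⟨h1, _⟩, ⟨c, _, rfl⟩⟩ := hb
      exact h ((Dvd.intro _ rfl).trans h1)
  rw [himg, hinter] at h1
  linarith

/-- the Kronecker symbol of `4 d` -/
def ks (d : ℕ) (b : ℕ) : ℤ := if b % 2 = 0 then 0 else jacobiSym (d : ℤ) b

theorem ks_mul (d a b : ℕ) : ks d (a * b) = ks d a * ks d b := by
  unfold ks
  rcases Nat.mod_two_eq_zero_or_one a with ha | ha
  · rw [if_pos (show (a * b) % 2 = 0 by rw [Nat.mul_mod, ha]; simp), if_pos ha, zero_mul]
  · rcases Nat.mod_two_eq_zero_or_one b with hb | hb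
    · rw [if_pos (show (a * b) % 2 = 0 by rw [Nat.mul_mod, hb]; simp), if_pos hb, mul_zero]
    · rw [if_neg (show ¬ (a * b) % 2 = 0 by rw [Nat.mul_mod, ha, hb]; simp), if_neg (by omega),
        if_neg (by omega)]
      have : NeZero a := ⟨by rintro rfl; simp at ha⟩
      have : NeZero b := ⟨by rintro rfl; simp at hb⟩
      exact jacobiSym.mul_right _ _ _

theorem ks_abs (d a : ℕ) : |(ks d a : ℝ)| ≤ 1 := by
  unfold ks
  split_ifs
  · simp
  · rcases jacobiSym.trichotomy (d : ℤ) a with h | h | h <;> rw [h] <;> simp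

theorem ks_per (d a : ℕ) : ks d (a + 4 * d) = ks d a := by
  unfold ks
  rcases Nat.mod_two_eq_zero_or_one a with ha | ha
  · rw [if_pos (by omega), if_pos ha]
  · rw [if_neg (by omega), if_neg (by omega)]
    have h1 : Odd a := Nat.odd_iff.mpr ha
    have h2 : Odd (a + 4 * d) := Nat.odd_iff.mpr (by omega)
    rw [jacobiSym.mod_right _ h1, jacobiSym.mod_right _ h2, Int.natAbs_natCast,
      Nat.add_mod_right]

theorem psi_ks {d : ℕ} (hneg : ∃ c : ℕ, c.Coprime (4 * d) ∧ ks d c = -1) :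
    Psi (4 * d) (ks d) where
  zero := by unfold ks; simp
  one := by unfold ks; simp
  mul := ks_mul d
  abs := ks_abs d
  per := ks_per d
  neg := hneg

section

variable {R m : ℤ} {D d : ℕ}

variable [IsDomain (QA R m)] [IsPrincipalIdealRing (QA R m)]

theorem cnt_rec_even (hD : (D : ℤ) = m ^ 2 + 4 * R) (hm : m % 2 = 0) (hd : D = 4 * d)
    {l : ℕ} (hl : l.Prime) (n : ℕ) :
    (cnt R m (l * n) : ℤ) = (1 + ks d l) * cnt R m n
      - ks d l * (if l ∣ n then (cnt R m (n / l) : ℤ) else 0) := by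
  by_cases h2 : l = 2
  · subst h2
    have hj : ks d 2 = 0 := by unfold ks; simp
    obtain ⟨k, hk⟩ : ∃ k, m = 2 * k := ⟨m / 2, by omega⟩
    obtain ⟨p, hp⟩ := exists_norm_prime (R := R) (m := m) Nat.prime_two (w0 := R) (by
      rw [hk]
      rcases Int.emod_two_eq_zero_or_one R with h | h
      · obtain ⟨j, hj⟩ : ∃ j, R = 2 * j := ⟨R / 2, by omega⟩
        rw [hj]
        exact ⟨2 * j ^ 2 + 2 * k * j - j, by push_cast; ring⟩
      · obtain ⟨j, hj⟩ : ∃ j, R = 2 * j + 1 := ⟨R / 2, by omega⟩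
        rw [hj]
        exact ⟨2 * j ^ 2 + j + k * (2 * j + 1), by push_cast; ring⟩)
    have hlD : ((2 : ℕ) : ℤ) ∣ (D : ℤ) := ⟨2 * d, by rw [hd]; push_cast; ring⟩
    rw [cnt_ramified hl hp (span_eq_of_dvd hp hD hl hlD), hj]
    simp
  · have hodd : l % 2 = 1 := Nat.odd_iff.mp (hl.odd_of_ne_two h2)
    haveI := Fact.mk hl
    have h20 : (2 : ZMod l) ≠ 0 := by
      intro h3
      have : ((2 : ℕ) : ZMod l) = 0 := by exact_mod_cast h3
      rw [ZMod.natCast_eq_zero_iff] at this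
      exact h2 ((Nat.prime_dvd_prime_iff_eq hl Nat.prime_two).mp this)
    have hj : ks d l = legendreSym l (D : ℤ) := by
      unfold ks
      rw [if_neg (by omega), ← jacobiSym.legendreSym.to_jacobiSym, hd]
      have e : ((4 * d : ℕ) : ℤ) = 2 ^ 2 * (d : ℤ) := by push_cast; ring
      rw [e, legendreSym.mul, legendreSym.sq_one' l (by push_cast; exact h20), one_mul]
    rw [hj]
    by_cases hz : ((D : ℤ) : ZMod l) = 0
    · rw [(legendreSym.eq_zero_iff l (D : ℤ)).mpr hz]
      obtain ⟨w0, hw0⟩ := root_of_square (R := R) (m := m) hl h2 hD (by rw [hz]; exact ⟨0, by simp⟩)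
      obtain ⟨p, hp⟩ := exists_norm_prime hl hw0
      have hlD : (l : ℤ) ∣ (D : ℤ) := (ZMod.intCast_zmod_eq_zero_iff_dvd _ l).mp hz
      rw [cnt_ramified hl hp (span_eq_of_dvd hp hD hl hlD)]
      simp
    · by_cases hs : IsSquare ((D : ℤ) : ZMod l)
      · rw [(legendreSym.eq_one_iff l hz).mpr hs]
        obtain ⟨w0, hw0⟩ := root_of_square (R := R) (m := m) hl h2 hD hs
        obtain ⟨p, hp⟩ := exists_norm_prime hl hw0
        have hlD : ¬ (l : ℤ) ∣ (D : ℤ) := by
          intro h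
          exact hz ((ZMod.intCast_zmod_eq_zero_iff_dvd _ l).mpr h)
        have h3 := cnt_split hl hp (span_ne_of_not_dvd hp hD hl h2 hlD) n
        split_ifs at h3 ⊢ <;> push_cast [← h3] <;> linarith
      · rw [(legendreSym.eq_neg_one_iff l).mpr hs]
        rw [cnt_inert hl (inert_of_not_square hl h2 hD hs)]
        split_ifs <;> simp

theorem cnt_eq_rrp_even (hD : (D : ℤ) = m ^ 2 + 4 * R) (hm : m % 2 = 0) (hd : D = 4 * d)
    (n : ℕ) (hn : n ≠ 0) : (cnt R m n : ℤ) = rrp (ks d) n := by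
  induction n using Nat.strong_induction_on with
  | _ n ih =>
    by_cases h1 : n = 1
    · subst h1
      rw [cnt_one]
      unfold rrp ks; simp
    · obtain ⟨l, hl, k, hk⟩ := Nat.exists_prime_and_dvd h1
      have hk0 : k ≠ 0 := by rintro rfl; simp at hk; exact hn hk
      have hkn : k < n := by
        rw [hk]
        have := hl.two_le
        have : 0 < k := Nat.pos_of_ne_zero hk0
        nlinarith
      rw [hk, cnt_rec_even hD hm hd hl, rrp_rec (ks_mul d) hl hk0, ih k hkn hk0]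
      congr 2
      split_ifs with h
      · obtain ⟨j, hj⟩ := h
        have hj0 : j ≠ 0 := by rintro rfl; simp at hj; exact hk0 hj
        have : k / l = j := by rw [hj]; exact Nat.mul_div_cancel_left _ hl.pos
        rw [this]
        apply ih j _ hj0
        have : j ≤ k := by rw [hj]; exact Nat.le_mul_of_pos_left _ hl.pos
        omega
      · rfl

end

end Pool.Agent.L0h49.E
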