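import Pool.Agent.L0h49.E.A2
import Pool.Agent.N911.V3

/-! The main identity for a cycle of even length and an abstract quadratic character. -/

namespace Pool.Agent.L0h49.E

open H419R2 QuadraticAlgebra Module Finset Filter Topology
open Pool.Agent.N911 Pool.Agent.N156.EP

/-- analytic comparison -/
theorem compareP {R m : ℤ} [IsDomain (QA R m)] [IsPrincipalIdealRing (QA R m)]
    {P : Type*} (gen : P → QA R m) (hφ : Function.Injective (fun p => Ideal.span {gen p}))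
    (hr : ∀ I : Ideal (QA R m), I ≠ ⊥ ↔ I ∈ Set.range (fun p => Ideal.span {gen p}))
    {D q : ℕ} [NeZero q] {ψ : ℕ → ℤ} (H : Psi D ψ)
    (hcnt : ∀ n : ℕ, n ≠ 0 → (cnt R m n : ℤ) = rrp ψ n) (hD1 : 1 < D)
    (hcop : q.Coprime D) {F : ZMod q → ℝ} (hodd : ∀ x, F (-x) = -F x) {W : ℝ → ℝ} {c0 : ℝ}
    (hW : ∀ᶠ t in 𝓝[>] (0 : ℝ), HasSum (fun p => F (((QuadraticAlgebra.norm (gen p)).natAbs : ℕ)) *
      Real.exp (-(t * (QuadraticAlgebra.norm (gen p)).natAbs))) (W t))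
    (hexp : HasExp W c0) :
    (∑ l ∈ range (q * D), ∑ a ∈ range q, (l : ℝ) * a * ψ l * F ((a * l : ℕ)))
        / (q * (q * D)) = c0 := by
  have hlim := Lside_limit H hD1 hcop hodd
  refine (hexp.congr ?_).unique hlim
  have hF0 : F 0 = 0 := by
    have := hodd 0
    rw [neg_zero] at this
    linarith
  filter_upwards [hW, self_mem_nhdsWithin] with t hWt ht
  have ht' : (0 : ℝ) < t := ht
  have hN : ∀ p, F (((QuadraticAlgebra.norm (gen p)).natAbs : ℕ)) *
      Real.exp (-(t * (QuadraticAlgebra.norm (gen p)).natAbs)) =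
      (fun n : ℕ => F n * Real.exp (-(t * n))) (Ideal.absNorm (Ideal.span {gen p})) := by
    intro p; rw [absNorm_span]
  rw [funext hN] at hWt
  have h1 := tsum_ideals (fun p => Ideal.span {gen p}) hφ hr
    (fun n : ℕ => F n * Real.exp (-(t * n))) (by simp [hF0]) hWt.summable
  have h2 := Lside_hasSum (f := fun n : ℕ => F n) H (by simp [hF0])
    (Φ := ∑ x : ZMod q, |F x|)
    (fun j => Finset.single_le_sum (f := fun x => |F x|) (fun _ _ => abs_nonneg _)
      (Finset.mem_univ _)) ht'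
  have h3 : (fun n : ℕ => F n * Real.exp (-(t * n)) * (cnt R m n : ℝ)) =
      (fun n : ℕ => F n * Real.exp (-(t * n)) * (rrp ψ n : ℝ)) := by
    funext n
    by_cases hn : n = 0
    · subst hn; simp [hF0]
    · have h4 := hcnt n hn
      have h5 : (cnt R m n : ℝ) = (rrp ψ n : ℝ) := by
        rw [← h4]; push_cast; rfl
      rw [h5]
  rw [h3] at h1
  have h6 := h1.unique h2
  rw [hWt.tsum_eq] at h6
  exact h6

theorem main_identityP {R m : ℤ} (C : ECyc R m) [IsDomain (QA R m)]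
    [IsPrincipalIdealRing (QA R m)]
    {D N : ℕ} [NeZero N] {ψ : ℕ → ℤ} (H : Psi D ψ)
    (hcnt : ∀ n : ℕ, n ≠ 0 → (cnt R m n : ℤ) = rrp ψ n) (hD1 : 1 < D)
    (hcop : N.Coprime D) {F : ZMod N → ℝ} (hodd : ∀ x, F (-x) = -F x) :
    (∑ l ∈ range (N * D), ∑ a ∈ range N, (l : ℝ) * a * ψ l * F ((a * l : ℕ)))
        / (N * (N * D)) = 2 * ∑ n ∈ range (2 * C.h), C.HH F n := by
  rw [← C.sum_C0' hodd]
  have hΦ : ∀ x, |F x| ≤ ∑ x : ZMod N, |F x| := fun x =>
    Finset.single_le_sum (f := fun x => |F x|) (fun _ _ => abs_nonneg _) (Finset.mem_univ x)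
  rw [← Fin.sum_univ_eq_sum_range
    (fun n => (C.wd n).C0 N (fun u w => F (C.fz N n u w))) (2 * C.h)]
  have hfz : ∀ n, (fun (u w : ℕ) => F (C.fz N n u w)) = (fun u w : ℕ => F ((C.q n : ZMod N) * (u : ZMod N) ^ 2 +
      (C.b n : ZMod N) * u * w + ((-C.q (n + 1) : ℤ) : ZMod N) * (w : ZMod N) ^ 2)) := by
    intro n
    funext u w
    congr 1
    unfold ECyc.fz
    push_cast; ring
  have hexpf : ∀ n, HasExp ((C.wd n).WS (fun u w => F (C.fz N n u w)))
      ((C.wd n).C0 N (fun u w => F (C.fz N n u w))) := by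
    intro n
    have h := (C.wd n).hasExp F (C.q n) (C.b n) (-C.q (n + 1))
    rw [hfz n]
    exact h
  refine compareP C.gen ?_ ?_ H hcnt hD1 hcop hodd
    (W := fun t => ∑ j : Fin (2 * C.h), (C.wd (j : ℕ)).WS (fun u w => F (C.fz N (j : ℕ) u w)) t)
    ?_ ?_
  · intro p p' h
    exact C.gen_inj (C.inj (C.gen_dom p) (C.gen_dom p') h)
  · intro I
    constructor
    · intro hI
      obtain ⟨z, rfl⟩ := exists_gen I
      have hz : z ≠ 0 := by
        rintro rfl; simp at hI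
      obtain ⟨z', h1, h2⟩ := C.surj hz
      obtain ⟨p, rfl⟩ := (C.dom_iff z').mp h1
      exact ⟨p, h2⟩
    · rintro ⟨p, rfl⟩
      simp only [ne_eq, Ideal.span_singleton_eq_bot]
      intro h
      have h1 := (C.gen_dom p).types
      rw [h] at h1
      rcases h1 with h1 | h1
      · have := h1.1
        simp at this
      · have := h1.1
        simp at this
  · have hsm : ∀ᶠ t in 𝓝[>] (0 : ℝ), ∀ j : Fin (2 * C.h), 0 < t ∧ t * (C.wd (j : ℕ)).Γ ≤ 1 := by
      rw [Filter.eventually_all]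
      intro j
      exact (C.wd (j : ℕ)).small
    filter_upwards [hsm] with t ht
    apply hasSum_sigma_fin
    intro j
    have := (C.wd (j : ℕ)).hasSum_int hΦ (a := C.q j) (b := C.b j)
      (d := -C.q (j + 1)) rfl rfl rfl (ht j).1 (ht j).2
    rw [hfz]
    refine (congrArg (fun g : Idx (C.κ (j : ℕ)) → ℝ => HasSum g _) (funext fun p => ?_)).mpr this
    have e : (QuadraticAlgebra.norm (C.gen ⟨j, p⟩)).natAbs =
        (C.q j * (p.1 : ℤ) ^ 2 + C.b j * p.1 * ((p.2 : ℕ) : ℤ) +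
          -C.q (j + 1) * ((p.2 : ℕ) : ℤ) ^ 2).natAbs := by
      unfold ECyc.gen
      rw [ECyc.norm_lc', Int.natAbs_mul, Int.natAbs_pow]
      simp only [Int.reduceNeg, Int.natAbs_neg, Int.natAbs_one, one_pow, one_mul]
      unfold fv
      congr 1
      ring
    rw [e]
  · have : ∀ s : Finset (Fin (2 * C.h)), HasExp
        (fun t => ∑ j ∈ s, (C.wd (j : ℕ)).WS (fun u w => F (C.fz N (j : ℕ) u w)) t)
        (∑ j ∈ s, (C.wd (j : ℕ)).C0 N (fun u w => F (C.fz N (j : ℕ) u w))) := by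
      classical
      intro s
      induction s using Finset.induction_on with
      | empty =>
        refine ⟨0, 0, 0, ?_⟩
        filter_upwards with t
        simp
      | insert j s hj ih =>
        have h1 := HasExp.add (hexpf (j : ℕ)) ih
        simp only [Finset.sum_insert hj]
        exact h1
    exact this Finset.univ

/-- consequence of class number one -/
structure GoodP (v : WL) (t P : ℤ) (D : ℕ) (ψ : ℕ → ℤ) : Prop where
  hD1 : 1 < D
  rel : ∀ (N : ℕ) [NeZero N], N.Coprime D → ∀ f : ZMod N → ℤ, (∀ x, f (-x) = -f x) →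
    (D : ℤ) * RelE f v t P =
    6 * ∑ l ∈ range (N * D), ∑ a ∈ range N, (l : ℤ) * a * ψ l * f ((a * l : ℕ))

theorem rel_intP {N D : ℕ} [NeZero N] (hD : 0 < D) {ψ : ℕ → ℤ} {v : WL} {t : ℕ} {P : ℤ}
    {f : ZMod N → ℤ}
    (h : (∑ l ∈ range (N * D), ∑ a ∈ range N, (l : ℝ) * a * ψ l *
      ((f ((a * l : ℕ)) : ℤ) : ℝ)) / (N * (N * D)) =
      RSEr (fun x => ((f x : ℤ) : ℝ)) v (f0 t P) + t * yF (fun x => ((f x : ℤ) : ℝ)) (f0 t P)) :
    (D : ℤ) * RelE f v t P =
    6 * ∑ l ∈ range (N * D), ∑ a ∈ range N, (l : ℤ) * a * ψ l * f ((a * l : ℕ)) := by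
  have hq := qpos (q := N)
  have hD' : (0 : ℝ) < D := by exact_mod_cast hD
  have e2 : ((∑ l ∈ range (N * D), ∑ a ∈ range N, (l : ℤ) * a * ψ l *
      f ((a * l : ℕ)) : ℤ) : ℝ) = ∑ l ∈ range (N * D), ∑ a ∈ range N, (l : ℝ) * a *
      ψ l * ((f ((a * l : ℕ)) : ℤ) : ℝ) := by
    push_cast
    rfl
  have e3 : (((D : ℤ) * RelE f v t P : ℤ) : ℝ) =
    ((6 * ∑ l ∈ range (N * D), ∑ a ∈ range N, (l : ℤ) * a * ψ l *
      f ((a * l : ℕ)) : ℤ) : ℝ) := by
    rw [Int.cast_mul, RelE_real, Int.cast_mul 6, e2, ← h]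
    push_cast
    field_simp
  exact_mod_cast e3

/-- Relation modulo a prime. -/
theorem GoodP.rel_mod {v : WL} {t P : ℤ} {D : ℕ} {ψ : ℕ → ℤ} (G : GoodP v t P D ψ)
    {p : ℕ} (hp : p.Prime) (hp2 : p ≠ 2)
    (hpD : ¬ (p : ℤ) ∣ D) {N : ℕ} [NeZero N] (hcop : N.Coprime D) (χ : ZMod N → ZMod p)
    (hmul : ∀ x y, χ (x * y) = χ x * χ y) (hodd : ∀ x, χ (-x) = -χ x)
    (hB : ∑ a ∈ range N, (a : ZMod p) * χ a = 0) :
    RelE χ v t P = 0 := by
  have hF := Fact.mk hp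
  have h2 : (2 : ZMod p) ≠ 0 := by
    intro h
    have : ((2 : ℕ) : ZMod p) = 0 := by exact_mod_cast h
    rw [ZMod.natCast_eq_zero_iff] at this
    exact hp2 ((Nat.prime_dvd_prime_iff_eq hp Nat.prime_two).mp this)
  have hD0 : ((D : ℤ) : ZMod p) ≠ 0 := by
    intro h
    exact hpD ((ZMod.intCast_zmod_eq_zero_iff_dvd _ p).mp h)
  have h := G.rel N hcop (fun x => ((χ x).val : ℤ) - ((χ (-x)).val : ℤ)) (fun x => by
    rw [neg_neg]; ring)
  have hf : ∀ x, ((((χ x).val : ℤ) - ((χ (-x)).val : ℤ) : ℤ) : ZMod p) = 2 * χ x := by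
    intro x
    push_cast
    rw [ZMod.natCast_zmod_val, ZMod.natCast_zmod_val, hodd]
    ring
  have h' := congrArg (fun z : ℤ => (z : ZMod p)) h
  rw [Int.cast_mul, Int.cast_mul, Int.cast_sum] at h'
  have hR : ∑ l ∈ range (N * D), ((∑ a ∈ range N, (l : ℤ) * a * ψ l *
      (((χ ((a * l : ℕ))).val : ℤ) - ((χ (-((a * l : ℕ) : ZMod N))).val : ℤ)) : ℤ) : ZMod p) = 0 := by
    apply Finset.sum_eq_zero
    intro l _
    rw [Int.cast_sum]
    have e : ∀ a ∈ range N, (((l : ℤ) * a * ψ l *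
      (((χ ((a * l : ℕ))).val : ℤ) - ((χ (-((a * l : ℕ) : ZMod N))).val : ℤ)) : ℤ) : ZMod p) =
      ((l : ZMod p) * (ψ l : ZMod p) * 2 * χ l) * ((a : ZMod p) * χ a) := by
      intro a _
      rw [Int.cast_mul, hf, Nat.cast_mul, hmul]
      push_cast
      ring
    rw [Finset.sum_congr rfl e, ← Finset.mul_sum, hB, mul_zero]
  rw [hR, mul_zero] at h'
  rcases mul_eq_zero.mp h' with h3 | h3
  · exact absurd h3 hD0
  · have e := RelE_map (Int.castRingHom (ZMod p))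
      (fun x => ((χ x).val : ℤ) - ((χ (-x)).val : ℤ)) v t P
    simp only [eq_intCast] at e
    rw [h3] at e
    have e2 : RelE (fun x => ((((χ x).val : ℤ) - ((χ (-x)).val : ℤ) : ℤ) : ZMod p)) v t P =
        2 * RelE χ v t P := by
      rw [← RelE_smul]
      congr 1
      funext x
      exact hf x
    rw [e2] at e
    rcases mul_eq_zero.mp e.symm with h4 | h4
    · exact absurd h4 h2
    · exact h4

/-- the passage from class number one to `GoodP`: discriminant `4 d` -/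
theorem goodP_of_word {w : WL} {t : ℕ} {P : ℤ} (hv : w.Pos) (h0 : 0 < w.len) (ht : 0 < t)
    (hsym : bs w t P w.len = bs w t P (w.len - 1))
    (hq : ∀ n ≤ w.len, 0 < qs w t P n) (hq1 : ∀ n, 1 ≤ n → n ≤ w.len → qs w t P n ≠ 1)
    {D d : ℕ} (hD : (D : ℤ) = (t : ℤ) ^ 2 + 4 * P) (hd : D = 4 * d)
    (hneg : ∃ c : ℕ, c.Coprime (4 * d) ∧ ks d c = -1)
    (i1 : IsDomain (QA P (t : ℤ))) (i2 : IsPrincipalIdealRing (QA P (t : ℤ))) :
    GoodP w t P D (ks d) := by
  set C := ecycW w t P hv h0 ht hsym hq hq1 with hC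
  have hD5 := C.D_ge
  have hD1' : (1 : ℤ) < D := by rw [hD]; linarith
  have hD1 : 1 < D := by exact_mod_cast hD1'
  refine ⟨hD1, ?_⟩
  have heven : (t : ℤ) % 2 = 0 := by
    have h1 : ((4 * d : ℕ) : ℤ) = (t : ℤ) ^ 2 + 4 * P := by rw [← hd]; exact hD
    rcases Int.emod_two_eq_zero_or_one (t : ℤ) with h | h
    · exact h
    · exfalso
      obtain ⟨k, hk⟩ : ∃ k, (t : ℤ) = 2 * k + 1 := ⟨(t : ℤ) / 2, by omega⟩
      rw [hk] at h1
      push_cast at h1
      have : (4 : ℤ) * d = 4 * (k ^ 2 + k + P) + 1 := by rw [h1]; ring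
      omega
  intro N hN hcop f hf
  apply rel_intP (by omega)
  have hpsi : Psi D (ks d) := by rw [hd]; exact psi_ks hneg
  have h := main_identityP C (F := fun x => ((f x : ℤ) : ℝ)) hpsi
    (fun n hn => cnt_eq_rrp_even hD heven hd n hn) hD1 hcop
    (fun x => by rw [hf]; push_cast; ring)
  rw [h]
  exact relE (fun x => by rw [hf]; push_cast; ring)

end Pool.Agent.L0h49.E
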