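import Pool.Agent.N911.U6
import Pool.Agent.N911.V5
import Pool.Agent.L0h49.E.A3
import Pool.Agent.L0h49.E.D1

/-! Search functions for palindromic periods whose middle norm is two, and their local soundness.
The word `v` is the first half of the period without the centre. -/

set_option maxRecDepth 100000

namespace Pool.Agent.L0h49.E

open H419R2 Finset
open Pool.Agent.N911

/-- the trace of normalized forms modulo `l`, with the form after the centre; also the centre -/
noncomputable def mkH (l I : ℕ) (v : WL) : ℕ → ℕ → ℕ → (ℕ → TL → Bool) → Bool :=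
  @WL.rec (fun _ => ℕ → ℕ → ℕ → (ℕ → TL → Bool) → Bool)
    (fun c B C g => force (Nat.mul 7 c) (fun q => force (Nat.mul 7 (Nat.add (Nat.mul B l) C))
      (fun k => force (look I C) (fun i => force (Nat.mod (Nat.mul B i) l) (fun m =>
      force (Nat.mul 7 (Nat.mod (Nat.mul c C) l)) (fun q' =>
      force (Nat.mul 7 (Nat.add (Nat.mul m l) (Nat.mod i l))) (fun k' =>
        g m (TL.cons q k (TL.cons q' k' TL.nil)))))))))
    (fun a _ ih c B C g => force (Nat.mul 7 c) (fun q =>
      force (Nat.mul 7 (Nat.add (Nat.mul B l) C)) (fun k => force (look I C) (fun i =>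
      force (Nat.mod (Nat.mul c C) l) (fun c' =>
      force (Nat.mod (Nat.mul (Nat.add (Nat.mul (Nat.mul 2 a) C) (Nat.sub l B)) i) l) (fun B' =>
      force (Nat.mod (Nat.mul (Nat.add (Nat.add 1 (Nat.mul a B)) (Nat.mul (Nat.mul a a)
        (Nat.sub l C))) i) l) (fun C' => ih c' B' C' (fun m r => g m (TL.cons q k r))))))))) v

/-- test for residues, then trace -/
noncomputable def tgH (l I Q : ℕ) (v : WL) (t P : ℕ) (f : ℕ → ℕ → TL → Bool) : Bool :=
  @Bool.rec (fun _ => Bool) (mkH l I v 1 t P (fun m r => f t m r)) true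
    (tb Q (Nat.mod (Nat.add (Nat.mul t t) (Nat.mul 4 P)) l))

/-- all local solutions modulo an odd prime -/
noncomputable def enH (l I Q U x y : ℕ) (v : WL) (f : ℕ → ℕ → TL → Bool) : Bool :=
  force (Nat.mod U l) (fun U => force (Nat.mod x l) (fun x => force (Nat.mod y l) (fun y =>
  allN l (fun t => force (Nat.mod (Nat.add (Nat.mul t x) y) l) (fun w =>
    @Nat.rec (fun _ => Bool)
      (imp (Nat.beq w 0) (allN l (fun P => tgH l I Q v t P f)))
      (fun _ _ => force (Nat.mod (Nat.mul w (look I U)) l) (fun P => tgH l I Q v t P f)) U)))))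

/-- the modulus -/
def M2n : ℕ := 3 * 5 * 7 * 13 * 19 * 37 * 61 * 73

/-- the primes used -/
def LPh : List ℕ := [3, 5, 7, 13, 19, 37, 61, 73]

/-- chosen inverse -/
def ivh (x : ℤ) : ℤ := Int.gcdA x (M2n : ℤ)

/-- all that is used about the discriminant -/
structure BaseH (D : ℤ) : Prop where
  nsq : ∀ l : ℕ, l ∈ LPh → ¬ IsSquare ((D : ℤ) : ZMod l)

theorem isCoprime_M2 {x : ℤ} (h : ∀ l : ℕ, l ∈ LPh → ¬ (l : ℤ) ∣ x) : IsCoprime x (M2n : ℤ) := by
  have hp : ∀ l : ℕ, l.Prime → ¬ (l : ℤ) ∣ x → IsCoprime x (l : ℤ) := by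
    intro l hl hx
    have h3 := (Nat.prime_iff_prime_int.mp hl)
    exact ((Prime.coprime_iff_not_dvd h3).mpr hx).symm
  have h3 := hp 3 (by norm_num) (h 3 (by simp [LPh]))
  have h5 := hp 5 (by norm_num) (h 5 (by simp [LPh]))
  have h7 := hp 7 (by norm_num) (h 7 (by simp [LPh]))
  have h13 := hp 13 (by norm_num) (h 13 (by simp [LPh]))
  have h19 := hp 19 (by norm_num) (h 19 (by simp [LPh]))
  have h37 := hp 37 (by norm_num) (h 37 (by simp [LPh]))
  have h61 := hp 61 (by norm_num) (h 61 (by simp [LPh]))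
  have h73 := hp 73 (by norm_num) (h 73 (by simp [LPh]))
  have e : (M2n : ℤ) = (3 : ℕ) * (5 : ℕ) * (7 : ℕ) * (13 : ℕ) * (19 : ℕ) *
      (37 : ℕ) * (61 : ℕ) * (73 : ℕ) := by
    unfold M2n; norm_num
  rw [e]
  exact ((((((h3.mul_right h5).mul_right h7).mul_right
    h13).mul_right h19).mul_right h37).mul_right h61).mul_right h73

section base

variable {D : ℤ} (H : BaseH D) {f : Fm} (hf : f.disc = D)

include H hf

theorem BaseH.cop : IsCoprime f.A (M2n : ℤ) := by
  apply isCoprime_M2
  intro l hl hd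
  apply H.nsq l hl
  have h0 : ((f.A : ℤ) : ZMod l) = 0 := (ZMod.intCast_zmod_eq_zero_iff_dvd _ _).mpr hd
  rw [← hf]
  unfold Fm.disc
  push_cast
  rw [h0]
  exact ⟨f.B, by ring⟩

theorem BaseH.ivA {l : ℕ} (hl : l ∣ M2n) : ((f.A * ivh f.A : ℤ) : ZMod l) = 1 := by
  have h := H.cop hf
  have h1 : Int.gcd f.A (M2n : ℤ) = 1 := Int.isCoprime_iff_gcd_eq_one.mp h
  have h2 := Int.gcd_eq_gcd_ab f.A (M2n : ℤ)
  rw [h1] at h2
  have h3 : ((M2n : ℕ) : ZMod l) = 0 := (ZMod.natCast_eq_zero_iff _ _).mpr hl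
  have h4 := congrArg (fun z : ℤ => (z : ZMod l)) h2
  unfold ivh
  push_cast at h4 ⊢
  rw [h3] at h4
  linear_combination -h4

theorem BaseH.ivC {l : ℕ} (hl : l ∣ M2n) : ((f.C * ivh f.C : ℤ) : ZMod l) = 1 :=
  H.ivA (f := f.step 0) (by rw [Fm.disc_step]; exact hf) hl

end base

/-- normalized middle coefficient -/
def nBh (f : Fm) : ℤ := f.B * ivh f.A
/-- normalized last coefficient -/
def nCh (f : Fm) : ℤ := f.C * ivh f.A
/-- index of a form -/
def ixh (l : ℕ) (f : Fm) : ℕ := pk l (nBh f) (nCh f)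

/-- the mirrored form -/
def flip (f : Fm) : Fm := ⟨f.C, f.B, f.A⟩

theorem flip_disc (f : Fm) : (flip f).disc = f.disc := by
  unfold flip Fm.disc; ring

theorem LPh_dvd {l : ℕ} (h : l ∈ LPh) : l ∣ M2n := by
  unfold LPh at h
  simp only [List.mem_cons, List.not_mem_nil, or_false] at h
  rcases h with rfl | rfl | rfl | rfl | rfl | rfl | rfl | rfl <;> decide +kernel

theorem BaseH.vv {D : ℤ} (H : BaseH D) {f : Fm} (hf : f.disc = D) {l : ℕ} (h : l ∈ LPh) :
    V l (nBh f) (nCh f) := by
  unfold V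
  rw [if_neg (by rintro rfl; simp [LPh] at h)]
  intro hs
  apply H.nsq l h
  have e := H.ivA hf (LPh_dvd h)
  push_cast at e
  apply sq_ofU (y := (ivh f.A : ZMod l)) (y' := (f.A : ZMod l)) e
  rw [← hf]
  convert hs using 1
  unfold Fm.disc nBh nCh
  push_cast
  linear_combination 4 * (f.C : ZMod l) * (ivh f.A : ZMod l) * e

/-- the trace at the actual forms -/
def trcH (l : ℕ) : WL → Fm → TL
  | .nil, f => .cons (7 * res f.A l) (ixh l f)
      (.cons (7 * res (flip f).A l) (ixh l (flip f)) .nil)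
  | .cons a v, f => .cons (7 * res f.A l) (ixh l f) (trcH l v (f.step a))

/-- last form -/
def endF : WL → Fm → Fm
  | .nil, f => f
  | .cons a v, f => endF v (f.step a)

theorem endF_eq (v : WL) (f : Fm) : endF v f = fs v f v.len := by
  induction v generalizing f with
  | nil => rfl
  | cons a v ih =>
    change endF v (f.step a) = fs (.cons a v) f (v.len + 1)
    rw [ih, fs_cons]

/-- conditions at the centre -/
structure Cen (f : Fm) (m : ℤ) : Prop where
  hC : f.C = 2
  hB : f.B = 2 * m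

theorem mkH_eq {D : ℤ} (H : BaseH D) {l I : ℕ} (l1 : 1 < l) (hI : chkI l I = true)
    (hl : l ∣ M2n) (v : WL) {f : Fm} (hf : f.disc = D) {m : ℤ} (hm : Cen (endF v f) m)
    (g : ℕ → TL → Bool) :
    mkH l I v (res f.A l) (res (nBh f) l) (res (nCh f) l) g = g (res m l) (trcH l v f) := by
  have hl0 : 0 < l := by omega
  induction v generalizing f g with
  | nil =>
    have e : mkH l I .nil (res f.A l) (res (nBh f) l) (res (nCh f) l) g =
      force (Nat.mul 7 (res f.A l)) (fun q => force (Nat.mul 7 (Nat.add (Nat.mul (res (nBh f) l) l)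
        (res (nCh f) l))) (fun k => force (look I (res (nCh f) l)) (fun i =>
        force (Nat.mod (Nat.mul (res (nBh f) l) i) l) (fun m =>
      force (Nat.mul 7 (Nat.mod (Nat.mul (res f.A l) (res (nCh f) l)) l)) (fun q' =>
      force (Nat.mul 7 (Nat.add (Nat.mul m l) (Nat.mod i l))) (fun k' =>
        g m (TL.cons q k (TL.cons q' k' TL.nil)))))))) := rfl
    rw [e]
    simp only [force_eq]
    have eA := H.ivA hf hl
    have eC := H.ivC hf hl
    have ci : ((look I (res (nCh f) l) : ℕ) : ZMod l) = ((f.A * ivh f.C : ℤ) : ZMod l) := by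
      apply inv_of l1 hI
      unfold nCh
      push_cast at eA eC ⊢
      linear_combination (f.C : ZMod l) * (ivh f.C : ZMod l) * eA + eC
    have cA := res_cast' f.A hl0
    have cB := res_cast' (nBh f) hl0
    have cC := res_cast' (nCh f) hl0
    have hC : f.C = 2 := hm.hC
    have hB : f.B = 2 * m := hm.hB
    have h1 : Nat.mod (Nat.mul (res f.A l) (res (nCh f) l)) l = res (flip f).A l := by
      apply mod_res hl0
      change ((res f.A l * res (nCh f) l : ℕ) : ZMod l) = ((f.C : ℤ) : ZMod l)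
      rw [Nat.cast_mul, cA, cC]
      unfold nCh
      push_cast at eA ⊢
      linear_combination (f.C : ZMod l) * eA
    have h2' : ((Nat.mul (res (nBh f) l) (look I (res (nCh f) l)) : ℕ) : ZMod l) =
        ((f.B * ivh f.C : ℤ) : ZMod l) := by
      change ((res (nBh f) l * look I (res (nCh f) l) : ℕ) : ZMod l) = _
      rw [Nat.cast_mul, cB, ci]
      unfold nBh
      push_cast at eA ⊢
      linear_combination (f.B : ZMod l) * (ivh f.C : ZMod l) * eA
    have h2 : Nat.mod (Nat.mul (res (nBh f) l) (look I (res (nCh f) l))) l = res m l := by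
      apply mod_res hl0
      rw [h2', hB]
      rw [hC] at eC ⊢
      push_cast at eC ⊢
      linear_combination (m : ZMod l) * eC
    have h3 : res m l = res (nBh (flip f)) l := by
      rw [← h2]
      apply mod_res hl0
      rw [h2']
      rfl
    have h4 : Nat.mod (look I (res (nCh f) l)) l = res (nCh (flip f)) l := by
      apply mod_res hl0
      rw [ci]
      rfl
    rw [h1, h2, h4]
    change g (res m l) (TL.cons (7 * res f.A l) (ixh l f) (TL.cons (7 * res (flip f).A l)
      (7 * (res m l * l + res (nCh (flip f)) l)) TL.nil)) = _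
    have h6 : 7 * (res m l * l + res (nCh (flip f)) l) = ixh l (flip f) := by
      rw [h3]; rfl
    rw [h6]
    rfl
  | cons a v ih =>
    have e : mkH l I (.cons a v) (res f.A l) (res (nBh f) l) (res (nCh f) l) g =
      force (Nat.mul 7 (res f.A l)) (fun q =>
      force (Nat.mul 7 (Nat.add (Nat.mul (res (nBh f) l) l) (res (nCh f) l))) (fun k =>
      force (look I (res (nCh f) l)) (fun i =>
      force (Nat.mod (Nat.mul (res f.A l) (res (nCh f) l)) l) (fun c' =>
      force (Nat.mod (Nat.mul (Nat.add (Nat.mul (Nat.mul 2 a) (res (nCh f) l))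
        (Nat.sub l (res (nBh f) l))) i) l) (fun B' =>
      force (Nat.mod (Nat.mul (Nat.add (Nat.add 1 (Nat.mul a (res (nBh f) l))) (Nat.mul (Nat.mul a a)
        (Nat.sub l (res (nCh f) l)))) i) l) (fun C' =>
          mkH l I v c' B' C' (fun m r => g m (TL.cons q k r)))))))) := rfl
    rw [e]
    simp only [force_eq]
    have eA := H.ivA hf hl
    have eC := H.ivC hf hl
    have ci : ((look I (res (nCh f) l) : ℕ) : ZMod l) = ((f.A * ivh f.C : ℤ) : ZMod l) := by
      apply inv_of l1 hI
      unfold nCh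
      push_cast at eA eC ⊢
      linear_combination (f.C : ZMod l) * (ivh f.C : ZMod l) * eA + eC
    have cA := res_cast' f.A hl0
    have cB := res_cast' (nBh f) hl0
    have cC := res_cast' (nCh f) hl0
    have cl : ((l : ℕ) : ZMod l) = 0 := CharP.cast_eq_zero _ _
    have h1 : Nat.mod (Nat.mul (res f.A l) (res (nCh f) l)) l = res (f.step a).A l := by
      apply mod_res hl0
      change ((res f.A l * res (nCh f) l : ℕ) : ZMod l) = ((f.C : ℤ) : ZMod l)
      rw [Nat.cast_mul, cA, cC]
      unfold nCh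
      push_cast at eA ⊢
      linear_combination (f.C : ZMod l) * eA
    have h2 : Nat.mod (Nat.mul (Nat.add (Nat.mul (Nat.mul 2 a) (res (nCh f) l))
        (Nat.sub l (res (nBh f) l))) (look I (res (nCh f) l))) l = res (nBh (f.step a)) l := by
      apply mod_res hl0
      change (((2 * a * res (nCh f) l + (l - res (nBh f) l)) * look I (res (nCh f) l) : ℕ) : ZMod l) =
        (((2 * a * f.C - f.B) * ivh f.C : ℤ) : ZMod l)
      rw [Nat.cast_mul, Nat.cast_add, Nat.cast_mul, Nat.cast_mul,
        Nat.cast_sub (res_lt (nBh f) hl0).le, cB, cC, ci, cl]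
      unfold nCh nBh
      push_cast at eA ⊢
      linear_combination (2 * (a : ZMod l) * f.C - f.B) * (ivh f.C : ZMod l) * eA
    have h3 : Nat.mod (Nat.mul (Nat.add (Nat.add 1 (Nat.mul a (res (nBh f) l)))
        (Nat.mul (Nat.mul a a) (Nat.sub l (res (nCh f) l)))) (look I (res (nCh f) l))) l =
        res (nCh (f.step a)) l := by
      apply mod_res hl0
      change (((1 + a * res (nBh f) l + a * a * (l - res (nCh f) l)) * look I (res (nCh f) l) : ℕ) :
        ZMod l) = (((f.A + a * f.B - a ^ 2 * f.C) * ivh f.C : ℤ) : ZMod l)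
      rw [Nat.cast_mul, Nat.cast_add, Nat.cast_add, Nat.cast_mul, Nat.cast_mul, Nat.cast_mul,
        Nat.cast_sub (res_lt (nCh f) hl0).le, cB, cC, ci, cl]
      unfold nCh nBh
      push_cast at eA ⊢
      linear_combination ((a : ZMod l) * f.B - (a : ZMod l) ^ 2 * f.C) * (ivh f.C : ZMod l) * eA
    rw [h1, h2, h3, ih (by rw [Fm.disc_step]; exact hf) hm]
    rfl

theorem mkH_f0 {t P : ℤ} (H : BaseH (t ^ 2 + 4 * P)) {l I : ℕ} (l1 : 1 < l)
    (hI : chkI l I = true) (hl : l ∣ M2n) (v : WL) {m : ℤ} (hm : Cen (endF v (f0 t P)) m)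
    (g : ℕ → TL → Bool) :
    mkH l I v 1 (res t l) (res P l) g = g (res m l) (trcH l v (f0 t P)) := by
  have hl0 : 0 < l := by omega
  rw [← mkH_eq H l1 hI hl v (f0_disc t P) hm g]
  have e := H.ivA (f0_disc t P) hl
  have e' : (((1 : ℤ) * ivh 1 : ℤ) : ZMod l) = 1 := e
  push_cast at e'
  rw [one_mul] at e'
  congr 1
  · have : res (f0 t P).A l = 1 := by
      symm
      apply res_unique l1
      change ((1 : ℕ) : ZMod l) = ((1 : ℤ) : ZMod l)
      push_cast; rfl
    rw [this]
  · apply res_congr hl0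
    change (t : ZMod l) = ((t * ivh 1 : ℤ) : ZMod l)
    push_cast
    rw [e', mul_one]
  · apply res_congr hl0
    change (P : ZMod l) = ((P * ivh 1 : ℤ) : ZMod l)
    push_cast
    rw [e', mul_one]

theorem tgH_sound {t P : ℤ} (H : BaseH (t ^ 2 + 4 * P)) {l I Q : ℕ} (l1 : 1 < l)
    (hI : chkI l I = true) (hl : l ∣ M2n) (hQ : chkIq l Q = true)
    (hns : ¬ IsSquare (((t ^ 2 + 4 * P : ℤ)) : ZMod l)) (v : WL) {m : ℤ}
    (hm : Cen (endF v (f0 t P)) m) (f : ℕ → ℕ → TL → Bool)
    (h : tgH l I Q v (res t l) (res P l) f = true) :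
    f (res t l) (res m l) (trcH l v (f0 t P)) = true := by
  have hl0 : 0 < l := by omega
  unfold tgH at h
  have h1 : tb Q (Nat.mod (Nat.add (Nat.mul (res t l) (res t l)) (Nat.mul 4 (res P l))) l) =
      false := by
    by_contra hc
    have hc' := Bool.eq_true_of_not_eq_false hc
    have h2 := tb_square hl0 hQ hc'
    apply hns
    have h3 : ((Nat.add (Nat.mul (res t l) (res t l)) (Nat.mul 4 (res P l)) : ℕ) : ZMod l) =
        ((t ^ 2 + 4 * P : ℤ) : ZMod l) := by
      change ((res t l * res t l + 4 * res P l : ℕ) : ZMod l) = _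
      push_cast
      rw [res_cast' t hl0, res_cast' P hl0]
      ring
    rw [h3] at h2
    exact h2
  rw [h1] at h
  change mkH l I v 1 (res t l) (res P l) (fun m r => f (res t l) m r) = true at h
  rw [mkH_f0 H l1 hI hl v hm] at h
  exact h

theorem enH_sound {t P : ℤ} (H : BaseH (t ^ 2 + 4 * P)) {U x y : ℕ}
    {l I Q : ℕ} (hlp : l ∈ LPh) (hlin : (P : ZMod l) * (U : ZMod l) = t * x + y) (hp : l.Prime)
    (hI : chkI l I = true) (hQ : chkIq l Q = true) (v : WL) {m : ℤ}
    (hm : Cen (endF v (f0 t P)) m) {f : ℕ → ℕ → TL → Bool}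
    (h : enH l I Q U x y v f = true) :
    f (res t l) (res m l) (trcH l v (f0 t P)) = true := by
  have l1 := hp.one_lt
  have hl0 : 0 < l := by omega
  have hl := LPh_dvd hlp
  have hns := H.nsq l hlp
  have hF := Fact.mk hp
  unfold enH at h
  rw [force_eq, force_eq, force_eq, allN_iff] at h
  have h1 := h _ (res_lt t hl0)
  rw [force_eq] at h1
  have hw : ((Nat.mod (Nat.add (Nat.mul (res t l) (Nat.mod x l)) (Nat.mod y l)) l : ℕ) : ZMod l) =
      P * (U : ZMod l) := by
    change (((res t l * (x % l) + y % l) % l : ℕ) : ZMod l) = _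
    rw [ZMod.natCast_mod]
    push_cast
    rw [ZMod.natCast_mod, ZMod.natCast_mod, res_cast' t hl0]
    exact hlin.symm
  set w := Nat.mod (Nat.add (Nat.mul (res t l) (Nat.mod x l)) (Nat.mod y l)) l with hwd
  have hwl : w < l := Nat.mod_lt _ hl0
  have hUm : ((Nat.mod U l : ℕ) : ZMod l) = U := by
    change ((U % l : ℕ) : ZMod l) = _
    rw [ZMod.natCast_mod]
  have hUl : Nat.mod U l < l := Nat.mod_lt _ hl0
  generalize Nat.mod U l = u at h1 hUm hUl
  cases u with
  | zero =>
    change imp (Nat.beq w 0) (allN l (fun P => tgH l I Q v (res t l) P f)) = true at h1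
    have h2 : w = 0 := by
      rw [← hUm, Nat.cast_zero, mul_zero, ZMod.natCast_eq_zero_iff] at hw
      exact Nat.eq_zero_of_dvd_of_lt hw hwl
    have h3 := imp_true h1 (by rw [h2]; rfl)
    rw [allN_iff] at h3
    exact tgH_sound H l1 hI hl hQ hns v hm f (h3 _ (res_lt P hl0))
  | succ n =>
    change force (Nat.mod (Nat.mul w (look I (n + 1))) l)
      (fun P => tgH l I Q v (res t l) P f) = true at h1
    rw [force_eq] at h1
    have hu : IsUnit ((n + 1 : ℕ) : ZMod l) := by
      rw [isUnit_iff_ne_zero]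
      intro h0
      rw [ZMod.natCast_eq_zero_iff] at h0
      have := Nat.le_of_dvd (by omega) h0
      omega
    have h5 := chkI_sound l1 hI hUl hu
    have h6 : Nat.mod (Nat.mul w (look I (n + 1))) l = res P l := by
      apply mod_res hl0
      change ((w * look I (n + 1) : ℕ) : ZMod l) = _
      rw [Nat.cast_mul, hw, ← hUm, mul_assoc, h5, mul_one]
    rw [h6] at h1
    exact tgH_sound H l1 hI hl hQ hns v hm f h1

end Pool.Agent.L0h49.E
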