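import Pool.Agent.L0h49.E.B1

/-! Relations for palindromic periods whose middle norm is two: evaluation. -/

set_option maxRecDepth 100000

namespace Pool.Agent.L0h49.E

open H419R2 Finset
open Pool.Agent.N911

/-- append a letter -/
def snoc : WL → ℕ → WL
  | .nil, m => .cons m .nil
  | .cons a l, m => .cons a (snoc l m)

theorem snoc_len (v : WL) (m : ℕ) : (snoc v m).len = v.len + 1 := by
  induction v with
  | nil => rfl
  | cons a l ih =>
    change (snoc l m).len + 1 = l.len + 1 + 1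
    rw [ih]

theorem snoc_ne (v : WL) (m : ℕ) : snoc v m ≠ .nil := by
  cases v <;> simp [snoc]

theorem snoc_get_lt (v : WL) (m : ℕ) {n : ℕ} (h : n < v.len) : (snoc v m).get n = v.get n := by
  induction v generalizing n with
  | nil => exact absurd h (Nat.not_lt_zero _)
  | cons a l ih =>
    cases n with
    | zero => rfl
    | succ n => exact ih (Nat.lt_of_succ_lt_succ h)

theorem snoc_get_last (v : WL) (m : ℕ) : (snoc v m).get v.len = m := by
  induction v with
  | nil => rfl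
  | cons a l ih => exact ih

theorem snoc_pos {v : WL} (h : v.Pos) {m : ℕ} (hm : 0 < m) : (snoc v m).Pos := by
  induction v with
  | nil => exact ⟨hm, trivial⟩
  | cons a l ih => exact ⟨h.1, ih h.2⟩

theorem fs_snoc (v : WL) (m : ℕ) (f : Fm) {n : ℕ} (h : n ≤ v.len) :
    fs (snoc v m) f n = fs v f n := by
  induction n with
  | zero => rfl
  | succ n ih =>
    have e : ∀ w : WL, fs w f (n + 1) = (fs w f n).step (w.get n) := fun _ => rfl
    rw [e, e, ih (by omega), snoc_get_lt v m (by omega)]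

theorem fs_snoc_last (v : WL) (m : ℕ) (f : Fm) :
    fs (snoc v m) f (v.len + 1) = (endF v f).step m := by
  have e : fs (snoc v m) f (v.len + 1) = (fs (snoc v m) f v.len).step ((snoc v m).get v.len) := rfl
  rw [e, fs_snoc v m f le_rfl, snoc_get_last, endF_eq]

theorem step_cen {f : Fm} {m : ℕ} (h : Cen f m) : f.step m = flip f := by
  unfold Fm.step flip
  rw [h.hC, h.hB]
  simp only [Fm.mk.injEq, true_and]
  constructor <;> ring

section ws

variable {N : ℕ} [NeZero N] {M : Type*} [CommRing M]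

/-- weighted sum -/
noncomputable def WSH (χ : ZMod N → M) : WL → Fm → M → M → M
  | .nil, f, w, mm => 12 * SE χ (f.A : ZMod N) f.B f.C + w * SY χ (f.A : ZMod N) f.B f.C +
      mm * SY χ ((flip f).A : ZMod N) (flip f).B (flip f).C
  | .cons a l, f, w, mm => 12 * SE χ (f.A : ZMod N) f.B f.C + w * SY χ (f.A : ZMod N) f.B f.C +
      WSH χ l (f.step a) (4 * (a : M)) mm

theorem WSH_nil (χ : ZMod N → M) (f : Fm) (w mm : M) : WSH χ .nil f w mm =
    12 * SE χ (f.A : ZMod N) f.B f.C + w * SY χ (f.A : ZMod N) f.B f.C +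
      mm * SY χ ((flip f).A : ZMod N) (flip f).B (flip f).C := rfl

theorem WSH_cons (χ : ZMod N → M) (a : ℕ) (l : WL) (f : Fm) (w mm : M) :
    WSH χ (.cons a l) f w mm =
    12 * SE χ (f.A : ZMod N) f.B f.C + w * SY χ (f.A : ZMod N) f.B f.C +
      WSH χ l (f.step a) (4 * (a : M)) mm := rfl

theorem WSH_eq (χ : ZMod N → M) (v : WL) (f : Fm) (w : M) (m : ℕ) (hc : Cen (endF v f) m) :
    WSH χ v f w (2 * (m : M)) = 2 * RSE χ (snoc v m) f + w * SY χ (f.A : ZMod N) f.B f.C := by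
  induction v generalizing f w with
  | nil =>
    have hc' : Cen f m := hc
    have e : snoc .nil m = .cons m .nil := rfl
    rw [WSH_nil, e, RSE_cons, RSE_nil, step_cen hc']
    have e1 : ((lf WL.nil : ℕ) : M) = 1 := by
      have : lf WL.nil = 1 := rfl
      rw [this]; simp
    rw [e1]
    ring
  | cons a l ih =>
    have e : snoc (.cons a l) m = .cons a (snoc l m) := rfl
    rw [WSH_cons, e, RSE_cons, ih _ _ hc]
    have e1 : ((lf (snoc l m) : ℕ) : M) = 2 := by
      have : lf (snoc l m) = 2 := by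
        cases l <;> rfl
      rw [this]; simp
    rw [e1]
    ring

theorem WSH_f0 (χ : ZMod N → M) (v : WL) (t P : ℤ) (w : M) (m : ℕ)
    (hc : Cen (endF v (f0 t P)) m) :
    WSH χ v (f0 t P) w (2 * (m : M)) = 2 * RSE χ (snoc v m) (f0 t P) +
      w * SY χ 1 (t : ZMod N) (P : ZMod N) := by
  rw [WSH_eq χ v (f0 t P) w m hc]
  have e1 : (((f0 t P).A : ℤ) : ZMod N) = 1 := by
    change ((1 : ℤ) : ZMod N) = 1
    simp
  rw [e1]
  rfl

theorem WSH_lin (χ : ZMod N → M) (v : WL) (f : Fm) (w mm : M) :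
    WSH χ v f w mm = WSH χ v f 0 0 + w * SY χ (f.A : ZMod N) f.B f.C +
      mm * SY χ ((flip (endF v f)).A : ZMod N) (flip (endF v f)).B (flip (endF v f)).C := by
  induction v generalizing f w mm with
  | nil =>
    rw [WSH_nil, WSH_nil]
    change _ = _ + _ + mm * SY χ ((flip f).A : ZMod N) (flip f).B (flip f).C
    ring
  | cons a l ih =>
    rw [WSH_cons, WSH_cons, ih (f.step a) (4 * (a : M)) mm, ih (f.step a) (4 * (a : M)) 0]
    change _ = _ + _ + mm * SY χ ((flip (endF l (f.step a))).A : ZMod N)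
      (flip (endF l (f.step a))).B (flip (endF l (f.step a))).C
    ring

end ws

/-- weighted sum over two traces; the second value is the coefficient of the centre -/
noncomputable def R2h (gx ge : ℕ → ℕ → ℕ) (v : WL) :
    TL → TL → ℕ → ℕ → (ℕ → ℕ → Bool) → Bool :=
  @WL.rec (fun _ => TL → TL → ℕ → ℕ → (ℕ → ℕ → Bool) → Bool)
    (fun T T' w s k => T.hd (fun q i r => T'.hd (fun q' i' r' =>
      force (ge i i') (fun e => force (Nat.add s (Nat.mul (gx q q')
        (Nat.add (Nat.mul 2 (Nat.mod e 128)) (Nat.mul w (Nat.div e 128))))) (fun s =>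
      r.hd (fun q2 i2 _ => r'.hd (fun q2' i2' _ => force (ge i2 i2') (fun e2 =>
        force (Nat.mul (gx q2 q2') (Nat.div e2 128)) (fun cm => k s cm)))))))))
    (fun a _ ih T T' w s k => T.hd (fun q i r => T'.hd (fun q' i' r' =>
      force (ge i i') (fun e => force (Nat.add s (Nat.mul (gx q q')
        (Nat.add (Nat.mul 2 (Nat.mod e 128)) (Nat.mul w (Nat.div e 128)))))
        (fun s => ih r r' (Nat.mul 4 a) s k))))) v

/-- weighted sum over three traces -/
noncomputable def R3h (gx ge : ℕ → ℕ → ℕ → ℕ) (v : WL) :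
    TL → TL → TL → ℕ → ℕ → (ℕ → ℕ → Bool) → Bool :=
  @WL.rec (fun _ => TL → TL → TL → ℕ → ℕ → (ℕ → ℕ → Bool) → Bool)
    (fun T T' T2 w s k => T.hd (fun q i r => T'.hd (fun q' i' r' => T2.hd (fun q2 i2 r2 =>
      force (ge i i' i2) (fun e => force (Nat.add s (Nat.mul (gx q q' q2)
        (Nat.add (Nat.mul 2 (Nat.mod e 128)) (Nat.mul w (Nat.div e 128))))) (fun s =>
      r.hd (fun p j _ => r'.hd (fun p' j' _ => r2.hd (fun p2 j2 _ =>
        force (ge j j' j2) (fun e2 =>
        force (Nat.mul (gx p p' p2) (Nat.div e2 128)) (fun cm => k s cm)))))))))))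
    (fun a _ ih T T' T2 w s k => T.hd (fun q i r => T'.hd (fun q' i' r' =>
      T2.hd (fun q2 i2 r2 =>
      force (ge i i' i2) (fun e => force (Nat.add s (Nat.mul (gx q q' q2)
        (Nat.add (Nat.mul 2 (Nat.mod e 128)) (Nat.mul w (Nat.div e 128)))))
        (fun s => ih r r' r2 (Nat.mul 4 a) s k)))))) v

/-- sum of a relation without `B2` part; the first trace has been sliced -/
noncomputable def R0h (v : WL) : TL → TL → ℕ → (ℕ → Bool) → Bool :=
  @WL.rec (fun _ => TL → TL → ℕ → (ℕ → Bool) → Bool)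
    (fun T T' s k => T.hd (fun x e _ => T'.hd (fun q' i' _ =>
      force (Nat.add s (Nat.mul (sl1 x q') (sl1 e i'))) k)))
    (fun _ _ ih T T' s k => T.hd (fun x e r => T'.hd (fun q' i' r' =>
      force (Nat.add s (Nat.mul (sl1 x q') (sl1 e i'))) (fun s => ih r r' s k)))) v

/-- check of a relation without `B2` part; the first trace has been sliced -/
noncomputable def ck0h (p : ℕ) (v : WL) (T T' : TL) : Bool :=
  R0h v T T' 0 (fun s => Nat.beq (Nat.mod s p) 0)

/-- the relation holds for `t` and the centre `m` -/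
noncomputable def ck2h (p : ℕ) (gx ge : ℕ → ℕ → ℕ) (v : WL) (T T' : TL) (t m : ℕ) : Bool :=
  R2h gx ge v T T' (Nat.mul 2 t) 0 (fun s cm =>
    Nat.beq (Nat.mod (Nat.add s (Nat.mul (Nat.mul 2 m) cm)) p) 0)

/-- coefficients of the relation -/
noncomputable def co2h (gx ge : ℕ → ℕ → ℕ) (v : WL) (T T' : TL) (g : ℕ → ℕ → ℕ → Bool) : Bool :=
  R2h gx ge v T T' 0 0 (fun K cm => T.hd (fun _ i _ => T'.hd (fun _ i' _ =>
    force (Nat.mul 2 (Nat.div (ge i i') 128)) (fun c => force (Nat.mul 2 cm) (fun d => g K c d)))))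

/-- coefficients of the relation -/
noncomputable def co3h (gx ge : ℕ → ℕ → ℕ → ℕ) (v : WL) (T T' T2 : TL) (g : ℕ → ℕ → ℕ → Bool) :
    Bool :=
  R3h gx ge v T T' T2 0 0 (fun K cm => T.hd (fun _ i _ => T'.hd (fun _ i' _ => T2.hd (fun _ i2 _ =>
    force (Nat.mul 2 (Nat.div (ge i i' i2) 128)) (fun c => force (Nat.mul 2 cm)
      (fun d => g K c d))))))

/-- linear check -/
def ln3 (p K c d t m : ℕ) : Bool :=
  Nat.beq (Nat.mod (Nat.add (Nat.add K (Nat.mul c t)) (Nat.mul d m)) p) 0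

theorem HEh_of {c : CD} [hne : NeZero c.q] (hc : c.OK) (hq : c.q ∣ M2n) {D : ℤ} (H : BaseH D)
    {X E : Fm → ℕ} (hX : ∀ f : Fm, f.disc = D → Chv c (X f) f.A)
    (hE : ∀ f : Fm, f.disc = D → Ent c (E f) (nBh f) (nCh f)) : HE c D X E := by
  have hmul := chi_mul hc.mul
  refine ⟨?_, ?_, ?_⟩
  · intro f hf
    have e := H.ivA hf hq
    push_cast at e
    rw [SE_scale hmul (A := (f.A : ZMod c.q)) e, hX f hf hne, (hE f hf hne).1]
    unfold nBh nCh
    push_cast
    ring
  · intro f hf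
    have e := H.ivA hf hq
    push_cast at e
    rw [SY_scale hmul (A := (f.A : ZMod c.q)) e, hX f hf hne, (hE f hf hne).2]
    unfold nBh nCh
    push_cast
    ring
  · intro t P hf
    have e := H.ivA hf hq
    have e' : (((1 : ℤ) * ivh 1 : ℤ) : ZMod c.q) = 1 := e
    push_cast at e'
    rw [one_mul] at e'
    rw [(hE _ hf hne).2]
    have e1 : ((nBh (f0 t P) : ℤ) : ZMod c.q) = t := by
      change ((t * ivh 1 : ℤ) : ZMod c.q) = t
      push_cast
      rw [e', mul_one]
    have e2 : ((nCh (f0 t P) : ℤ) : ZMod c.q) = P := by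
      change ((P * ivh 1 : ℤ) : ZMod c.q) = P
      push_cast
      rw [e', mul_one]
    rw [e1, e2]

section sums

variable {c : CD} [NeZero c.q] {D : ℤ}

theorem R2h_eq {gx ge : ℕ → ℕ → ℕ} {l1 l2 : ℕ}
    (h : HE c D (fun f => gx (7 * res f.A l1) (7 * res f.A l2)) (fun f => ge (ixh l1 f) (ixh l2 f)))
    (v : WL) {f : Fm} (hf : f.disc = D) (w s : ℕ) :
    ∃ S cm : ℕ, (∀ mm : ZMod c.p, (S : ZMod c.p) + mm * cm =
      s + WSH (chi c.q c.p c.T) v f (w : ZMod c.p) mm) ∧
      ∀ k, R2h gx ge v (trcH l1 v f) (trcH l2 v f) w s k = k S cm := by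
  induction v generalizing f w s with
  | nil =>
    refine ⟨s + gx (7 * res f.A l1) (7 * res f.A l2) *
      (2 * (ge (ixh l1 f) (ixh l2 f) % 128) + w * (ge (ixh l1 f) (ixh l2 f) / 128)),
      gx (7 * res (flip f).A l1) (7 * res (flip f).A l2) *
        (ge (ixh l1 (flip f)) (ixh l2 (flip f)) / 128), ?_, ?_⟩
    · intro mm
      rw [WSH_nil]
      have h1 := h.hx f hf
      have h2 := h.hy f hf
      have h3 := h.hy (flip f) (by rw [flip_disc]; exact hf)
      rw [Nat.cast_add, Nat.cast_mul, Nat.cast_add, Nat.cast_mul, Nat.cast_mul, Nat.cast_mul, ← h2,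
        ← h3]
      push_cast
      linear_combination 2 * h1
    · intro k
      have e : R2h gx ge .nil (trcH l1 .nil f) (trcH l2 .nil f) w s k =
        force (ge (ixh l1 f) (ixh l2 f)) (fun e => force (Nat.add s (Nat.mul
          (gx (7 * res f.A l1) (7 * res f.A l2))
        (Nat.add (Nat.mul 2 (Nat.mod e 128)) (Nat.mul w (Nat.div e 128))))) (fun s =>
        force (ge (ixh l1 (flip f)) (ixh l2 (flip f))) (fun e2 => force (Nat.mul
          (gx (7 * res (flip f).A l1) (7 * res (flip f).A l2)) (Nat.div e2 128))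
          (fun cm => k s cm)))) := rfl
      rw [e, force_eq, force_eq, force_eq, force_eq]
      rfl
  | cons a v ih =>
    obtain ⟨S, cm, hS, hk⟩ := ih (f := f.step a) (by rw [Fm.disc_step]; exact hf) (4 * a)
      (s + gx (7 * res f.A l1) (7 * res f.A l2) *
      (2 * (ge (ixh l1 f) (ixh l2 f) % 128) + w * (ge (ixh l1 f) (ixh l2 f) / 128)))
    refine ⟨S, cm, ?_, ?_⟩
    · intro mm
      rw [hS mm]
      rw [WSH_cons]
      have h1 := h.hx f hf
      have h2 := h.hy f hf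
      rw [Nat.cast_add, Nat.cast_mul, Nat.cast_add, Nat.cast_mul, Nat.cast_mul, Nat.cast_mul, ← h2]
      push_cast
      linear_combination 2 * h1
    · intro k
      have e : R2h gx ge (.cons a v) (trcH l1 (.cons a v) f) (trcH l2 (.cons a v) f) w s k =
        force (ge (ixh l1 f) (ixh l2 f)) (fun e => force (Nat.add s (Nat.mul
          (gx (7 * res f.A l1) (7 * res f.A l2))
        (Nat.add (Nat.mul 2 (Nat.mod e 128)) (Nat.mul w (Nat.div e 128)))))
        (fun s => R2h gx ge v (trcH l1 v (f.step a)) (trcH l2 v (f.step a))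
          (Nat.mul 4 a) s k)) := rfl
      rw [e, force_eq, force_eq]
      exact hk k

theorem R3h_eq {gx ge : ℕ → ℕ → ℕ → ℕ} {l1 l2 l3 : ℕ}
    (h : HE c D (fun f => gx (7 * res f.A l1) (7 * res f.A l2) (7 * res f.A l3))
      (fun f => ge (ixh l1 f) (ixh l2 f) (ixh l3 f)))
    (v : WL) {f : Fm} (hf : f.disc = D) (w s : ℕ) :
    ∃ S cm : ℕ, (∀ mm : ZMod c.p, (S : ZMod c.p) + mm * cm =
      s + WSH (chi c.q c.p c.T) v f (w : ZMod c.p) mm) ∧
      ∀ k, R3h gx ge v (trcH l1 v f) (trcH l2 v f) (trcH l3 v f) w s k = k S cm := by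
  induction v generalizing f w s with
  | nil =>
    refine ⟨s + gx (7 * res f.A l1) (7 * res f.A l2) (7 * res f.A l3) *
      (2 * (ge (ixh l1 f) (ixh l2 f) (ixh l3 f) % 128) +
        w * (ge (ixh l1 f) (ixh l2 f) (ixh l3 f) / 128)),
      gx (7 * res (flip f).A l1) (7 * res (flip f).A l2) (7 * res (flip f).A l3) *
        (ge (ixh l1 (flip f)) (ixh l2 (flip f)) (ixh l3 (flip f)) / 128), ?_, ?_⟩
    · intro mm
      rw [WSH_nil]
      have h1 := h.hx f hf
      have h2 := h.hy f hf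
      have h3 := h.hy (flip f) (by rw [flip_disc]; exact hf)
      rw [Nat.cast_add, Nat.cast_mul, Nat.cast_add, Nat.cast_mul, Nat.cast_mul, Nat.cast_mul, ← h2,
        ← h3]
      push_cast
      linear_combination 2 * h1
    · intro k
      have e : R3h gx ge .nil (trcH l1 .nil f) (trcH l2 .nil f) (trcH l3 .nil f) w s k =
        force (ge (ixh l1 f) (ixh l2 f) (ixh l3 f)) (fun e => force (Nat.add s (Nat.mul
          (gx (7 * res f.A l1) (7 * res f.A l2) (7 * res f.A l3))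
        (Nat.add (Nat.mul 2 (Nat.mod e 128)) (Nat.mul w (Nat.div e 128))))) (fun s =>
        force (ge (ixh l1 (flip f)) (ixh l2 (flip f)) (ixh l3 (flip f))) (fun e2 => force (Nat.mul
          (gx (7 * res (flip f).A l1) (7 * res (flip f).A l2) (7 * res (flip f).A l3))
            (Nat.div e2 128))
          (fun cm => k s cm)))) := rfl
      rw [e, force_eq, force_eq, force_eq, force_eq]
      rfl
  | cons a v ih =>
    obtain ⟨S, cm, hS, hk⟩ := ih (f := f.step a) (by rw [Fm.disc_step]; exact hf) (4 * a)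
      (s + gx (7 * res f.A l1) (7 * res f.A l2) (7 * res f.A l3) *
      (2 * (ge (ixh l1 f) (ixh l2 f) (ixh l3 f) % 128) +
        w * (ge (ixh l1 f) (ixh l2 f) (ixh l3 f) / 128)))
    refine ⟨S, cm, ?_, ?_⟩
    · intro mm
      rw [hS mm]
      rw [WSH_cons]
      have h1 := h.hx f hf
      have h2 := h.hy f hf
      rw [Nat.cast_add, Nat.cast_mul, Nat.cast_add, Nat.cast_mul, Nat.cast_mul, Nat.cast_mul, ← h2]
      push_cast
      linear_combination 2 * h1
    · intro k
      have e : R3h gx ge (.cons a v) (trcH l1 (.cons a v) f) (trcH l2 (.cons a v) f)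
          (trcH l3 (.cons a v) f) w s k =
        force (ge (ixh l1 f) (ixh l2 f) (ixh l3 f)) (fun e => force (Nat.add s (Nat.mul
          (gx (7 * res f.A l1) (7 * res f.A l2) (7 * res f.A l3))
        (Nat.add (Nat.mul 2 (Nat.mod e 128)) (Nat.mul w (Nat.div e 128)))))
        (fun s => R3h gx ge v (trcH l1 v (f.step a)) (trcH l2 v (f.step a)) (trcH l3 v (f.step a))
          (Nat.mul 4 a) s k)) := rfl
      rw [e, force_eq, force_eq]
      exact hk k

theorem R0h_eq {X0 E0 : ℕ → ℕ} {l1 l2 : ℕ}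
    (h : HE c D (fun f => sl1 (X0 (7 * res f.A l1)) (7 * res f.A l2))
      (fun f => sl1 (E0 (ixh l1 f)) (ixh l2 f)))
    (v : WL) {f : Fm} (hf : f.disc = D) (w mm : ZMod c.p) (s : ℕ) :
    ∃ S : ℕ, 2 * (S : ZMod c.p) = 2 * s + WSH (chi c.q c.p c.T) v f w mm ∧
      ∀ k, R0h v (mp X0 E0 (trcH l1 v f)) (trcH l2 v f) s k = k S := by
  have hx : ∀ f : Fm, f.disc = D → (sl1 (X0 (7 * res f.A l1)) (7 * res f.A l2) : ZMod c.p) *
      ((sl1 (E0 (ixh l1 f)) (ixh l2 f) : ℕ) : ZMod c.p) =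
      6 * SE (chi c.q c.p c.T) (f.A : ZMod c.q) f.B f.C := by
    intro f hf
    have := h.hx f hf
    rw [Nat.mod_eq_of_lt (sl1_lt _ _)] at this
    exact this
  have hy : ∀ f : Fm, f.disc = D → SY (chi c.q c.p c.T) (f.A : ZMod c.q) f.B f.C = 0 := by
    intro f hf
    have := h.hy f hf
    rw [Nat.div_eq_of_lt (sl1_lt _ _), Nat.cast_zero, mul_zero] at this
    exact this.symm
  induction v generalizing f w s with
  | nil =>
    refine ⟨s + sl1 (X0 (7 * res f.A l1)) (7 * res f.A l2) * sl1 (E0 (ixh l1 f)) (ixh l2 f),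
      ?_, ?_⟩
    · rw [WSH_nil]
      rw [hy f hf, hy (flip f) (by rw [flip_disc]; exact hf)]
      have h1 := hx f hf
      push_cast
      linear_combination 2 * h1
    · intro k
      have e : R0h .nil (mp X0 E0 (trcH l1 .nil f)) (trcH l2 .nil f) s k =
        force (Nat.add s (Nat.mul (sl1 (X0 (7 * res f.A l1)) (7 * res f.A l2))
          (sl1 (E0 (ixh l1 f)) (ixh l2 f)))) k := rfl
      rw [e, force_eq]
      rfl
  | cons a v ih =>
    obtain ⟨S, hS, hk⟩ := ih (f := f.step a) (by rw [Fm.disc_step]; exact hf)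
      (4 * (a : ZMod c.p))
      (s + sl1 (X0 (7 * res f.A l1)) (7 * res f.A l2) * sl1 (E0 (ixh l1 f)) (ixh l2 f))
    refine ⟨S, ?_, ?_⟩
    · rw [hS]
      rw [WSH_cons]
      have h1 := hx f hf
      rw [hy f hf]
      push_cast
      linear_combination 2 * h1
    · intro k
      have e : R0h (.cons a v) (mp X0 E0 (trcH l1 (.cons a v) f)) (trcH l2 (.cons a v) f) s k =
        force (Nat.add s (Nat.mul (sl1 (X0 (7 * res f.A l1)) (7 * res f.A l2))
          (sl1 (E0 (ixh l1 f)) (ixh l2 f)))) (fun s => R0h v (mp X0 E0 (trcH l1 v (f.step a)))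
            (trcH l2 v (f.step a)) s k) := rfl
      rw [e, force_eq]
      exact hk k

theorem relH_two {v : WL} {t P : ℤ} {m : ℕ} (hc : Cen (endF v (f0 t P)) m)
    (hR : RelE (chi c.q c.p c.T) (snoc v m) t P = 0) :
    WSH (chi c.q c.p c.T) v (f0 t P) (2 * t : ZMod c.p) (2 * (m : ZMod c.p)) = 0 := by
  rw [WSH_f0 _ _ _ _ _ _ hc]
  unfold RelE at hR
  linear_combination 2 * hR

theorem ck2h_sound {gx ge : ℕ → ℕ → ℕ} {l1 l2 : ℕ} {t P : ℤ} {m : ℕ}
    (h : HE c (t ^ 2 + 4 * P) (fun f => gx (7 * res f.A l1) (7 * res f.A l2))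
      (fun f => ge (ixh l1 f) (ixh l2 f)))
    {v : WL} (hc : Cen (endF v (f0 t P)) m)
    (hR : RelE (chi c.q c.p c.T) (snoc v m) t P = 0) {p tt mt : ℕ} (hp : c.p = p)
    (ht : (tt : ZMod p) = t) (hm : (mt : ZMod p) = m) :
    ck2h p gx ge v (trcH l1 v (f0 t P)) (trcH l2 v (f0 t P)) tt mt = true := by
  subst hp
  obtain ⟨S, cm, hS, hk⟩ := R2h_eq h v (f0_disc t P) (Nat.mul 2 tt) 0
  unfold ck2h
  rw [hk]
  apply beq_mod
  have e := hS (2 * (m : ZMod c.p))
  rw [nmul, Nat.cast_mul, ht, Nat.cast_zero, zero_add] at e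
  have e2 := relH_two hc hR
  push_cast at e
  rw [e2] at e
  change ((S + 2 * mt * cm : ℕ) : ZMod c.p) = 0
  push_cast
  rw [hm]
  exact e

theorem ck0h_sound {X0 E0 : ℕ → ℕ} {l1 l2 : ℕ} {t P : ℤ} {m : ℕ}
    (h : HE c (t ^ 2 + 4 * P) (fun f => sl1 (X0 (7 * res f.A l1)) (7 * res f.A l2))
      (fun f => sl1 (E0 (ixh l1 f)) (ixh l2 f)))
    {v : WL} (hc : Cen (endF v (f0 t P)) m)
    (hR : RelE (chi c.q c.p c.T) (snoc v m) t P = 0) {p : ℕ} (hp : c.p = p)
    (h2 : IsUnit (2 : ZMod p)) :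
    ck0h p v (mp X0 E0 (trcH l1 v (f0 t P))) (trcH l2 v (f0 t P)) = true := by
  subst hp
  obtain ⟨S, hS, hk⟩ := R0h_eq h v (f0_disc t P) (2 * t : ZMod c.p) (2 * (m : ZMod c.p)) 0
  unfold ck0h
  rw [hk]
  apply beq_mod
  have e2 := relH_two hc hR
  rw [e2, Nat.cast_zero, mul_zero, zero_add] at hS
  exact (h2.mul_right_eq_zero).mp hS

theorem co2h_sound {gx ge : ℕ → ℕ → ℕ} {l1 l2 : ℕ} {t P : ℤ} {m : ℕ}
    (h : HE c (t ^ 2 + 4 * P) (fun f => gx (7 * res f.A l1) (7 * res f.A l2))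
      (fun f => ge (ixh l1 f) (ixh l2 f)))
    {v : WL} (hc : Cen (endF v (f0 t P)) m)
    (hR : RelE (chi c.q c.p c.T) (snoc v m) t P = 0) {g : ℕ → ℕ → ℕ → Bool}
    (hg : co2h gx ge v (trcH l1 v (f0 t P)) (trcH l2 v (f0 t P)) g = true) :
    ∃ K c' d : ℕ, (K : ZMod c.p) + c' * t + d * m = 0 ∧ g K c' d = true := by
  obtain ⟨S, cm, hS, hk⟩ := R2h_eq h v (f0_disc t P) 0 0
  unfold co2h at hg
  rw [hk] at hg
  refine ⟨S, 2 * (ge (ixh l1 (f0 t P)) (ixh l2 (f0 t P)) / 128), 2 * cm, ?_, ?_⟩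
  · have h1 := h.h0 t P (f0_disc t P)
    have e := hS (2 * (m : ZMod c.p))
    have e2 := relH_two hc hR
    rw [WSH_f0 _ _ _ _ _ _ hc] at e e2
    push_cast at e h1 ⊢
    rw [h1]
    linear_combination e + e2
  · cases v with
    | nil =>
      have e : (TL.hd (trcH l1 .nil (f0 t P)) (fun _ i _ => TL.hd (trcH l2 .nil (f0 t P))
        (fun _ i' _ => force (Nat.mul 2 (Nat.div (ge i i') 128)) (fun c =>
          force (Nat.mul 2 cm) (fun d => g S c d))))) =
        force (Nat.mul 2 (Nat.div (ge (ixh l1 (f0 t P)) (ixh l2 (f0 t P))) 128))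
          (fun c => force (Nat.mul 2 cm) (fun d => g S c d)) := rfl
      rw [e, force_eq, force_eq] at hg
      exact hg
    | cons a v =>
      have e : (TL.hd (trcH l1 (.cons a v) (f0 t P)) (fun _ i _ =>
        TL.hd (trcH l2 (.cons a v) (f0 t P))
        (fun _ i' _ => force (Nat.mul 2 (Nat.div (ge i i') 128)) (fun c =>
          force (Nat.mul 2 cm) (fun d => g S c d))))) =
        force (Nat.mul 2 (Nat.div (ge (ixh l1 (f0 t P)) (ixh l2 (f0 t P))) 128))
          (fun c => force (Nat.mul 2 cm) (fun d => g S c d)) := rfl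
      rw [e, force_eq, force_eq] at hg
      exact hg

theorem co3h_sound {gx ge : ℕ → ℕ → ℕ → ℕ} {l1 l2 l3 : ℕ} {t P : ℤ} {m : ℕ}
    (h : HE c (t ^ 2 + 4 * P) (fun f => gx (7 * res f.A l1) (7 * res f.A l2) (7 * res f.A l3))
      (fun f => ge (ixh l1 f) (ixh l2 f) (ixh l3 f)))
    {v : WL} (hc : Cen (endF v (f0 t P)) m)
    (hR : RelE (chi c.q c.p c.T) (snoc v m) t P = 0) {g : ℕ → ℕ → ℕ → Bool}
    (hg : co3h gx ge v (trcH l1 v (f0 t P)) (trcH l2 v (f0 t P)) (trcH l3 v (f0 t P)) g = true) :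
    ∃ K c' d : ℕ, (K : ZMod c.p) + c' * t + d * m = 0 ∧ g K c' d = true := by
  obtain ⟨S, cm, hS, hk⟩ := R3h_eq h v (f0_disc t P) 0 0
  unfold co3h at hg
  rw [hk] at hg
  refine ⟨S, 2 * (ge (ixh l1 (f0 t P)) (ixh l2 (f0 t P)) (ixh l3 (f0 t P)) / 128), 2 * cm, ?_, ?_⟩
  · have h1 := h.h0 t P (f0_disc t P)
    have e := hS (2 * (m : ZMod c.p))
    have e2 := relH_two hc hR
    rw [WSH_f0 _ _ _ _ _ _ hc] at e e2
    push_cast at e h1 ⊢
    rw [h1]
    linear_combination e + e2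
  · cases v with
    | nil =>
      have e : (TL.hd (trcH l1 .nil (f0 t P)) (fun _ i _ => TL.hd (trcH l2 .nil (f0 t P))
        (fun _ i' _ => TL.hd (trcH l3 .nil (f0 t P)) (fun _ i2 _ =>
        force (Nat.mul 2 (Nat.div (ge i i' i2) 128)) (fun c =>
          force (Nat.mul 2 cm) (fun d => g S c d)))))) =
        force (Nat.mul 2 (Nat.div (ge (ixh l1 (f0 t P)) (ixh l2 (f0 t P)) (ixh l3 (f0 t P))) 128))
          (fun c => force (Nat.mul 2 cm) (fun d => g S c d)) := rfl
      rw [e, force_eq, force_eq] at hg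
      exact hg
    | cons a v =>
      have e : (TL.hd (trcH l1 (.cons a v) (f0 t P)) (fun _ i _ =>
        TL.hd (trcH l2 (.cons a v) (f0 t P))
        (fun _ i' _ => TL.hd (trcH l3 (.cons a v) (f0 t P)) (fun _ i2 _ =>
        force (Nat.mul 2 (Nat.div (ge i i' i2) 128)) (fun c =>
          force (Nat.mul 2 cm) (fun d => g S c d)))))) =
        force (Nat.mul 2 (Nat.div (ge (ixh l1 (f0 t P)) (ixh l2 (f0 t P)) (ixh l3 (f0 t P))) 128))
          (fun c => force (Nat.mul 2 cm) (fun d => g S c d)) := rfl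
      rw [e, force_eq, force_eq] at hg
      exact hg

end sums

theorem ln3_sound {p K c' d tt mt : ℕ} {t : ℤ} {m : ℕ} (h : (K : ZMod p) + c' * t + d * m = 0)
    (ht : (tt : ZMod p) = t) (hm : (mt : ZMod p) = m) : ln3 p K c' d tt mt = true := by
  unfold ln3
  apply beq_mod
  change ((K + c' * tt + d * mt : ℕ) : ZMod p) = 0
  push_cast
  rw [ht, hm]
  exact h

end Pool.Agent.L0h49.E
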