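import Pool.Agent.L0h49.E.B2

/-! The residue search for palindromic periods with middle norm two, and its soundness. -/

set_option maxRecDepth 100000

namespace Pool.Agent.L0h49.E

open H419R2 Finset
open Pool.Agent.N911

/-- inverses modulo 61 -/
def I61 : ℕ := 163099053388495365241829826310094285467850603851408032599268587857057311158053582135941454397214297616067592004561611271482884224
/-- squares modulo 61 -/
def Q61 : ℕ := 1662926210933060155

noncomputable def x481 (c : CD) (a b : ℕ) : ℕ := chD c 222 260 a b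
noncomputable def e481 (c : CD) (a b : ℕ) : ℕ := evD c 13 222 37 260 a b

/-- last stage, modulo 73 -/
noncomputable def w73h (c : CD) (U x y : ℕ) (v : WL) (T7 T19 : TL) : Bool :=
  co2h (x133_73 c) (e133_73 c) v T7 T19 (fun K c0 d0 =>
    enH 73 I73 Q73 U x y v (fun t m _ => imp (ln3 73 K c0 d0 t m) false))

/-- last stage, modulo 61 -/
noncomputable def w61h (c : CD) (U x y : ℕ) (v : WL) (T13 T37 : TL) : Bool :=
  co2h (x481 c) (e481 c) v T13 T37 (fun K c0 d0 =>
    enH 61 I61 Q61 U x y v (fun t m _ => imp (ln3 61 K c0 d0 t m) false))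

/-- last stages: modulo 13, 73 and 61 -/
noncomputable def w13h (c c' : CD) (U x y : ℕ) (v : WL) (t37 m37 : ℕ) (T37 T7 T19 T3 T5 : TL) :
    Bool :=
  co2h x95 e95 v T19 T5 (fun K c0 d0 => co3h x105 e105 v T7 T3 T5 (fun K1 c1 d1 =>
  co2h x185 e185 v T37 T5 (fun K2 c2 d2 => co2h x133_13 e133_13 v T7 T19 (fun K3 c3 d3 =>
  enH 13 I13 Q13 U x y v (fun t m T13 => imp (ln3 13 K c0 d0 t m) (imp (ln3 13 K1 c1 d1 t m)
    (imp (ln3 13 K2 c2 d2 t m) (imp (ln3 13 K3 c3 d3 t m)
    (imp (ck2h 37 x91 e91 v T7 T13 t37 m37)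
      (@Bool.rec (fun _ => Bool) (w61h c' U x y v T13 T37) true (w73h c U x y v T7 T19)))))))))))

/-- stages modulo 3 and 5 -/
noncomputable def w3h (c cc : CD) (U x y : ℕ) (v : WL) (t37 m37 : ℕ) (T37 T7 : TL)
    (t19 m19 : ℕ) (T19 : TL) : Bool :=
  enH 3 I3 Q3 U x y v (fun _ _ T3 =>
    imp (ck2h 19 x111_0 e111_0 v T37 T3 t19 m19) (imp (ck2h 19 x111_1 e111_1 v T37 T3 t19 m19)
      (enH 5 I5 Q5 U x y v (fun _ _ T5 =>
        w13h c cc U x y v t37 m37 T37 T7 T19 T3 T5))))

/-- lists of residues, centres and traces -/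
inductive TS where
  | nil : TS
  | cons (t m : ℕ) (T : TL) (l : TS) : TS

/-- membership -/
def TS.Mem (t m : ℕ) (T : TL) : TS → Prop
  | .nil => False
  | .cons t' m' T' l => (t' = t ∧ m' = m ∧ T' = T) ∨ TS.Mem t m T l

/-- all entries -/
noncomputable def TS.all (S : TS) (f : ℕ → ℕ → TL → Bool) : Bool :=
  @TS.rec (fun _ => Bool) true (fun t m T _ ih => cj (f t m T) ih) S

/-- one candidate, collected -/
noncomputable def tgS (l I Q : ℕ) (v : WL) (t P : ℕ) (S : TS) (k : TS → Bool) : Bool :=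
  @Bool.rec (fun _ => Bool) (mkH l I v 1 t P (fun m r => k (TS.cons t m r S))) (k S)
    (tb Q (Nat.mod (Nat.add (Nat.mul t t) (Nat.mul 4 P)) l))

/-- candidates with one `t`, collected -/
noncomputable def clS (l I Q U x y : ℕ) (v : WL) (t : ℕ) (ih : TS → Bool) (S : TS) : Bool :=
  force (Nat.mod (Nat.add (Nat.mul t x) y) l) (fun w =>
     @Nat.rec (fun _ => Bool)
       (@Bool.rec (fun _ => Bool) (ih S)
          (@Nat.rec (fun _ => TS → Bool) ih (fun P ih' S => tgS l I Q v t P S ih') l S)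
            (Nat.beq w 0))
       (fun _ _ => force (Nat.mod (Nat.mul w (look I U)) l) (fun P => tgS l I Q v t P S ih)) U)

/-- all local solutions, collected -/
noncomputable def clH (l I Q U x y : ℕ) (v : WL) (g : TS → Bool) : Bool :=
  force (Nat.mod U l) (fun U => force (Nat.mod x l) (fun x => force (Nat.mod y l) (fun y =>
  @Nat.rec (fun _ => TS → Bool) g (fun t ih S => clS l I Q U x y v t ih S) l TS.nil)))

/-- stage modulo 7 and 19 -/
noncomputable def w7h (c cc : CD) (U x y : ℕ) (v : WL) (S7 S19 : TS) (t37 m37 : ℕ) (T37 : TL) :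
    Bool :=
  mapT (sl 7 X259_2) (sl 49 E259_2) T37 (fun A =>
  S7.all (fun _ _ T7 => imp (ck0h 19 v A T7)
    (co2h x259_0 e259_0 v T37 T7 (fun K c0 d0 => co2h x259_1 e259_1 v T37 T7 (fun K1 c1 d1 =>
      S19.all (fun t19 m19 T19 => imp (ln3 19 K c0 d0 t19 m19)
        (imp (ln3 19 K1 c1 d1 t19 m19)
        (imp (ck2h 37 x133_37 e133_37 v T7 T19 t37 m37)
          (w3h c cc U x y v t37 m37 T37 T7 t19 m19 T19)))))))))

/-- all residues for one word are impossible -/
noncomputable def wOKh (c cc : CD) (U x y : ℕ) (v : WL) : Bool :=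
  clH 7 I7 Q7 U x y v (fun S7 => clH 19 I19 Q19 U x y v (fun S19 =>
    enH 37 I37 Q37 U x y v (fun t37 m37 T37 => w7h c cc U x y v S7 S19 t37 m37 T37)))

theorem TS.all_mem {S : TS} {f : ℕ → ℕ → TL → Bool} (h : S.all f = true) {t m : ℕ} {T : TL}
    (hm : TS.Mem t m T S) : f t m T = true := by
  induction S with
  | nil => exact hm.elim
  | cons t' m' T' l ih =>
    have h' : cj (f t' m' T') (l.all f) = true := h
    have h1 : f t' m' T' = true ∧ l.all f = true := by
      cases hb : f t' m' T' with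
      | true =>
        rw [hb] at h'
        exact ⟨rfl, h'⟩
      | false =>
        rw [hb] at h'
        exact absurd h' (by simp [cj])
    rcases hm with ⟨rfl, rfl, rfl⟩ | hm
    · exact h1.1
    · exact ih h1.2 hm

theorem mkH_some (l I : ℕ) (v : WL) (c B C : ℕ) :
    ∃ m r, ∀ g, mkH l I v c B C g = g m r := by
  induction v generalizing c B C with
  | nil =>
    refine ⟨Nat.mod (Nat.mul B (look I C)) l,
      TL.cons (Nat.mul 7 c) (Nat.mul 7 (Nat.add (Nat.mul B l) C))
      (TL.cons (Nat.mul 7 (Nat.mod (Nat.mul c C) l)) (Nat.mul 7 (Nat.add (Nat.mul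
        (Nat.mod (Nat.mul B (look I C)) l) l) (Nat.mod (look I C) l))) TL.nil), fun g => ?_⟩
    have e : mkH l I .nil c B C g =
      force (Nat.mul 7 c) (fun q => force (Nat.mul 7 (Nat.add (Nat.mul B l) C))
      (fun k => force (look I C) (fun i => force (Nat.mod (Nat.mul B i) l) (fun m =>
      force (Nat.mul 7 (Nat.mod (Nat.mul c C) l)) (fun q' =>
      force (Nat.mul 7 (Nat.add (Nat.mul m l) (Nat.mod i l))) (fun k' =>
        g m (TL.cons q k (TL.cons q' k' TL.nil)))))))) := rfl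
    rw [e]
    simp only [force_eq]
  | cons a v ih =>
    obtain ⟨m, r, h⟩ := ih (Nat.mod (Nat.mul c C) l) (Nat.mod (Nat.mul (Nat.add (Nat.mul
      (Nat.mul 2 a) C) (Nat.sub l B)) (look I C)) l) (Nat.mod (Nat.mul (Nat.add (Nat.add 1
      (Nat.mul a B)) (Nat.mul (Nat.mul a a) (Nat.sub l C))) (look I C)) l)
    refine ⟨m, TL.cons (Nat.mul 7 c) (Nat.mul 7 (Nat.add (Nat.mul B l) C)) r, fun g => ?_⟩
    have e : mkH l I (.cons a v) c B C g =
      force (Nat.mul 7 c) (fun q => force (Nat.mul 7 (Nat.add (Nat.mul B l) C)) (fun k =>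
      force (look I C) (fun i =>
      force (Nat.mod (Nat.mul c C) l) (fun c' =>
      force (Nat.mod (Nat.mul (Nat.add (Nat.mul (Nat.mul 2 a) C) (Nat.sub l B)) i) l) (fun B' =>
      force (Nat.mod (Nat.mul (Nat.add (Nat.add 1 (Nat.mul a B)) (Nat.mul (Nat.mul a a)
        (Nat.sub l C))) i) l) (fun C' => mkH l I v c' B' C'
          (fun m r => g m (TL.cons q k r)))))))) := rfl
    rw [e]
    simp only [force_eq]
    rw [h]

/-- `S'` extends `S` -/
def TS.Ext (S S' : TS) : Prop := ∀ t m T, TS.Mem t m T S → TS.Mem t m T S'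

theorem tgS_ext {l I Q : ℕ} {v : WL} {t P : ℕ} {S : TS} {k : TS → Bool}
    (h : tgS l I Q v t P S k = true) : ∃ S', TS.Ext S S' ∧ k S' = true ∧
      (tb Q (Nat.mod (Nat.add (Nat.mul t t) (Nat.mul 4 P)) l) = false →
        ∀ m T, (∀ g, mkH l I v 1 t P g = g m T) → TS.Mem t m T S') := by
  unfold tgS at h
  cases hb : tb Q (Nat.mod (Nat.add (Nat.mul t t) (Nat.mul 4 P)) l) with
  | true =>
    rw [hb] at h
    exact ⟨S, fun _ _ _ h => h, h, fun h => absurd h (by simp)⟩
  | false =>
    rw [hb] at h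
    obtain ⟨m, r, hm⟩ := mkH_some l I v 1 t P
    have h' : mkH l I v 1 t P (fun m r => k (TS.cons t m r S)) = true := h
    rw [hm] at h'
    refine ⟨TS.cons t m r S, fun _ _ _ h => Or.inr h, h', fun _ m' T' hm' => ?_⟩
    left
    refine ⟨rfl, ?_, ?_⟩
    · by_contra hne
      have a1 := hm (fun x _ => Nat.beq x m)
      have a2 := hm' (fun x _ => Nat.beq x m)
      rw [a1] at a2
      have a3 : Nat.beq m m = true := Nat.beq_refl m
      rw [a3] at a2
      exact hne (Nat.eq_of_beq_eq_true a2.symm).symm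
    · classical
      by_contra hne
      have a1 := hm (fun _ x => decide (x = r))
      have a2 := hm' (fun _ x => decide (x = r))
      rw [a1] at a2
      simp at a2
      exact hne a2.symm

theorem clS_ext {l I Q U x y : ℕ} {v : WL} {t : ℕ} {k : TS → Bool} {S : TS}
    (h : clS l I Q U x y v t k S = true) : ∃ S', TS.Ext S S' ∧ k S' = true ∧
      ∀ P, P < l → (if U = 0 then Nat.mod (Nat.add (Nat.mul t x) y) l = 0 else
        Nat.mod (Nat.mul (Nat.mod (Nat.add (Nat.mul t x) y) l) (look I U)) l = P) →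
      (tb Q (Nat.mod (Nat.add (Nat.mul t t) (Nat.mul 4 P)) l) = false →
        ∀ m T, (∀ g, mkH l I v 1 t P g = g m T) → TS.Mem t m T S') := by
  unfold clS at h
  rw [force_eq] at h
  cases U with
  | zero =>
    have h' : @Bool.rec (fun _ => Bool) (k S)
          (@Nat.rec (fun _ => TS → Bool) k (fun P ih' S => tgS l I Q v t P S ih') l S)
            (Nat.beq (Nat.mod (Nat.add (Nat.mul t x) y) l) 0) = true := h
    cases hb : Nat.beq (Nat.mod (Nat.add (Nat.mul t x) y) l) 0 with
    | false =>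
      rw [hb] at h'
      refine ⟨S, fun _ _ _ h => h, h', fun P hP hc => ?_⟩
      rw [if_pos rfl] at hc
      rw [hc] at hb
      exact absurd hb (by decide)
    | true =>
      rw [hb] at h'
      have key : ∀ (n : ℕ) (S : TS),
          @Nat.rec (fun _ => TS → Bool) k (fun P ih' S => tgS l I Q v t P S ih') n S = true →
          ∃ S', TS.Ext S S' ∧ k S' = true ∧ ∀ P, P < n →
          (tb Q (Nat.mod (Nat.add (Nat.mul t t) (Nat.mul 4 P)) l) = false →
          ∀ m T, (∀ g, mkH l I v 1 t P g = g m T) → TS.Mem t m T S') := by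
        intro n
        induction n with
        | zero => intro S h; exact ⟨S, fun _ _ _ h => h, h, fun P hP => absurd hP (by omega)⟩
        | succ n ih =>
          intro S h
          obtain ⟨S1, e1, k1, m1⟩ := tgS_ext h
          obtain ⟨S2, e2, k2, m2⟩ := ih S1 k1
          refine ⟨S2, fun a b c h => e2 a b c (e1 a b c h), k2, fun P hP => ?_⟩
          rcases Nat.lt_succ_iff_lt_or_eq.mp hP with hP | rfl
          · exact m2 P hP
          · intro h3 m T h4
            exact e2 _ _ _ (m1 h3 m T h4)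
      obtain ⟨S', e, k', m'⟩ := key l S h'
      exact ⟨S', e, k', fun P hP _ => m' P hP⟩
  | succ n =>
    have h' : force (Nat.mod (Nat.mul (Nat.mod (Nat.add (Nat.mul t x) y) l) (look I (n + 1))) l)
      (fun P => tgS l I Q v t P S k) = true := h
    rw [force_eq] at h'
    obtain ⟨S1, e1, k1, m1⟩ := tgS_ext h'
    refine ⟨S1, e1, k1, fun P hP hc => ?_⟩
    rw [if_neg (by omega)] at hc
    rw [← hc]
    exact m1

theorem clH_sound {t P : ℤ} (H : BaseH (t ^ 2 + 4 * P)) {U x y : ℕ}
    {l I Q : ℕ} (hlp : l ∈ LPh) (hlin : (P : ZMod l) * (U : ZMod l) = t * x + y) (hp : l.Prime)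
    (hI : chkI l I = true) (hQ : chkIq l Q = true) (v : WL) {m : ℤ}
    (hm : Cen (endF v (f0 t P)) m) {g : TS → Bool}
    (h : clH l I Q U x y v g = true) :
    ∃ S, TS.Mem (res t l) (res m l) (trcH l v (f0 t P)) S ∧ g S = true := by
  have l1 := hp.one_lt
  have hl0 : 0 < l := by omega
  have hl := LPh_dvd hlp
  have hns := H.nsq l hlp
  have hF := Fact.mk hp
  unfold clH at h
  rw [force_eq, force_eq, force_eq] at h
  have hb : tb Q (Nat.mod (Nat.add (Nat.mul (res t l) (res t l)) (Nat.mul 4 (res P l))) l) =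
      false := by
    by_contra hc
    have hc' := Bool.eq_true_of_not_eq_false hc
    have h2 := tb_square hl0 hQ hc'
    apply hns
    have h3 : ((Nat.add (Nat.mul (res t l) (res t l)) (Nat.mul 4 (res P l)) : ℕ) : ZMod l) =
        ((t ^ 2 + 4 * P : ℤ) : ZMod l) := by
      change ((res t l * res t l + 4 * res P l : ℕ) : ZMod l) = _
      push_cast
      rw [res_cast' t hl0, res_cast' P hl0]
      ring
    rw [h3] at h2
    exact h2
  have hmk : ∀ g, mkH l I v 1 (res t l) (res P l) g = g (res m l) (trcH l v (f0 t P)) :=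
    fun g => mkH_f0 H l1 hI hl v hm g
  have hw : ((Nat.mod (Nat.add (Nat.mul (res t l) (Nat.mod x l)) (Nat.mod y l)) l : ℕ) : ZMod l) =
      P * (U : ZMod l) := by
    change (((res t l * (x % l) + y % l) % l : ℕ) : ZMod l) = _
    rw [ZMod.natCast_mod]
    push_cast
    rw [ZMod.natCast_mod, ZMod.natCast_mod, res_cast' t hl0]
    exact hlin.symm
  have hwl : Nat.mod (Nat.add (Nat.mul (res t l) (Nat.mod x l)) (Nat.mod y l)) l < l :=
    Nat.mod_lt _ hl0
  have hUm : ((Nat.mod U l : ℕ) : ZMod l) = U := by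
    change ((U % l : ℕ) : ZMod l) = _
    rw [ZMod.natCast_mod]
  have hUl : Nat.mod U l < l := Nat.mod_lt _ hl0
  have hif : (if Nat.mod U l = 0 then
      Nat.mod (Nat.add (Nat.mul (res t l) (Nat.mod x l)) (Nat.mod y l)) l = 0 else
      Nat.mod (Nat.mul (Nat.mod (Nat.add (Nat.mul (res t l) (Nat.mod x l)) (Nat.mod y l)) l)
        (look I (Nat.mod U l))) l = res P l) := by
    split_ifs with h0
    · rw [← hUm, h0, Nat.cast_zero, mul_zero, ZMod.natCast_eq_zero_iff] at hw
      exact Nat.eq_zero_of_dvd_of_lt hw hwl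
    · have hu : IsUnit ((Nat.mod U l : ℕ) : ZMod l) := by
        rw [isUnit_iff_ne_zero]
        intro h0'
        rw [ZMod.natCast_eq_zero_iff] at h0'
        have := Nat.le_of_dvd (by omega) h0'
        omega
      have h5 := chkI_sound l1 hI hUl hu
      apply mod_res hl0
      change ((Nat.mod (Nat.add (Nat.mul (res t l) (Nat.mod x l)) (Nat.mod y l)) l *
        look I (Nat.mod U l) : ℕ) : ZMod l) = _
      rw [Nat.cast_mul, hw, ← hUm, mul_assoc, h5, mul_one]
  have key : ∀ (n : ℕ) (S : TS),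
      @Nat.rec (fun _ => TS → Bool) g (fun t ih S => clS l I Q (Nat.mod U l) (Nat.mod x l)
        (Nat.mod y l) v t ih S) n S = true →
      ∃ S', TS.Ext S S' ∧ g S' = true ∧
        (res t l < n → TS.Mem (res t l) (res m l) (trcH l v (f0 t P)) S') := by
    intro n
    induction n with
    | zero => intro S h; exact ⟨S, fun _ _ _ h => h, h, fun hP => absurd hP (by omega)⟩
    | succ n ih =>
      intro S h
      obtain ⟨S1, e1, k1, m1⟩ := clS_ext h
      obtain ⟨S2, e2, k2, m2⟩ := ih S1 k1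
      refine ⟨S2, fun a b c h => e2 a b c (e1 a b c h), k2, fun hP => ?_⟩
      rcases Nat.lt_succ_iff_lt_or_eq.mp hP with hP | hP
      · exact m2 hP
      · apply e2
        rw [← hP] at m1
        exact m1 (res P l) (res_lt P hl0) hif hb _ _ hmk
  obtain ⟨S', -, g', m'⟩ := key l TS.nil h
  exact ⟨S', m' (res_lt t hl0), g'⟩

/-- what is used about a word and its parameters -/
structure SysH (v : WL) (t P : ℤ) (m U x y : ℕ) : Prop where
  base : BaseH (t ^ 2 + 4 * P)
  lin : ∀ l : ℕ, l ∈ LPh → (P : ZMod l) * (U : ZMod l) = t * x + y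
  cen : Cen (endF v (f0 t P)) m
  rel : ∀ c : CD, c.OK → c.q ∣ M2n → c.p ∣ M2n → ∀ _ : NeZero c.q,
    RelE (chi c.q c.p c.T) (snoc v m) t P = 0

theorem iq61 : chkIq 61 Q61 = true := by decide +kernel
theorem ci61 : chkI 61 I61 = true := by decide +kernel

theorem k3 : (3 : ℕ) ∈ LPh := by simp [LPh]
theorem k5 : (5 : ℕ) ∈ LPh := by simp [LPh]
theorem k7 : (7 : ℕ) ∈ LPh := by simp [LPh]
theorem k13 : (13 : ℕ) ∈ LPh := by simp [LPh]
theorem k19 : (19 : ℕ) ∈ LPh := by simp [LPh]
theorem k37 : (37 : ℕ) ∈ LPh := by simp [LPh]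
theorem k61 : (61 : ℕ) ∈ LPh := by simp [LPh]
theorem k73 : (73 : ℕ) ∈ LPh := by simp [LPh]

section he

variable {D : ℤ} (H : BaseH D)

include H

theorem heh_259_2 [NeZero c259_19_2.q] : HE c259_19_2 D
    (fun f => sl1 (sl 7 X259_2 (7 * res f.A 37)) (7 * res f.A 7))
    (fun f => sl1 (sl 49 E259_2 (ixh 37 f)) (ixh 7 f)) :=
  HEh_of c259_19_2_ok (by decide +kernel) H (fun f _ => chv_259_2 f.A)
    (fun f hf => tab_259_2 (H.vv hf k37) (H.vv hf k7))

theorem heh_259_0 [NeZero c259_19_0.q] : HE c259_19_0 D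
    (fun f => x259_0 (7 * res f.A 37) (7 * res f.A 7))
    (fun f => e259_0 (ixh 37 f) (ixh 7 f)) :=
  HEh_of c259_19_0_ok (by decide +kernel) H (fun f _ => chv_259_0 f.A)
    (fun f hf => tab_259_0 (H.vv hf k37) (H.vv hf k7))

theorem heh_259_1 [NeZero c259_19_1.q] : HE c259_19_1 D
    (fun f => x259_1 (7 * res f.A 37) (7 * res f.A 7))
    (fun f => e259_1 (ixh 37 f) (ixh 7 f)) :=
  HEh_of c259_19_1_ok (by decide +kernel) H (fun f _ => chv_259_1 f.A)
    (fun f hf => tab_259_1 (H.vv hf k37) (H.vv hf k7))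

theorem heh_133_37 [NeZero c133_37.q] : HE c133_37 D
    (fun f => x133_37 (7 * res f.A 7) (7 * res f.A 19))
    (fun f => e133_37 (ixh 7 f) (ixh 19 f)) :=
  HEh_of c133_37_ok (by decide +kernel) H (fun f _ => chv_133_37 f.A)
    (fun f hf => tab_133_37 (H.vv hf k7) (H.vv hf k19))

theorem heh_111_0 [NeZero c111_19_0.q] : HE c111_19_0 D
    (fun f => x111_0 (7 * res f.A 37) (7 * res f.A 3))
    (fun f => e111_0 (ixh 37 f) (ixh 3 f)) :=
  HEh_of c111_19_0_ok (by decide +kernel) H (fun f _ => chv_111_0 f.A)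
    (fun f hf => tab_111_0 (H.vv hf k37) (H.vv hf k3))

theorem heh_111_1 [NeZero c111_19_1.q] : HE c111_19_1 D
    (fun f => x111_1 (7 * res f.A 37) (7 * res f.A 3))
    (fun f => e111_1 (ixh 37 f) (ixh 3 f)) :=
  HEh_of c111_19_1_ok (by decide +kernel) H (fun f _ => chv_111_1 f.A)
    (fun f hf => tab_111_1 (H.vv hf k37) (H.vv hf k3))

theorem heh_95 [NeZero c95_13.q] : HE c95_13 D
    (fun f => x95 (7 * res f.A 19) (7 * res f.A 5))
    (fun f => e95 (ixh 19 f) (ixh 5 f)) :=
  HEh_of c95_13_ok (by decide +kernel) H (fun f _ => chv_95 f.A)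
    (fun f hf => tab_95 (H.vv hf k19) (H.vv hf k5))

theorem heh_105 [NeZero c105_13.q] : HE c105_13 D
    (fun f => x105 (7 * res f.A 7) (7 * res f.A 3) (7 * res f.A 5))
    (fun f => e105 (ixh 7 f) (ixh 3 f) (ixh 5 f)) :=
  HEh_of c105_13_ok (by decide +kernel) H (fun f _ => chv_105 f.A)
    (fun f hf => tab_105 (H.vv hf k7) (H.vv hf k3) (H.vv hf k5))

theorem heh_185 [NeZero c185_13.q] : HE c185_13 D
    (fun f => x185 (7 * res f.A 37) (7 * res f.A 5))
    (fun f => e185 (ixh 37 f) (ixh 5 f)) :=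
  HEh_of c185_13_ok (by decide +kernel) H (fun f _ => chv_185 f.A)
    (fun f hf => tab_185 (H.vv hf k37) (H.vv hf k5))

theorem heh_133_13 [NeZero c133_13.q] : HE c133_13 D
    (fun f => x133_13 (7 * res f.A 7) (7 * res f.A 19))
    (fun f => e133_13 (ixh 7 f) (ixh 19 f)) :=
  HEh_of c133_13_ok (by decide +kernel) H (fun f _ => chv_133_13 f.A)
    (fun f hf => tab_133_13 (H.vv hf k7) (H.vv hf k19))

theorem heh_91 [NeZero c91_37.q] : HE c91_37 D
    (fun f => x91 (7 * res f.A 7) (7 * res f.A 13))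
    (fun f => e91 (ixh 7 f) (ixh 13 f)) :=
  HEh_of c91_37_ok (by decide +kernel) H (fun f _ => chv_91 f.A)
    (fun f hf => tab_91 (H.vv hf k7) (H.vv hf k13))

theorem heh_133_73 [NeZero c133_73.q] : HE c133_73 D
    (fun f => x133_73 c133_73 (7 * res f.A 7) (7 * res f.A 19))
    (fun f => e133_73 c133_73 (ixh 7 f) (ixh 19 f)) :=
  HEh_of c133_73_ok (by decide +kernel) H
    (fun f _ => chD_sound (l1 := 7) (e1 := 57) (l2 := 19) (e2 := 77) (by norm_num) (by norm_num)
      (by decide +kernel) f.A)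
    (fun f _ => evD_sound c133_73_ok (l1 := 7) (e1 := 57) (l2 := 19) (e2 := 77) (by norm_num)
      (by norm_num) (by decide +kernel) (nBh f) (nCh f))

theorem heh_481 [NeZero c481_61.q] : HE c481_61 D
    (fun f => x481 c481_61 (7 * res f.A 13) (7 * res f.A 37))
    (fun f => e481 c481_61 (ixh 13 f) (ixh 37 f)) :=
  HEh_of c481_61_ok (by decide +kernel) H
    (fun f _ => chD_sound (l1 := 13) (e1 := 222) (l2 := 37) (e2 := 260) (by norm_num) (by norm_num)
      (by decide +kernel) f.A)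
    (fun f _ => evD_sound c481_61_ok (l1 := 13) (e1 := 222) (l2 := 37) (e2 := 260) (by norm_num)
      (by norm_num) (by decide +kernel) (nBh f) (nCh f))

end he

section stages

variable {v : WL} {t P : ℤ} {m U x y : ℕ} (S : SysH v t P m U x y)

include S

theorem SysH.linl {l : ℕ} (h : l ∈ LPh) : (P : ZMod l) * (U : ZMod l) = t * x + y := S.lin l h

theorem w73h_sound (h : w73h c133_73 U x y v (trcH 7 v (f0 t P)) (trcH 19 v (f0 t P)) = true) :
    False := by
  have i1 : NeZero c133_73.q := ⟨by decide +kernel⟩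
  unfold w73h at h
  obtain ⟨K, c', d, e, h⟩ := co2h_sound (heh_133_73 S.base) S.cen
    (S.rel c133_73 c133_73_ok (by decide +kernel) (by decide +kernel) i1) h
  have h1 := enH_sound S.base k73 (S.lin 73 k73) (by norm_num) ci73 iq73 v S.cen h
  have h2 := imp_true h1 (ln3_sound e (res_cast' t (by norm_num))
    (by have := res_cast' (m : ℤ) (show 0 < 73 by norm_num); exact_mod_cast this))
  exact absurd h2 (by simp)

theorem w61h_sound (h : w61h c481_61 U x y v (trcH 13 v (f0 t P)) (trcH 37 v (f0 t P)) = true) :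
    False := by
  have i1 : NeZero c481_61.q := ⟨by decide +kernel⟩
  unfold w61h at h
  obtain ⟨K, c', d, e, h⟩ := co2h_sound (heh_481 S.base) S.cen
    (S.rel c481_61 c481_61_ok (by decide +kernel) (by decide +kernel) i1) h
  have h1 := enH_sound S.base k61 (S.lin 61 k61) (by norm_num) ci61 iq61 v S.cen h
  have h2 := imp_true h1 (ln3_sound e (res_cast' t (by norm_num))
    (by have := res_cast' (m : ℤ) (show 0 < 61 by norm_num); exact_mod_cast this))
  exact absurd h2 (by simp)

theorem w13h_sound (h : w13h c133_73 c481_61 U x y v (res t 37) (res (m : ℤ) 37)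
    (trcH 37 v (f0 t P))
    (trcH 7 v (f0 t P)) (trcH 19 v (f0 t P)) (trcH 3 v (f0 t P)) (trcH 5 v (f0 t P)) = true) :
    False := by
  have i1 : NeZero c95_13.q := ⟨by decide +kernel⟩
  have i2 : NeZero c105_13.q := ⟨by decide +kernel⟩
  have i3 : NeZero c185_13.q := ⟨by decide +kernel⟩
  have i4 : NeZero c133_13.q := ⟨by decide +kernel⟩
  have i5 : NeZero c91_37.q := ⟨by decide +kernel⟩
  unfold w13h at h
  obtain ⟨K, c', d, e, h⟩ := co2h_sound (heh_95 S.base) S.cen
    (S.rel c95_13 c95_13_ok (by decide +kernel) (by decide +kernel) i1) h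
  obtain ⟨K1, c1, d1, e1, h⟩ := co3h_sound (heh_105 S.base) S.cen
    (S.rel c105_13 c105_13_ok (by decide +kernel) (by decide +kernel) i2) h
  obtain ⟨K2, c2, d2, e2, h⟩ := co2h_sound (heh_185 S.base) S.cen
    (S.rel c185_13 c185_13_ok (by decide +kernel) (by decide +kernel) i3) h
  obtain ⟨K3, c3, d3, e3, h⟩ := co2h_sound (heh_133_13 S.base) S.cen
    (S.rel c133_13 c133_13_ok (by decide +kernel) (by decide +kernel) i4) h
  have h1 := enH_sound S.base k13 (S.lin 13 k13) (by norm_num) ci13 iq13 v S.cen h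
  have ht := res_cast' t (show 0 < 13 by norm_num)
  have hm : ((res (m : ℤ) 13 : ℕ) : ZMod 13) = (m : ZMod 13) := by
    have := res_cast' (m : ℤ) (show 0 < 13 by norm_num)
    exact_mod_cast this
  have hm37 : ((res (m : ℤ) 37 : ℕ) : ZMod 37) = (m : ZMod 37) := by
    have := res_cast' (m : ℤ) (show 0 < 37 by norm_num)
    exact_mod_cast this
  have h2 := imp_true (imp_true (imp_true (imp_true h1 (ln3_sound e ht hm)) (ln3_sound e1 ht hm))
    (ln3_sound e2 ht hm)) (ln3_sound e3 ht hm)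
  have h3 := imp_true h2 (ck2h_sound (heh_91 S.base) S.cen
    (S.rel c91_37 c91_37_ok (by decide +kernel) (by decide +kernel) i5) rfl
    (res_cast' t (show 0 < 37 by norm_num)) hm37)
  cases hb : w73h c133_73 U x y v (trcH 7 v (f0 t P)) (trcH 19 v (f0 t P)) with
  | true => exact w73h_sound S hb
  | false =>
    rw [hb] at h3
    exact w61h_sound S h3

theorem w3h_sound
    (h : w3h c133_73 c481_61 U x y v (res t 37) (res (m : ℤ) 37) (trcH 37 v (f0 t P))
      (trcH 7 v (f0 t P)) (res t 19) (res (m : ℤ) 19) (trcH 19 v (f0 t P)) = true) : False := by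
  have i1 : NeZero c111_19_0.q := ⟨by decide +kernel⟩
  have i2 : NeZero c111_19_1.q := ⟨by decide +kernel⟩
  unfold w3h at h
  have h1 := enH_sound S.base k3 (S.lin 3 k3) (by norm_num) ci3 iq3 v S.cen h
  have ht := res_cast' t (show 0 < 19 by norm_num)
  have hm : ((res (m : ℤ) 19 : ℕ) : ZMod 19) = (m : ZMod 19) := by
    have := res_cast' (m : ℤ) (show 0 < 19 by norm_num)
    exact_mod_cast this
  have h2 := imp_true h1 (ck2h_sound (heh_111_0 S.base) S.cen
    (S.rel c111_19_0 c111_19_0_ok (by decide +kernel) (by decide +kernel) i1) rfl ht hm)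
  have h3 := imp_true h2 (ck2h_sound (heh_111_1 S.base) S.cen
    (S.rel c111_19_1 c111_19_1_ok (by decide +kernel) (by decide +kernel) i2) rfl ht hm)
  have h8 := enH_sound S.base k5 (S.lin 5 k5) (by norm_num) ci5 iq5 v S.cen h3
  exact w13h_sound S h8

theorem w7h_sound {S7 S19 : TS}
    (m7 : TS.Mem (res t 7) (res (m : ℤ) 7) (trcH 7 v (f0 t P)) S7)
    (m19 : TS.Mem (res t 19) (res (m : ℤ) 19) (trcH 19 v (f0 t P)) S19)
    (h : w7h c133_73 c481_61 U x y v S7 S19 (res t 37) (res (m : ℤ) 37)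
      (trcH 37 v (f0 t P)) = true) :
    False := by
  have i1 : NeZero c259_19_0.q := ⟨by decide +kernel⟩
  have i2 : NeZero c259_19_1.q := ⟨by decide +kernel⟩
  have i3 : NeZero c259_19_2.q := ⟨by decide +kernel⟩
  have i4 : NeZero c133_37.q := ⟨by decide +kernel⟩
  unfold w7h at h
  rw [mapT_eq] at h
  have h1 := TS.all_mem h m7
  have h2 := imp_true h1 (ck0h_sound (heh_259_2 S.base) S.cen
    (S.rel c259_19_2 c259_19_2_ok (by decide +kernel) (by decide +kernel) i3) rfl (by decide))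
  obtain ⟨K, c', d, e, h3⟩ := co2h_sound (heh_259_0 S.base) S.cen
    (S.rel c259_19_0 c259_19_0_ok (by decide +kernel) (by decide +kernel) i1) h2
  obtain ⟨K1, c1, d1, e1, h4⟩ := co2h_sound (heh_259_1 S.base) S.cen
    (S.rel c259_19_1 c259_19_1_ok (by decide +kernel) (by decide +kernel) i2) h3
  have h5 := TS.all_mem h4 m19
  have ht := res_cast' t (show 0 < 19 by norm_num)
  have hm : ((res (m : ℤ) 19 : ℕ) : ZMod 19) = (m : ZMod 19) := by
    have := res_cast' (m : ℤ) (show 0 < 19 by norm_num)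
    exact_mod_cast this
  have hm37 : ((res (m : ℤ) 37 : ℕ) : ZMod 37) = (m : ZMod 37) := by
    have := res_cast' (m : ℤ) (show 0 < 37 by norm_num)
    exact_mod_cast this
  have h6 := imp_true (imp_true h5 (ln3_sound e ht hm)) (ln3_sound e1 ht hm)
  have h7 := imp_true h6 (ck2h_sound (heh_133_37 S.base) S.cen
    (S.rel c133_37 c133_37_ok (by decide +kernel) (by decide +kernel) i4) rfl
    (res_cast' t (show 0 < 37 by norm_num)) hm37)
  exact w3h_sound S h7

/-- the residue search is sound -/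
theorem wOKh_sound (h : wOKh c133_73 c481_61 U x y v = true) : False := by
  unfold wOKh at h
  obtain ⟨S7, m7, h⟩ := clH_sound S.base k7 (S.lin 7 k7) (by norm_num) ci7 iq7 v S.cen h
  obtain ⟨S19, m19, h⟩ := clH_sound S.base k19 (S.lin 19 k19) (by norm_num) ci19 iq19 v S.cen h
  exact w7h_sound S m7 m19 (enH_sound S.base k37 (S.lin 37 k37) (by norm_num) ci37 iq37 v S.cen h)

end stages

end Pool.Agent.L0h49.E
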