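import Pool.Agent.L0h49.E.B3
import Pool.Agent.N911.V8

/-! Small parameters of words with middle norm two. -/

set_option maxRecDepth 100000

namespace Pool.Agent.L0h49.E

open H419R2 Finset
open Pool.Agent.N911

/-- numerator and denominator of the continued fraction of a word -/
def cw : WL → ℕ × ℕ
  | .nil => (1, 0)
  | .cons a l => (a * (cw l).1 + (cw l).2, (cw l).1)

theorem endC (v : WL) (f : Fm) : (endF v f).C = (-1) ^ v.len *
    (f.C * ((cw v).1 : ℤ) ^ 2 - f.B * (cw v).2 * (cw v).1 - f.A * ((cw v).2 : ℤ) ^ 2) := by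
  induction v generalizing f with
  | nil =>
    have e : endF .nil f = f := rfl
    have e1 : cw .nil = (1, 0) := rfl
    have e2 : (WL.nil).len = 0 := rfl
    rw [e, e1, e2]
    push_cast
    ring
  | cons a l ih =>
    have e : endF (.cons a l) f = endF l (f.step a) := rfl
    have e1 : cw (.cons a l) = (a * (cw l).1 + (cw l).2, (cw l).1) := rfl
    have e2 : (WL.cons a l).len = l.len + 1 := rfl
    rw [e, ih, e1, e2]
    unfold Fm.step
    push_cast
    ring

theorem endB (v : WL) (f : Fm) : (endF v f).B % 2 = f.B % 2 := by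
  induction v generalizing f with
  | nil => rfl
  | cons a l ih =>
    have e : endF (.cons a l) f = endF l (f.step a) := rfl
    rw [e, ih]
    have e2 : (f.step a).B = 2 * (a * f.C) - f.B := by
      unfold Fm.step
      ring
    rw [e2]
    omega

/-- all norms of the half period satisfy `tst`, the last middle coefficient satisfies `fin` -/
noncomputable def qH (tst fin : ℕ → Bool) (v : WL) : ℕ → ℕ → ℕ → Bool :=
  @WL.rec (fun _ => ℕ → ℕ → ℕ → Bool) (fun _ B _ => fin B)
    (fun a _ ih A B C => cj (tst C) (force (Nat.mul (Nat.mul 2 a) C) (fun p =>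
      cj (Nat.ble B p) (force (Nat.mul (Nat.mul a a) C) (fun q =>
      force (Nat.add A (Nat.mul a B)) (fun r =>
        cj (Nat.ble q r) (force (Nat.sub p B) (fun B' => force (Nat.sub r q)
          (fun C' => ih C B' C'))))))))) v

theorem qH_sound {tst fin : ℕ → Bool} {v : WL} {A B C : ℕ} (h : qH tst fin v A B C = true) :
    (∀ n, 1 ≤ n → n ≤ v.len → ∃ q : ℕ, tst q = true ∧ (fs v ⟨A, B, C⟩ n).A = q) ∧
    ∃ b : ℕ, fin b = true ∧ (endF v ⟨A, B, C⟩).B = b := by
  induction v generalizing A B C with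
  | nil =>
    refine ⟨?_, B, h, rfl⟩
    intro n h1 h2
    exfalso
    have : n ≤ 0 := h2
    omega
  | cons a l ih =>
    have e : qH tst fin (.cons a l) A B C = cj (tst C) (force (Nat.mul (Nat.mul 2 a) C) (fun p =>
      cj (Nat.ble B p) (force (Nat.mul (Nat.mul a a) C) (fun q =>
      force (Nat.add A (Nat.mul a B)) (fun r =>
        cj (Nat.ble q r) (force (Nat.sub p B) (fun B' => force (Nat.sub r q)
          (fun C' => qH tst fin l C B' C')))))))) := rfl
    rw [e] at h
    simp only [force_eq, cj_true] at h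
    obtain ⟨h1, h2, h3, h4⟩ := h
    have h2' : B ≤ 2 * a * C := Nat.le_of_ble_eq_true h2
    have h3' : a * a * C ≤ A + a * B := Nat.le_of_ble_eq_true h3
    have key := ih h4
    have es : (Fm.step a ⟨A, B, C⟩) = ⟨((C : ℕ) : ℤ), ((2 * a * C - B : ℕ) : ℤ),
        ((A + a * B - a * a * C : ℕ) : ℤ)⟩ := by
      unfold Fm.step
      simp only [Fm.mk.injEq, true_and]
      constructor
      · rw [Nat.cast_sub h2']; push_cast; ring
      · rw [Nat.cast_sub h3']; push_cast; ring
    refine ⟨?_, ?_⟩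
    · intro n hn1 hn2
      cases n with
      | zero => omega
      | succ n =>
        rw [fs_cons, es]
        rcases Nat.eq_zero_or_pos n with h0 | h0
        · subst h0
          exact ⟨C, h1, rfl⟩
        · exact key.1 n h0 (Nat.le_of_succ_le_succ hn2)
    · have e2 : endF (.cons a l) ⟨A, B, C⟩ = endF l (Fm.step a ⟨A, B, C⟩) := rfl
      rw [e2, es]
      exact key.2

/-- large parameters -/
def BigH (v : WL) (t P : ℕ) : Prop :=
  21316 ≤ t * t + 4 * P ∧ (∀ n, 1 ≤ n → n ≤ v.len → (74 : ℤ) ≤ (fs v (f0 t P) n).A) ∧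
    (1 : ℤ) ≤ (endF v (f0 t P)).B

/-- large parameters, test -/
noncomputable def bgH (v : WL) (t P : ℕ) : Bool :=
  cj (Nat.ble 21316 (Nat.add (Nat.mul t t) (Nat.mul 4 P)))
    (qH (fun C => Nat.ble 74 C) (fun B => Nat.ble 1 B) v 1 t P)

theorem bigH_of {v : WL} {t P : ℕ} (h : bgH v t P = true) : BigH v t P := by
  unfold bgH at h
  rw [cj_true] at h
  obtain ⟨h1, h2⟩ := h
  obtain ⟨h3, b, hb, hB⟩ := qH_sound h2
  refine ⟨Nat.le_of_ble_eq_true h1, ?_, ?_⟩
  · intro n hn1 hn2
    obtain ⟨q, hq, hA⟩ := h3 n hn1 hn2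
    rw [f0_nat, hA]
    exact_mod_cast Nat.le_of_ble_eq_true hq
  · rw [f0_nat, hB]
    exact_mod_cast Nat.le_of_ble_eq_true hb

theorem bigH_mono {v : WL} {U x t P : ℕ}
    (hd : qH (fun _ => true) (fun _ => true) v 0 U x = true)
    (h : BigH v t P) (k : ℕ) : BigH v (t + k * U) (P + k * x) := by
  obtain ⟨hd1, b, -, hd2⟩ := qH_sound hd
  have e2 : (⟨(f0 t P).A + k * ((0 : ℕ) : ℤ), (f0 t P).B + k * (U : ℤ),
      (f0 t P).C + k * (x : ℤ)⟩ : Fm) = f0 ((t + k * U : ℕ) : ℤ) ((P + k * x : ℕ) : ℤ) := by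
    unfold f0
    simp
  refine ⟨?_, ?_, ?_⟩
  · have h1 := h.1
    have h2 : t * t ≤ (t + k * U) * (t + k * U) := Nat.mul_le_mul (by omega) (by omega)
    have h3 : 4 * P ≤ 4 * (P + k * x) := by omega
    omega
  · intro n hn1 hn2
    have h1 := h.2.1 n hn1 hn2
    obtain ⟨q, _, hA⟩ := hd1 n hn1 hn2
    have e := fs_add v (f0 t P) ⟨((0 : ℕ) : ℤ), (U : ℤ), (x : ℤ)⟩ k n
    rw [e2] at e
    rw [e, hA]
    change (74 : ℤ) ≤ (fs v (f0 t P) n).A + k * (q : ℤ)
    have : (0 : ℤ) ≤ k * (q : ℤ) := by positivity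
    linarith
  · have h1 := h.2.2
    have e := fs_add v (f0 t P) ⟨((0 : ℕ) : ℤ), (U : ℤ), (x : ℤ)⟩ k v.len
    rw [e2] at e
    rw [endF_eq] at hd2 h1 ⊢
    rw [e, hd2]
    change (1 : ℤ) ≤ (fs v (f0 t P) v.len).B + k * (b : ℤ)
    have : (0 : ℤ) ≤ k * (b : ℤ) := by positivity
    linarith

/-- the final list -/
def LH : List ℕ := [2, 3, 6, 7, 11, 14, 19, 22, 23, 31, 38, 43, 46, 47, 59, 62, 67, 71, 83, 86,
  94, 103, 107, 118, 127, 131, 134, 139, 151, 158, 163, 166, 167, 179, 191, 199, 206, 227, 239,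
  251, 262, 263, 278, 283, 302, 307, 311, 347, 367, 383, 398, 419, 422, 431, 446, 467, 479, 502,
  503, 542, 563, 566, 587, 622, 647, 662, 683, 734, 743, 758, 787, 827, 838, 863, 878, 887, 947,
  983, 998, 1142, 1151, 1163, 1187, 1238, 1262, 1286, 1307, 1319, 1382, 1427, 1487, 1502, 1718,
  1931, 2063, 2078, 2243, 2351, 3167, 3947]

/-- small odd primes -/
def PH : List ℕ := [3, 5, 7, 11, 13, 17, 19, 23, 29, 31, 37, 41, 43, 47]

/-- membership in the final list -/
def inH (d : ℕ) : Bool := anyL LH (fun x => Nat.beq x d)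

theorem inH_sound {d : ℕ} (h : inH d = true) : d ∈ LH := by
  unfold inH at h
  rw [anyL_iff] at h
  obtain ⟨x, hx, h1⟩ := h
  rw [← Nat.eq_of_beq_eq_true h1]; exact hx

/-- witness at one prime -/
noncomputable def witH1 (v : WL) (t P d l : ℕ) : Bool :=
  cj (Nat.ble (Nat.mul l l) d)
    (cj (qH (fun C => cj (Nat.ble 2 C) (not (Nat.beq C l))) (fun B => Nat.ble 1 B) v 1 t P)
    (anyU l (fun w => Nat.beq (Nat.mod (Nat.add (Nat.mul w w) (Nat.mul t w)) l) (Nat.mod P l))))

/-- witness -/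
noncomputable def witH (v : WL) (t P d : ℕ) : Bool := anyL PH (fun l => witH1 v t P d l)

/-- a smaller solution, or a solution of norm `-1` -/
def lessH (U n d : ℕ) : Bool :=
  anyU 12 (fun i => force (Nat.add i 1) (fun U' => cj (Nat.ble (Nat.add U' 1) U)
    (anyU (Nat.add U' 2) (fun j => force (Nat.add (Nat.mul U' n) j) (fun T' =>
      or (Nat.beq (Nat.mul T' T') (Nat.add (Nat.mul d (Nat.mul U' U')) 2))
      (or (Nat.beq (Nat.add (Nat.mul T' T') 2) (Nat.mul d (Nat.mul U' U')))
        (Nat.beq (Nat.add (Nat.mul T' T') 1) (Nat.mul d (Nat.mul U' U')))))))))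

/-- check of one parameter -/
noncomputable def ckH (U : ℕ) (v : WL) (t P : ℕ) : Bool :=
  or (Nat.beq t 0) (force (Nat.div t 2) (fun n => force (Nat.add (Nat.mul n n) P) (fun d =>
    or (Nat.beq (Nat.mod d 4) 0) (or (Nat.beq (Nat.mod d 4) 1) (or (inH d)
      (or (witH v t P d) (lessH U n d)))))))

/-- check of all parameters from a given one on -/
noncomputable def smN (ck : ℕ → ℕ → Bool) (U x : ℕ) (v : WL) (fuel : ℕ) : ℕ → ℕ → Bool :=
  @Nat.rec (fun _ => ℕ → ℕ → Bool) (fun _ _ => false)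
    (fun _ ih t P => @Bool.rec (fun _ => Bool)
      (cj (ck t P) (force (Nat.add t U) (fun t' => force (Nat.add P x) (fun P' => ih t' P'))))
      true (bgH v t P)) fuel

theorem smN_sound {ck : ℕ → ℕ → Bool} {U x : ℕ} {v : WL} {fuel : ℕ} : ∀ {t P : ℕ},
    smN ck U x v fuel t P = true →
    ∀ j : ℕ, ck (t + j * U) (P + j * x) = true ∨
      ∃ i ≤ j, BigH v (t + i * U) (P + i * x) := by
  induction fuel with
  | zero =>
    intro t P h
    exact absurd h (by simp [smN])
  | succ n ih =>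
    intro t P h j
    have e : smN ck U x v (n + 1) t P = @Bool.rec (fun _ => Bool)
      (cj (ck t P) (force (Nat.add t U) (fun t' => force (Nat.add P x) (fun P' =>
        smN ck U x v n t' P'))))
      true (bgH v t P) := rfl
    rw [e] at h
    cases hb : bgH v t P with
    | true =>
      right
      refine ⟨0, Nat.zero_le _, ?_⟩
      rw [zero_mul, zero_mul, add_zero, add_zero]
      exact bigH_of hb
    | false =>
      rw [hb] at h
      change cj (ck t P) (force (Nat.add t U) (fun t' => force (Nat.add P x) (fun P' =>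
        smN ck U x v n t' P'))) = true at h
      rw [cj_true, force_eq, force_eq] at h
      obtain ⟨h1, h2⟩ := h
      cases j with
      | zero =>
        left
        rw [zero_mul, zero_mul, add_zero, add_zero]
        exact h1
      | succ j =>
        have e1 : ∀ i, t + (i + 1) * U = (t + U) + i * U := fun i => by ring
        have e2 : ∀ i, P + (i + 1) * x = (P + x) + i * x := fun i => by ring
        rcases ih h2 j with h3 | ⟨i, hi, h3⟩
        · left
          rw [e1, e2]
          exact h3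
        · right
          refine ⟨i + 1, by omega, ?_⟩
          rw [e1, e2]
          exact h3

theorem smN_all {ck : ℕ → ℕ → Bool} {U x : ℕ} {v : WL} {fuel : ℕ} {t P : ℕ}
    (hd : qH (fun _ => true) (fun _ => true) v 0 U x = true)
    (h : smN ck U x v fuel t P = true) (j : ℕ) : ck (t + j * U) (P + j * x) = true ∨
      BigH v (t + j * U) (P + j * x) := by
  rcases smN_sound h j with h4 | ⟨i, hi, h4⟩
  · exact Or.inl h4
  · right
    have h5 := bigH_mono hd h4 (j - i)
    have e1 : t + i * U + (j - i) * U = t + j * U := by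
      rw [add_assoc, ← add_mul, Nat.add_sub_cancel' hi]
    have e2 : P + i * x + (j - i) * x = P + j * x := by
      rw [add_assoc, ← add_mul, Nat.add_sub_cancel' hi]
    rw [e1, e2] at h5
    exact h5

/-- check of a word; `z` is `± x y` modulo `U` -/
noncomputable def smAH (z U x y : ℕ) (v : WL) : Bool :=
  force (Nat.mod z U) (fun z =>
  force (Nat.div (Nat.add z (Nat.mul (Nat.mod (Nat.mul (Nat.mul 3 z) U) 4) U)) 2) (fun t =>
    force (Nat.div (Nat.add (Nat.mul t x) y) U) (fun P =>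
    force (Nat.mul 2 U) (fun U2 => force (Nat.mul 2 x) (fun x2 =>
    cj (Nat.beq (Nat.mul P U) (Nat.add (Nat.mul t x) y))
      (cj (Nat.beq (Nat.mod t 2) 0) (cj (Nat.ble (Nat.succ t) U2)
      (cj (qH (fun _ => true) (fun _ => true) v 0 U2 x2)
        (smN (ckH U v) U2 x2 v 150 t P)))))))))

/-- soundness of the check of a word -/
theorem smAH_sound {z U x y : ℕ} {v : WL} (h : smAH z U x y v = true) (hU : U % 2 = 1)
    (hdet : U * y = x ^ 2 + 2 ∨ U * y + 2 = x ^ 2) {t P : ℕ} (ht : t % 2 = 0)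
    (hlin : P * U = t * x + y) :
    ckH U v t P = true ∨ BigH v t P := by
  unfold smAH at h
  rw [force_eq, force_eq, force_eq, force_eq, force_eq, cj_true, cj_true, cj_true, cj_true] at h
  set t0 := Nat.div (Nat.add (Nat.mod z U) (Nat.mul (Nat.mod (Nat.mul (Nat.mul 3 (Nat.mod z U)) U)
    4) U)) 2 with ht0
  set P0 := Nat.div (Nat.add (Nat.mul t0 x) y) U with hP0
  obtain ⟨h1, h2, h3, h4, h5⟩ := h
  have h1' : P0 * U = t0 * x + y := Nat.eq_of_beq_eq_true h1
  have h2' : t0 % 2 = 0 := Nat.eq_of_beq_eq_true h2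
  have hlt : t0 < 2 * U := Nat.le_of_ble_eq_true h3
  have hdvd : ∃ j' : ℤ, (t : ℤ) - t0 = 2 * U * j' := by
    have e1 : (P : ℤ) * U = t * x + y := by exact_mod_cast hlin
    have e2 : (P0 : ℤ) * U = t0 * x + y := by exact_mod_cast h1'
    obtain ⟨e, he⟩ : ∃ e : ℤ, (t : ℤ) - t0 = 2 * e := ⟨((t : ℤ) - t0) / 2, by omega⟩
    have hdv : (U : ℤ) ∣ 4 * e := by
      rcases hdet with hdet | hdet
      · have e3 : (U : ℤ) * y = x ^ 2 + 2 := by exact_mod_cast hdet
        refine ⟨(2 * e * y - (x : ℤ) * (P - P0)), ?_⟩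
        rw [← he]
        linear_combination (x : ℤ) * e1 - (x : ℤ) * e2 - ((t : ℤ) - t0) * e3 - 2 * he
      · have e3 : (U : ℤ) * y + 2 = x ^ 2 := by exact_mod_cast hdet
        refine ⟨-(2 * e * y - (x : ℤ) * (P - P0)), ?_⟩
        rw [← he]
        linear_combination -(x : ℤ) * e1 + (x : ℤ) * e2 + ((t : ℤ) - t0) * e3 - 2 * he
    have hcop : IsCoprime (U : ℤ) 4 := by
      have h6 : Nat.Coprime U 2 := Nat.coprime_two_right.mpr (Nat.odd_iff.mpr hU)
      have h7 : Nat.Coprime U 4 := by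
        have := Nat.Coprime.pow_right 2 h6
        simpa using this
      exact_mod_cast (Nat.isCoprime_iff_coprime.mpr h7)
    obtain ⟨j, hj⟩ := hcop.dvd_of_dvd_mul_left hdv
    exact ⟨j, by rw [he, hj]; ring⟩
  obtain ⟨j', hj'⟩ := hdvd
  have hU0 : 0 < U := by omega
  have hj0 : 0 ≤ j' := by
    by_contra hc
    push Not at hc
    have hU' : (0 : ℤ) < U := by exact_mod_cast hU0
    have h6 : (2 * U : ℤ) * j' ≤ -(2 * U) := by nlinarith
    have h7 : (t0 : ℤ) < 2 * U := by exact_mod_cast hlt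
    have h8 : (0 : ℤ) ≤ t := by positivity
    linarith
  obtain ⟨j, rfl⟩ := Int.eq_ofNat_of_zero_le hj0
  have et : t = t0 + j * (2 * U) := by
    have : (t : ℤ) = ((t0 + j * (2 * U) : ℕ) : ℤ) := by push_cast; linarith
    exact_mod_cast this
  have eP : P = P0 + j * (2 * x) := by
    have h6 : (P : ℤ) * U = ((P0 + j * (2 * x) : ℕ) : ℤ) * U := by
      have e1 : (P : ℤ) * U = t * x + y := by exact_mod_cast hlin
      have e2 : (P0 : ℤ) * U = t0 * x + y := by exact_mod_cast h1'
      push_cast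
      linear_combination e1 - e2 + (x : ℤ) * hj'
    have h7 : (P : ℤ) = ((P0 + j * (2 * x) : ℕ) : ℤ) :=
      mul_right_cancel₀ (by have : (0 : ℤ) < U := by exact_mod_cast hU0
                            exact this.ne') h6
    exact_mod_cast h7
  rw [et, eP]
  exact smN_all h4 h5 j

end Pool.Agent.L0h49.E
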