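import Pool.Agent.L0h49.E.B4

/-! The traversal of all symmetric matrices of determinant `± 2`, and the word of each. -/

set_option maxRecDepth 100000

namespace Pool.Agent.L0h49.E

open H419R2 Finset
open Pool.Agent.N911

/-- continued fraction of `a / b` whose length has parity `s` -/
noncomputable def euc (fuel : ℕ) : ℕ → ℕ → ℕ → (WL → Bool) → Bool :=
  @Nat.rec (fun _ => ℕ → ℕ → ℕ → (WL → Bool) → Bool) (fun _ _ _ _ => false)
    (fun _ ih a b s k => force (Nat.div a b) (fun q => force (Nat.mod a b) (fun r =>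
      @Nat.rec (fun _ => Bool)
        (@Nat.rec (fun _ => Bool)
          (force (Nat.pred q) (fun q' => k (WL.cons q' (WL.cons 1 WL.nil))))
          (fun _ _ => k (WL.cons q WL.nil)) s)
        (fun _ _ => force (Nat.sub 1 s) (fun s' => ih b r s' (fun v => k (WL.cons q v)))) r))) fuel

theorem euc_some {fuel : ℕ} : ∀ {a b s : ℕ} {k : WL → Bool}, euc fuel a b s k = true →
    ∃ v, k v = true := by
  induction fuel with
  | zero => intro a b s k h; exact absurd h (by simp [euc])
  | succ n ih =>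
    intro a b s k h
    have e : euc (n + 1) a b s k = force (Nat.div a b) (fun q => force (Nat.mod a b) (fun r =>
      @Nat.rec (fun _ => Bool)
        (@Nat.rec (fun _ => Bool)
          (force (Nat.pred q) (fun q' => k (WL.cons q' (WL.cons 1 WL.nil))))
          (fun _ _ => k (WL.cons q WL.nil)) s)
        (fun _ _ => force (Nat.sub 1 s) (fun s' => euc n b r s' (fun v => k (WL.cons q v))))
          r)) := rfl
    rw [e, force_eq, force_eq] at h
    cases hr : Nat.mod a b with
    | zero =>
      rw [hr] at h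
      cases s with
      | zero =>
        change force (Nat.pred (Nat.div a b)) (fun q' => k (WL.cons q' (WL.cons 1 WL.nil))) = true
          at h
        rw [force_eq] at h
        exact ⟨_, h⟩
      | succ s => exact ⟨_, h⟩
    | succ r =>
      rw [hr] at h
      change force (Nat.sub 1 s) (fun s' => euc n b (r + 1) s'
        (fun v => k (WL.cons (Nat.div a b) v))) = true at h
      rw [force_eq] at h
      obtain ⟨v, hv⟩ := ih h
      exact ⟨_, hv⟩

/-- the letters are positive; continuants and parity of the length -/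
noncomputable def cV (v : WL) : (ℕ → ℕ → ℕ → Bool) → Bool :=
  @WL.rec (fun _ => (ℕ → ℕ → ℕ → Bool) → Bool) (fun k => k 1 0 0)
    (fun a _ ih k => cj (Nat.ble 1 a) (ih (fun y r s => force (Nat.add (Nat.mul a y) r)
      (fun y' => force (Nat.sub 1 s) (fun s' => k y' y s'))))) v

theorem cV_sound {v : WL} : ∀ {k : ℕ → ℕ → ℕ → Bool}, cV v k = true →
    v.Pos ∧ k (cw v).1 (cw v).2 (v.len % 2) = true := by
  induction v with
  | nil => intro k h; exact ⟨trivial, h⟩
  | cons a l ih =>
    intro k h
    have e : cV (.cons a l) k = cj (Nat.ble 1 a) (cV l (fun y r s =>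
      force (Nat.add (Nat.mul a y) r)
      (fun y' => force (Nat.sub 1 s) (fun s' => k y' y s')))) := rfl
    rw [e, cj_true] at h
    obtain ⟨h1, h2⟩ := h
    obtain ⟨h3, h4⟩ := ih h2
    rw [force_eq, force_eq] at h4
    refine ⟨⟨Nat.le_of_ble_eq_true h1, h3⟩, ?_⟩
    have e2 : (WL.cons a l).len % 2 = 1 - l.len % 2 := by
      have : (WL.cons a l).len = l.len + 1 := rfl
      omega
    rw [e2]
    exact h4

/-- the number from which the parameters are computed -/
def zH (s U x y : ℕ) : ℕ :=
  @Nat.rec (fun _ => ℕ) (Nat.mul x y) (fun _ _ => Nat.sub U (Nat.mod (Nat.mul x y) U)) s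

/-- check of one matrix -/
noncomputable def oneH (c cc : CD) (s U x y : ℕ) : Bool :=
  euc 60 U x s (fun v =>
    cj (cV v (fun a b p => cj (Nat.beq a U) (cj (Nat.beq b x) (Nat.beq p s))))
    (cj (smAH (zH s U x y) U x y v) (wOKh c cc U x y v)))

/-- what is known about one matrix -/
def WordOK (s U x y : ℕ) : Prop := ∃ v : WL, v.Pos ∧ cw v = (U, x) ∧ v.len % 2 = s ∧
  smAH (zH s U x y) U x y v = true ∧ wOKh c133_73 c481_61 U x y v = true

theorem oneH_sound {s U x y : ℕ} (h : oneH c133_73 c481_61 s U x y = true) : WordOK s U x y := by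
  unfold oneH at h
  obtain ⟨v, hv⟩ := euc_some h
  rw [cj_true, cj_true] at hv
  obtain ⟨h1, h2, h3⟩ := hv
  obtain ⟨h4, h5⟩ := cV_sound h1
  rw [cj_true, cj_true] at h5
  obtain ⟨h6, h7, h8⟩ := h5
  refine ⟨v, h4, ?_, Nat.eq_of_beq_eq_true h8, h2, h3⟩
  rw [← Nat.eq_of_beq_eq_true h6, ← Nat.eq_of_beq_eq_true h7]

/-- check of one matrix, if the first entry is odd -/
noncomputable def ckO (c cc : CD) (s U x y : ℕ) : Bool :=
  @Nat.rec (fun _ => Bool) true (fun _ _ => oneH c cc s U x y) (Nat.mod U 2)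

theorem ckO_sound {s U x y : ℕ} (h : ckO c133_73 c481_61 s U x y = true) (hU : U % 2 = 1) :
    WordOK s U x y := by
  unfold ckO at h
  have e : Nat.mod U 2 = 1 := hU
  rw [e] at h
  exact oneH_sound h

/-- children -/
def chl (a : ℕ) (u : ℕ × ℕ × ℕ) : ℕ × ℕ × ℕ :=
  (u.2.2 + (2 * a * u.2.1 + a * a * u.1), u.2.1 + a * u.1, u.1)

/-- traversal; `check` is applied if `lo ≤ U < hi` -/
noncomputable def walkT (F lo hi : ℕ) (check : ℕ → ℕ → ℕ → Bool) (fuel : ℕ) :
    ℕ → ℕ → ℕ → ℕ → Bool :=
  @Nat.rec (fun _ => ℕ → ℕ → ℕ → ℕ → Bool) (fun _ _ _ _ => false)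
    (fun _ ih U x y a =>
      force (Nat.add y (Nat.add (Nat.mul (Nat.mul 2 a) x) (Nat.mul (Nat.mul a a) U))) (fun U' =>
      @Bool.rec (fun _ => Bool) true
        (force (Nat.add x (Nat.mul a U)) (fun x' =>
          cj (@Bool.rec (fun _ => Bool) true (@Bool.rec (fun _ => Bool)
              (check U' x' U) true (Nat.ble hi U')) (Nat.ble lo U'))
            (cj (ih U' x' U 1) (force (Nat.succ a) (fun b => ih U x y b)))))
        (Nat.ble U' F))) fuel

/-- `w` is a descendant of `u` -/
inductive DT : ℕ × ℕ × ℕ → ℕ × ℕ × ℕ → Prop where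
  | refl (u : ℕ × ℕ × ℕ) : DT u u
  | step {w u : ℕ × ℕ × ℕ} (a : ℕ) (ha : 1 ≤ a) (h : DT w u) : DT (chl a w) u

theorem DT.split {w u : ℕ × ℕ × ℕ} (h : DT w u) : w = u ∨ ∃ c, 1 ≤ c ∧ DT w (chl c u) := by
  induction h with
  | refl u => exact Or.inl rfl
  | step a ha h ih =>
    right
    rcases ih with rfl | ⟨c, hc, h⟩
    · exact ⟨a, ha, DT.refl _⟩
    · exact ⟨c, hc, DT.step a ha h⟩

theorem chl_mono {a : ℕ} (ha : 1 ≤ a) (u : ℕ × ℕ × ℕ) : u.1 ≤ (chl a u).1 := by
  change u.1 ≤ u.2.2 + (2 * a * u.2.1 + a * a * u.1)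
  have : 1 * u.1 ≤ a * a * u.1 := Nat.mul_le_mul_right _ (Nat.mul_le_mul ha ha)
  omega

theorem DT.mono {w u : ℕ × ℕ × ℕ} (h : DT w u) : u.1 ≤ w.1 := by
  induction h with
  | refl u => exact le_rfl
  | step a ha h ih => exact ih.trans (chl_mono ha _)

theorem chl_mono_a {a b : ℕ} (h : a ≤ b) (u : ℕ × ℕ × ℕ) : (chl a u).1 ≤ (chl b u).1 := by
  change u.2.2 + (2 * a * u.2.1 + a * a * u.1) ≤
    u.2.2 + (2 * b * u.2.1 + b * b * u.1)
  have h1 : 2 * a * u.2.1 ≤ 2 * b * u.2.1 :=
    Nat.mul_le_mul_right _ (Nat.mul_le_mul_left _ h)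
  have h2 : a * a * u.1 ≤ b * b * u.1 := Nat.mul_le_mul_right _ (Nat.mul_le_mul h h)
  omega

theorem walkT_sound {F lo hi : ℕ} {check : ℕ → ℕ → ℕ → Bool} {fuel : ℕ} :
    ∀ (u : ℕ × ℕ × ℕ) (a : ℕ), walkT F lo hi check fuel u.1 u.2.1 u.2.2 a = true →
    ∀ b, a ≤ b → ∀ w, DT w (chl b u) → w.1 ≤ F → lo ≤ w.1 → w.1 < hi →
    check w.1 w.2.1 w.2.2 = true := by
  induction fuel with
  | zero =>
    intro v a h
    exact absurd h (by simp [walkT])
  | succ n ih =>
    intro v a h b hab w hw hF hlo hhi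
    have e : walkT F lo hi check (n + 1) v.1 v.2.1 v.2.2 a =
      force (Nat.add v.2.2 (Nat.add (Nat.mul (Nat.mul 2 a) v.2.1)
        (Nat.mul (Nat.mul a a) v.1))) (fun U' =>
      @Bool.rec (fun _ => Bool) true
        (force (Nat.add v.2.1 (Nat.mul a v.1)) (fun x' =>
          cj (@Bool.rec (fun _ => Bool) true (@Bool.rec (fun _ => Bool)
              (check U' x' v.1) true (Nat.ble hi U')) (Nat.ble lo U'))
            (cj (walkT F lo hi check n U' x' v.1 1)
              (force (Nat.succ a) (fun b => walkT F lo hi check n v.1 v.2.1 v.2.2 b)))))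
        (Nat.ble U' F)) := rfl
    rw [e, force_eq, force_eq, force_eq] at h
    have eU : Nat.add v.2.2 (Nat.add (Nat.mul (Nat.mul 2 a) v.2.1)
        (Nat.mul (Nat.mul a a) v.1)) = (chl a v).1 := rfl
    have ex : Nat.add v.2.1 (Nat.mul a v.1) = (chl a v).2.1 := rfl
    rw [eU, ex] at h
    have hU : (chl a v).1 ≤ F := (chl_mono_a hab v).trans (hw.mono.trans hF)
    rw [Nat.ble_eq_true_of_le hU] at h
    change cj (@Bool.rec (fun _ => Bool) true (@Bool.rec (fun _ => Bool)
              (check (chl a v).1 (chl a v).2.1 v.1) true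
              (Nat.ble hi (chl a v).1)) (Nat.ble lo (chl a v).1))
            (cj (walkT F lo hi check n (chl a v).1 (chl a v).2.1
              v.1 1)
              (walkT F lo hi check n v.1 v.2.1 v.2.2 (Nat.succ a))) = true at h
    rw [cj_true, cj_true] at h
    obtain ⟨h1, h2, h3⟩ := h
    rcases Nat.lt_or_ge a b with hlt | hge
    · exact ih v _ h3 b hlt w hw hF hlo hhi
    · have hab' : b = a := le_antisymm hge hab
      subst hab'
      rcases hw.split with rfl | ⟨c, hc, hw'⟩
      · rw [Nat.ble_eq_true_of_le hlo] at h1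
        have hh : Nat.ble hi (chl b v).1 = false := by
          rw [Bool.eq_false_iff]
          intro h'
          have := Nat.le_of_ble_eq_true h'
          omega
        rw [hh] at h1
        exact h1
      · exact ih (chl b v) 1 h2 c hc w hw' hF hlo hhi

/-- determinant `2`: every matrix comes from one of two roots -/
theorem desc_plus : ∀ (U x y : ℕ), U * y = x ^ 2 + 2 → 0 < x → x < U →
    ∃ r : ℕ × ℕ × ℕ, (r = (1, 0, 2) ∨ r = (2, 0, 1)) ∧ ∃ b, 1 ≤ b ∧ DT (U, x, y) (chl b r) := by
  intro U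
  induction U using Nat.strong_induction_on with
  | _ U ih =>
    intro x y h hx0 hx
    have hy0 : 0 < y := by
      rcases Nat.eq_zero_or_pos y with h1 | h1
      · rw [h1] at h; omega
      · exact h1
    have hyx : y ≤ x := by
      by_contra hc
      push Not at hc
      have : (x + 1) * (x + 1) ≤ U * y := Nat.mul_le_mul hx hc
      nlinarith
    have hyU : y < U := lt_of_le_of_lt hyx hx
    set a := x / y with ha
    have ha1 : 1 ≤ a := (Nat.one_le_div_iff hy0).mpr hyx
    set r := x % y with hr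
    have hry : r < y := Nat.mod_lt _ hy0
    have hxr : x = r + a * y := by
      rw [hr, ha]
      have := Nat.mod_add_div x y
      linarith [mul_comm y (x / y)]
    have hdiv : y ∣ r ^ 2 + 2 := by
      have h1 : (y : ℤ) ∣ (r : ℤ) ^ 2 + 2 := by
        refine ⟨U - 2 * a * r - a ^ 2 * y, ?_⟩
        have h2 : (U : ℤ) * y = (r + a * y) ^ 2 + 2 := by
          have := h
          rw [hxr] at this
          exact_mod_cast this
        linear_combination -h2
      exact_mod_cast h1
    obtain ⟨z, hz⟩ := hdiv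
    have hch : chl a (y, r, z) = (U, x, y) := by
      have hU : z + (2 * a * r + a * a * y) = U := by
        have h2 : U * y = (r + a * y) ^ 2 + 2 := by
          have := h
          rw [hxr] at this
          exact this
        have h3 : (z + (2 * a * r + a * a * y)) * y = U * y := by
          rw [h2]
          linear_combination -hz
        exact Nat.eq_of_mul_eq_mul_right hy0 h3
      unfold chl
      rw [Prod.mk.injEq, Prod.mk.injEq]
      exact ⟨hU, hxr.symm, rfl⟩
    rcases Nat.eq_zero_or_pos r with h0 | h0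
    · have hyz : y * z = 2 := by rw [← hz, h0]; rfl
      have hy2 : y ≤ 2 := Nat.le_of_dvd (by norm_num) ⟨z, hyz.symm⟩
      refine ⟨(y, r, z), ?_, a, ha1, by rw [hch]; exact DT.refl _⟩
      rw [h0]
      rcases (show y = 1 ∨ y = 2 by omega) with h1 | h1
      · left
        rw [h1] at hyz ⊢
        rw [Prod.mk.injEq, Prod.mk.injEq]
        exact ⟨rfl, rfl, by omega⟩
      · right
        rw [h1] at hyz ⊢
        rw [Prod.mk.injEq, Prod.mk.injEq]
        exact ⟨rfl, rfl, by omega⟩
    · obtain ⟨rt, hrt, b, hb, hd⟩ := ih y hyU r z hz.symm h0 hry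
      exact ⟨rt, hrt, b, hb, by rw [← hch]; exact DT.step a ha1 hd⟩

/-- determinant `-2`: the roots -/
def RootM (r : ℕ × ℕ × ℕ) : Prop :=
  ∃ a, (3 ≤ a ∧ r = (a * a - 2, a, 1)) ∨ (2 ≤ a ∧ r = (2 * (a * a) - 1, 2 * a, 2))

theorem desc_minus : ∀ (U x y : ℕ), U * y + 2 = x ^ 2 → x < U →
    ∃ r : ℕ × ℕ × ℕ, RootM r ∧ DT (U, x, y) r := by
  intro U
  induction U using Nat.strong_induction_on with
  | _ U ih =>
    intro x y h hx
    have hx2 : 2 ≤ x := by
      by_contra hc
      have h1 : x = 0 ∨ x = 1 := by omega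
      rcases h1 with h1 | h1 <;> rw [h1] at h <;> omega
    have hy0 : 0 < y := by
      rcases Nat.eq_zero_or_pos y with h1 | h1
      · exfalso
        rw [h1] at h
        have h2 : 2 * 2 ≤ x * x := Nat.mul_le_mul hx2 hx2
        have e : x ^ 2 = x * x := by ring
        omega
      · exact h1
    have hyx : y < x := by
      by_contra hc
      push Not at hc
      have : (x + 1) * x ≤ U * y := Nat.mul_le_mul hx hc
      nlinarith
    have hyU : y < U := lt_trans hyx hx
    set a := x / y with ha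
    have ha1 : 1 ≤ a := (Nat.one_le_div_iff hy0).mpr hyx.le
    set r := x % y with hr
    have hry : r < y := Nat.mod_lt _ hy0
    have hxr : x = r + a * y := by
      rw [hr, ha]
      have := Nat.mod_add_div x y
      linarith [mul_comm y (x / y)]
    have hdiv : (y : ℤ) ∣ (r : ℤ) ^ 2 - 2 := by
      refine ⟨U - 2 * a * r - a ^ 2 * y, ?_⟩
      have h2 : (U : ℤ) * y + 2 = (r + a * y) ^ 2 := by
        have := h
        rw [hxr] at this
        exact_mod_cast this
      linear_combination -h2
    rcases Nat.eq_zero_or_pos r with h0 | h0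
    · -- a root
      have h1 : y ∣ 2 := by
        rw [h0] at hdiv
        have h2 : (y : ℤ) ∣ 2 := by
          have : ((0 : ℕ) : ℤ) ^ 2 - 2 = -2 := by norm_num
          rw [this] at hdiv
          exact (Int.dvd_neg).mp hdiv
        exact_mod_cast h2
      have hy2 : y ≤ 2 := Nat.le_of_dvd (by norm_num) h1
      refine ⟨(U, x, y), ?_, DT.refl _⟩
      rcases (show y = 1 ∨ y = 2 by omega) with h1 | h1
      · subst h1
        refine ⟨x, Or.inl ⟨?_, ?_⟩⟩
        · by_contra hc
          have : x = 2 := by omega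
          rw [this] at h
          omega
        · rw [Prod.mk.injEq, Prod.mk.injEq]
          refine ⟨?_, rfl, rfl⟩
          have e : x ^ 2 = x * x := by ring
          omega
      · rw [h1] at h hxr ⊢
        refine ⟨a, Or.inr ⟨?_, ?_⟩⟩
        · by_contra hc
          have : a = 1 := by omega
          rw [this] at hxr
          have hx2' : x = 2 := by omega
          rw [hx2'] at h
          omega
        · have hxa : x = 2 * a := by omega
          rw [Prod.mk.injEq, Prod.mk.injEq]
          refine ⟨?_, hxa, rfl⟩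
          rw [hxa] at h
          have e : (2 * a) ^ 2 = 4 * (a * a) := by ring
          omega
    · -- descent
      have hr2 : 2 ≤ r := by
        by_contra hc
        have h1 : r = 1 := by omega
        rw [h1] at hdiv hry
        have h2 : (y : ℤ) ∣ 1 := by
          have : ((1 : ℕ) : ℤ) ^ 2 - 2 = -1 := by norm_num
          rw [this] at hdiv
          exact (Int.dvd_neg).mp hdiv
        have h3 : y ∣ 1 := by exact_mod_cast h2
        have := Nat.le_of_dvd one_pos h3
        omega
      obtain ⟨z', hz'⟩ := hdiv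
      have hz0 : 0 ≤ z' := by
        by_contra hc
        push Not at hc
        have h3 : (y : ℤ) * z' < 0 := mul_neg_of_pos_of_neg (by exact_mod_cast hy0) hc
        have h4 : (2 : ℤ) ≤ r := by exact_mod_cast hr2
        nlinarith
      obtain ⟨z, rfl⟩ := Int.eq_ofNat_of_zero_le hz0
      have hz : y * z + 2 = r ^ 2 := by
        have : ((y * z + 2 : ℕ) : ℤ) = ((r ^ 2 : ℕ) : ℤ) := by push_cast; linarith
        exact_mod_cast this
      have hch : chl a (y, r, z) = (U, x, y) := by
        have hU : z + (2 * a * r + a * a * y) = U := by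
          have h2 : U * y + 2 = (r + a * y) ^ 2 := by
            have := h
            rw [hxr] at this
            exact this
          have h3 : (z + (2 * a * r + a * a * y)) * y = U * y := by
            have h4 : (z + (2 * a * r + a * a * y)) * y + 2 = U * y + 2 := by
              rw [h2]
              linear_combination hz
            omega
          exact Nat.eq_of_mul_eq_mul_right hy0 h3
        unfold chl
        rw [Prod.mk.injEq, Prod.mk.injEq]
        exact ⟨hU, hxr.symm, rfl⟩
      obtain ⟨rt, hrt, hd⟩ := ih y hyU r z hz hry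
      exact ⟨rt, hrt, by rw [← hch]; exact DT.step a ha1 hd⟩

/-- determinant `2` -/
noncomputable def runP (c cc : CD) (lo hi : ℕ) : Bool :=
  cj (walkT (Nat.pred hi) lo hi (ckO c cc 0) 400 1 0 2 1)
    (walkT (Nat.pred hi) lo hi (ckO c cc 0) 400 2 0 1 1)

/-- a root and its descendants -/
noncomputable def rtM (c cc : CD) (lo hi U x y : ℕ) : Bool :=
  @Bool.rec (fun _ => Bool) true
    (cj (@Bool.rec (fun _ => Bool) true (ckO c cc 1 U x y) (Nat.ble lo U))
      (walkT (Nat.pred hi) lo hi (ckO c cc 1) 400 U x y 1)) (Nat.ble (Nat.succ U) hi)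

/-- determinant `-2` -/
noncomputable def runM (c cc : CD) (lo hi R : ℕ) : Bool :=
  allN R (fun i => force (Nat.add i 2) (fun a => force (Nat.mul a a) (fun q =>
    cj (imp (Nat.ble 3 a) (force (Nat.sub q 2) (fun U => rtM c cc lo hi U a 1)))
      (force (Nat.sub (Nat.mul 2 q) 1) (fun U => force (Nat.mul 2 a) (fun x =>
        rtM c cc lo hi U x 2))))))

theorem runP_all {lo hi : ℕ} (h : runP c133_73 c481_61 lo hi = true) {U x y : ℕ}
    (hU : U % 2 = 1) (hdet : U * y = x ^ 2 + 2) (hx0 : 0 < x) (hx : x < U)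
    (hlo : lo ≤ U) (hhi : U < hi) : WordOK 0 U x y := by
  unfold runP at h
  rw [cj_true] at h
  obtain ⟨h1, h2⟩ := h
  obtain ⟨r, hr, b, hb, hd⟩ := desc_plus U x y hdet hx0 hx
  have hF : U ≤ Nat.pred hi := by rw [Nat.pred_eq_sub_one]; omega
  apply ckO_sound _ hU
  rcases hr with rfl | rfl
  · exact walkT_sound (1, 0, 2) 1 h1 b hb (U, x, y) hd hF hlo hhi
  · exact walkT_sound (2, 0, 1) 1 h2 b hb (U, x, y) hd hF hlo hhi

theorem rtM_sound {lo hi U x y : ℕ} (h : rtM c133_73 c481_61 lo hi U x y = true)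
    {w : ℕ × ℕ × ℕ} (hw : DT w (U, x, y)) (hU : w.1 % 2 = 1) (hlo : lo ≤ w.1) (hhi : w.1 < hi) :
    WordOK 1 w.1 w.2.1 w.2.2 := by
  have hF : w.1 ≤ Nat.pred hi := by rw [Nat.pred_eq_sub_one]; omega
  have hm : U ≤ w.1 := hw.mono
  unfold rtM at h
  rw [Nat.ble_eq_true_of_le (show Nat.succ U ≤ hi by omega)] at h
  change cj (@Bool.rec (fun _ => Bool) true (ckO c133_73 c481_61 1 U x y) (Nat.ble lo U))
      (walkT (Nat.pred hi) lo hi (ckO c133_73 c481_61 1) 400 U x y 1) = true at h
  rw [cj_true] at h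
  obtain ⟨h1, h2⟩ := h
  apply ckO_sound _ hU
  rcases hw.split with rfl | ⟨c, hc, hw'⟩
  · rw [Nat.ble_eq_true_of_le hlo] at h1
    exact h1
  · exact walkT_sound (U, x, y) 1 h2 c hc w hw' hF hlo hhi

theorem runM_all {lo hi R : ℕ} (h : runM c133_73 c481_61 lo hi R = true)
    (hR : hi + 2 ≤ (R + 2) * (R + 2)) {U x y : ℕ}
    (hU : U % 2 = 1) (hdet : U * y + 2 = x ^ 2) (hx : x < U)
    (hlo : lo ≤ U) (hhi : U < hi) : WordOK 1 U x y := by
  unfold runM at h
  rw [allN_iff] at h
  obtain ⟨r, ⟨a, hr⟩, hd⟩ := desc_minus U x y hdet hx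
  have hm := hd.mono
  rcases hr with ⟨ha, rfl⟩ | ⟨ha, rfl⟩
  · have haR : a < R + 2 := by
      by_contra hc
      push Not at hc
      have h1 : (R + 2) * (R + 2) ≤ a * a := Nat.mul_le_mul hc hc
      have h2 : a * a - 2 ≤ U := hm
      omega
    have h1 := h (a - 2) (by omega)
    rw [force_eq, force_eq, cj_true] at h1
    have e : Nat.add (a - 2) 2 = a := by
      change a - 2 + 2 = a
      omega
    rw [e] at h1
    have h2 := imp_true h1.1 (Nat.ble_eq_true_of_le ha)
    rw [force_eq] at h2
    exact rtM_sound h2 hd hU hlo hhi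
  · have haR : a < R + 2 := by
      by_contra hc
      push Not at hc
      have h1 : (R + 2) * (R + 2) ≤ a * a := Nat.mul_le_mul hc hc
      have h2 : 2 * (a * a) - 1 ≤ U := hm
      have h3 : 2 * 2 ≤ a * a := Nat.mul_le_mul ha ha
      omega
    have h1 := h (a - 2) (by omega)
    rw [force_eq, force_eq, cj_true] at h1
    have e : Nat.add (a - 2) 2 = a := by
      change a - 2 + 2 = a
      omega
    rw [e] at h1
    have h2 := h1.2
    rw [force_eq, force_eq] at h2
    exact rtM_sound h2 hd hU hlo hhi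

/-- the two words for `U = 1` -/
theorem spec_plus : cj (smAH 0 1 0 2 .nil) (wOKh c133_73 c481_61 1 0 2 .nil) = true := by
  decide +kernel

theorem spec_minus : cj (qH (fun _ => true) (fun _ => true) (.cons 1 .nil) 0 2 2)
    (cj (smN (ckH 1 (.cons 1 .nil)) 2 2 (.cons 1 .nil) 150 2 1)
      (wOKh c133_73 c481_61 1 1 (M2n - 1) (.cons 1 .nil))) = true := by
  decide +kernel

theorem wordOK_plus : WordOK 0 1 0 2 := by
  have h := spec_plus
  rw [cj_true] at h
  exact ⟨.nil, trivial, rfl, rfl, h.1, h.2⟩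

end Pool.Agent.L0h49.E
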