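import Pool.Agent.L0h49.E.B5
import Pool.Agent.N911.V9

/-! From class number one to the residue search: one word. -/

set_option maxRecDepth 100000

namespace Pool.Agent.L0h49.E

open H419R2 Finset
open Pool.Agent.N911

theorem PH_prime {l : ℕ} (h : l ∈ PH) : l.Prime ∧ l ≠ 2 := by
  unfold PH at h
  simp only [List.mem_cons, List.not_mem_nil, or_false] at h
  rcases h with rfl | rfl | rfl | rfl | rfl | rfl | rfl | rfl | rfl | rfl | rfl | rfl | rfl |
    rfl <;> exact ⟨by norm_num, by norm_num⟩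

theorem LPh_prime {l : ℕ} (h : l ∈ LPh) : l.Prime ∧ l ≤ 73 ∧ l ≠ 2 := by
  unfold LPh at h
  simp only [List.mem_cons, List.not_mem_nil, or_false] at h
  rcases h with rfl | rfl | rfl | rfl | rfl | rfl | rfl | rfl <;>
    exact ⟨by norm_num, by norm_num, by norm_num⟩

section word

variable {v : WL} {t P d U x : ℕ} {c : ℤ}

/-- the value at the centre -/
theorem cen_C (hcw : cw v = (U, x)) (hlin : (P : ℤ) * U = t * x + c)
    (hdet : (U : ℤ) * c - x ^ 2 = 2 * (-1) ^ v.len) : (endF v (f0 t P)).C = 2 := by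
  rw [endC, hcw]
  have e1 : (f0 (t : ℤ) (P : ℤ)).A = 1 := rfl
  have e2 : (f0 (t : ℤ) (P : ℤ)).B = t := rfl
  have e3 : (f0 (t : ℤ) (P : ℤ)).C = P := rfl
  rw [e1, e2, e3]
  change (-1) ^ v.len * ((P : ℤ) * (U : ℤ) ^ 2 - t * x * U - 1 * (x : ℤ) ^ 2) = 2
  have h1 : (P : ℤ) * (U : ℤ) ^ 2 - t * x * U - 1 * (x : ℤ) ^ 2 = 2 * (-1) ^ v.len := by
    rw [← hdet]
    linear_combination (U : ℤ) * hlin
  rw [h1]
  have h2 : ((-1 : ℤ) ^ v.len) * (-1) ^ v.len = 1 := by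
    rw [← mul_pow]; simp
  linear_combination 2 * h2

theorem cen_ex (hcw : cw v = (U, x)) (hlin : (P : ℤ) * U = t * x + c)
    (hdet : (U : ℤ) * c - x ^ 2 = 2 * (-1) ^ v.len) (ht2 : t % 2 = 0)
    (hB : (1 : ℤ) ≤ (endF v (f0 t P)).B) : ∃ m : ℕ, 0 < m ∧ Cen (endF v (f0 t P)) m := by
  have h1 := endB v (f0 (t : ℤ) (P : ℤ))
  have e2 : (f0 (t : ℤ) (P : ℤ)).B = t := rfl
  rw [e2] at h1
  obtain ⟨m', hm'⟩ : ∃ m' : ℤ, (endF v (f0 t P)).B = 2 * m' :=
    ⟨(endF v (f0 t P)).B / 2, by omega⟩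
  obtain ⟨m, rfl⟩ := Int.eq_ofNat_of_zero_le (show 0 ≤ m' by omega)
  exact ⟨m, by omega, cen_C hcw hlin hdet, hm'⟩

variable {m : ℕ}

theorem snoc_last_fs (hc : Cen (endF v (f0 (t : ℤ) (P : ℤ))) m) :
    fs (snoc v m) (f0 t P) (v.len + 1) = flip (endF v (f0 t P)) := by
  rw [fs_snoc_last, step_cen hc]

theorem snoc_sym (hc : Cen (endF v (f0 (t : ℤ) (P : ℤ))) m) :
    bs (snoc v m) t P (snoc v m).len = bs (snoc v m) t P ((snoc v m).len - 1) := by
  rw [snoc_len, Nat.add_sub_cancel]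
  unfold bs
  rw [snoc_last_fs hc, fs_snoc v m _ le_rfl, ← endF_eq]
  rfl

theorem snoc_two (hc : Cen (endF v (f0 (t : ℤ) (P : ℤ))) m)
    (h : ∀ n, 1 ≤ n → n ≤ v.len → (2 : ℤ) ≤ (fs v (f0 t P) n).A) :
    ∀ n, 1 ≤ n → n ≤ (snoc v m).len → (2 : ℤ) ≤ (fs (snoc v m) (f0 t P) n).A := by
  intro n hn1 hn2
  rw [snoc_len] at hn2
  rcases Nat.lt_or_ge n (v.len + 1) with h1 | h1
  · rw [fs_snoc v m _ (by omega)]
    exact h n hn1 (by omega)
  · have : n = v.len + 1 := by omega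
    rw [this, snoc_last_fs hc]
    have e : (flip (endF v (f0 (t : ℤ) (P : ℤ)))).A = (endF v (f0 t P)).C := rfl
    rw [e, hc.hC]

/-- norms of odd split primes -/
theorem split_odd {D : ℕ} (hc : Cen (endF v (f0 (t : ℤ) (P : ℤ))) m)
    (S : SplitE (snoc v m) t P D) {l : ℕ} (hl : l.Prime) (hl2 : l ≠ 2)
    (hD : 4 * (l : ℤ) ^ 2 ≤ D) (hw : ∃ w0 : ℤ, (l : ℤ) ∣ w0 ^ 2 + t * w0 - P) :
    ∃ n, 1 ≤ n ∧ n ≤ v.len ∧ (fs v (f0 t P) n).A = l := by
  obtain ⟨n, hn1, hn2, hA⟩ := S.split l hl hD hw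
  rw [snoc_len] at hn2
  rcases Nat.lt_or_ge n (v.len + 1) with h1 | h1
  · rw [fs_snoc v m _ (by omega)] at hA
    exact ⟨n, hn1, by omega, hA⟩
  · exfalso
    have : n = v.len + 1 := by omega
    rw [this, snoc_last_fs hc] at hA
    have e : (flip (endF v (f0 (t : ℤ) (P : ℤ)))).A = (endF v (f0 t P)).C := rfl
    rw [e, hc.hC] at hA
    apply hl2
    exact_mod_cast hA.symm

/-- large parameters are impossible -/
theorem big_falseH {D cy : ℕ} (hc : Cen (endF v (f0 (t : ℤ) (P : ℤ))) m)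
    (S : SplitE (snoc v m) t P D) (hDd : D = 4 * d)
    (hG : (∃ c : ℕ, c.Coprime (4 * d) ∧ ks d c = -1) → GoodP (snoc v m) t P D (ks d))
    (hlin : (P : ℤ) * U = t * x + c)
    (hcy : ∀ l : ℕ, l ∈ LPh → ((cy : ℕ) : ZMod l) = ((c : ℤ) : ZMod l))
    (hb : BigH v t P)
    (hw : wOKh c133_73 c481_61 U x cy v = true) : False := by
  have hD := S.hD
  have hDn : D = t * t + 4 * P := by
    have : (D : ℤ) = ((t * t + 4 * P : ℕ) : ℤ) := by rw [hD]; push_cast; ring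
    exact_mod_cast this
  have hDbig : 21316 ≤ D := by rw [hDn]; exact hb.1
  have hno : ∀ l : ℕ, l.Prime → l ≠ 2 → l ≤ 73 → ¬ ∃ w0 : ℤ, (l : ℤ) ∣ w0 ^ 2 + t * w0 - P := by
    intro l hl hl2 hl73 hex
    obtain ⟨n, hn1, hn2, hA⟩ := split_odd hc S hl hl2 (by
      have h1 : (21316 : ℤ) ≤ D := by exact_mod_cast hDbig
      have h2 : (l : ℤ) ≤ 73 := by exact_mod_cast hl73
      have h3 : (0 : ℤ) ≤ l := by positivity
      nlinarith) hex
    have h4 := hb.2.1 n hn1 hn2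
    rw [hA] at h4
    have h2 : (l : ℤ) ≤ 73 := by exact_mod_cast hl73
    linarith
  have hnsq : ∀ l : ℕ, l ∈ LPh → ¬ IsSquare ((((t : ℤ) ^ 2 + 4 * P : ℤ)) : ZMod l) := by
    intro l hl hsq
    rw [← hD] at hsq
    obtain ⟨h1, h2, h3⟩ := LPh_prime hl
    exact hno l h1 h3 h2 (root_of_square h1 h3 hD hsq)
  have hbase : BaseH ((t : ℤ) ^ 2 + 4 * P) := ⟨hnsq⟩
  have hcD : Nat.Coprime M2n D := by
    have h1 : IsCoprime ((D : ℤ)) (M2n : ℤ) := by
      apply isCoprime_M2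
      intro l hl hd
      apply hnsq l hl
      rw [← hD, (ZMod.intCast_zmod_eq_zero_iff_dvd _ _).mpr hd]
      exact ⟨0, by simp⟩
    exact (Nat.isCoprime_iff_coprime.mp h1).symm
  have h3D : Nat.Coprime 3 D := Nat.Coprime.coprime_dvd_left (by decide +kernel) hcD
  have hks : ks d 3 = -1 := by
    have hF : Fact (Nat.Prime 3) := ⟨by norm_num⟩
    unfold ks
    rw [if_neg (by norm_num), ← jacobiSym.legendreSym.to_jacobiSym]
    have hd0 : (((d : ℕ) : ℤ) : ZMod 3) ≠ 0 := by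
      intro h0
      have h1 : (3 : ℕ) ∣ d := by
        have := (ZMod.intCast_zmod_eq_zero_iff_dvd _ 3).mp h0
        exact_mod_cast this
      have h2 : (3 : ℕ) ∣ D := by rw [hDd]; exact h1.mul_left 4
      have h3 := Nat.dvd_gcd (dvd_refl 3) h2
      rw [h3D] at h3
      norm_num at h3
    rcases legendreSym.eq_one_or_neg_one 3 hd0 with h1 | h1
    · exfalso
      rw [legendreSym.eq_one_iff 3 hd0] at h1
      apply hnsq 3 k3
      rw [← hD, hDd]
      obtain ⟨r, hr⟩ := h1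
      refine ⟨2 * r, ?_⟩
      push_cast at hr ⊢
      rw [hr]
      ring
    · exact h1
  have G := hG ⟨3, by rw [← hDd]; exact h3D, hks⟩
  have Sy : SysH v t P m U x cy := by
    refine ⟨hbase, ?_, hc, ?_⟩
    · intro l hl
      have h1 := congrArg (fun z : ℤ => (z : ZMod l)) hlin
      push_cast at h1 ⊢
      rw [hcy l hl]
      exact h1
    · intro c' hc' h1 h2 _
      have h3 : ¬ (c'.p : ℤ) ∣ D := by
        intro h
        have h4 : c'.p ∣ D := by exact_mod_cast h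
        have h5 : c'.p ∣ 1 := by
          rw [← hcD]
          exact Nat.dvd_gcd h2 h4
        exact hc'.pp.one_lt.ne' (Nat.dvd_one.mp h5)
      exact G.rel_mod hc'.pp hc'.p2 h3 (Nat.Coprime.coprime_dvd_left h1 hcD) _ (chi_mul hc'.mul)
        (chi_neg hc'.q1 hc'.mul hc'.oth) (chi_sum hc'.oth)
  exact wOKh_sound Sy hw

/-- one word -/
theorem word_finalH {cy : ℕ} (hv : v.Pos) (hcw : cw v = (U, x))
    (hlin : (P : ℤ) * U = t * x + c) (hdet : (U : ℤ) * c - x ^ 2 = 2 * (-1) ^ v.len)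
    (hcy : ∀ l : ℕ, l ∈ LPh → ((cy : ℕ) : ZMod l) = ((c : ℤ) : ZMod l))
    (ht : 0 < t) (ht2 : t % 2 = 0) (hdt : 4 * d = t * t + 4 * P)
    (hsf : Squarefree (d : ℤ)) (hd4 : d % 4 = 2 ∨ d % 4 = 3) (hd2 : 2 < d)
    {K : Type*} [Field K] [NumberField K] (hK : Module.finrank ℚ K = 2) {z : K}
    (hz : z ^ 2 = ((d : ℤ) : K)) (hcl : NumberField.classNumber K = 1)
    (hmin : ∀ T' U' : ℕ, 0 < U' →
      (T' * T' = d * (U' * U') + 2 ∨ T' * T' + 2 = d * (U' * U')) → U ≤ U')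
    (hneg : ∀ T' U' : ℕ, T' * T' + 1 ≠ d * (U' * U'))
    (hck : ckH U v t P = true ∨ BigH v t P)
    (hw : wOKh c133_73 c481_61 U x cy v = true) : d ∈ LH := by
  have hDz : ((4 * d : ℕ) : ℤ) = (t : ℤ) ^ 2 + 4 * (P : ℤ) := by rw [hdt]; push_cast; ring
  have hd1' : (1 : ℤ) < d := by exact_mod_cast (by omega : 1 < d)
  obtain ⟨n, rfl⟩ : ∃ n, t = 2 * n := ⟨t / 2, by omega⟩
  have hdn : d = n * n + P := by
    have e : 2 * n * (2 * n) = 4 * (n * n) := by ring
    omega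
  -- the ring
  have hring : IsDomain (QA (P : ℤ) ((2 * n : ℕ) : ℤ)) ∧
      IsPrincipalIdealRing (QA (P : ℤ) ((2 * n : ℕ) : ℤ)) := by
    have hdz : (d : ℤ) = (n : ℤ) ^ 2 + P := by rw [hdn]; push_cast; ring
    have hcast : ((2 * n : ℕ) : ℤ) = 2 * (n : ℤ) := by push_cast; ring
    rw [hcast]
    exact ⟨Ev.isDomain_even hdz (not_sq_of_squarefree hsf hd1'),
      Ev.pid_even hdz hsf (by omega) hd1' hK hz hcl⟩
  obtain ⟨i1, i2⟩ := hring
  have mkS : (∀ k, 1 ≤ k → k ≤ v.len → (2 : ℤ) ≤ (fs v (f0 ((2 * n : ℕ) : ℤ) P) k).A) →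
      (1 : ℤ) ≤ (endF v (f0 ((2 * n : ℕ) : ℤ) P)).B →
      ∃ m : ℕ, Cen (endF v (f0 ((2 * n : ℕ) : ℤ) P)) m ∧
        SplitE (snoc v m) ((2 * n : ℕ) : ℤ) P (4 * d) ∧
        ((∃ c : ℕ, c.Coprime (4 * d) ∧ ks d c = -1) →
          GoodP (snoc v m) ((2 * n : ℕ) : ℤ) P (4 * d) (ks d)) := by
    intro h hB
    obtain ⟨m, hm0, hm⟩ := cen_ex hcw hlin hdet ht2 hB
    have h2 := snoc_two hm h
    have h0 : 0 < (snoc v m).len := by rw [snoc_len]; omega
    have hq : ∀ k ≤ (snoc v m).len, 0 < qs (snoc v m) (2 * n) (P : ℤ) k := by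
      intro k hk
      rcases Nat.eq_zero_or_pos k with h0 | h0
      · subst h0; exact one_pos
      · have := h2 k h0 hk
        unfold qs
        linarith
    have hq1 : ∀ k, 1 ≤ k → k ≤ (snoc v m).len → qs (snoc v m) (2 * n) (P : ℤ) k ≠ 1 := by
      intro k hk1 hk2 h3
      have := h2 k hk1 hk2
      unfold qs at h3
      linarith
    exact ⟨m, hm, splitE_of_word (snoc_pos hv hm0) h0 ht (snoc_sym hm) hq hq1 hDz i1 i2,
      fun hn => goodP_of_word (snoc_pos hv hm0) h0 ht (snoc_sym hm) hq hq1 hDz rfl hn i1 i2⟩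
  rcases hck with hc | hb
  · unfold ckH at hc
    rw [Bool.or_eq_true, force_eq, force_eq, Bool.or_eq_true, Bool.or_eq_true, Bool.or_eq_true,
      Bool.or_eq_true] at hc
    have e0 : Nat.div (2 * n) 2 = n := by
      change 2 * n / 2 = n
      omega
    rw [e0] at hc
    have eD : Nat.add (Nat.mul n n) P = d := hdn.symm
    rw [eD] at hc
    rcases hc with hc | hc | hc | hc | hc | hc
    · exfalso
      have : 2 * n = 0 := Nat.eq_of_beq_eq_true hc
      omega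
    · exfalso
      have : d % 4 = 0 := Nat.eq_of_beq_eq_true hc
      omega
    · exfalso
      have : d % 4 = 1 := Nat.eq_of_beq_eq_true hc
      omega
    · exact inH_sound hc
    · exfalso
      unfold witH at hc
      rw [anyL_iff] at hc
      obtain ⟨p, hl, h1⟩ := hc
      obtain ⟨hp, hp2⟩ := PH_prime hl
      unfold witH1 at h1
      rw [cj_true, cj_true] at h1
      obtain ⟨h2, h3, h4⟩ := h1
      have h2' : p * p ≤ d := Nat.le_of_ble_eq_true h2
      obtain ⟨hq, b, hb, hB⟩ := qH_sound h3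
      obtain ⟨m, hm, S, -⟩ := mkS (by
        intro k hk1 hk2
        obtain ⟨q, h5, h6⟩ := hq k hk1 hk2
        rw [cj_true] at h5
        rw [f0_nat, h6]
        exact_mod_cast Nat.le_of_ble_eq_true h5.1) (by
        rw [f0_nat, hB]
        exact_mod_cast Nat.le_of_ble_eq_true hb)
      obtain ⟨w, _, h5⟩ := anyU_true h4
      have h6' : (w * w + 2 * n * w) % p = P % p := Nat.eq_of_beq_eq_true h5
      have h7 : (p : ℤ) ∣ (w : ℤ) ^ 2 + ((2 * n : ℕ) : ℤ) * w - P := by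
        have h8 : (w * w + 2 * n * w) ≡ P [MOD p] := h6'
        have h9 := (Nat.modEq_iff_dvd.mp h8)
        push_cast at h9 ⊢
        have : (w : ℤ) ^ 2 + 2 * n * w - P = -((P : ℤ) - (w * w + 2 * n * w)) := by ring
        rw [this]
        exact (dvd_neg).mpr h9
      obtain ⟨k, hk1, hk2, hA⟩ := split_odd hm S hp hp2 (by
        have : (p * p : ℤ) ≤ d := by exact_mod_cast h2'
        push_cast
        linarith) ⟨w, h7⟩
      obtain ⟨q, h8, h9⟩ := hq k hk1 hk2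
      rw [cj_true] at h8
      rw [f0_nat, h9] at hA
      have : q = p := by exact_mod_cast hA
      subst this
      simp at h8
    · exfalso
      unfold lessH at hc
      obtain ⟨i, hi, h1⟩ := anyU_true hc
      rw [force_eq, cj_true] at h1
      obtain ⟨h2, h1⟩ := h1
      obtain ⟨j, hj, h4⟩ := anyU_true h1
      rw [force_eq, Bool.or_eq_true, Bool.or_eq_true] at h4
      have h2' : (i + 1) + 1 ≤ U := Nat.le_of_ble_eq_true h2
      rcases h4 with h4 | h4 | h4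
      · have := hmin _ (i + 1) (by omega) (Or.inl (Nat.eq_of_beq_eq_true h4))
        omega
      · have := hmin _ (i + 1) (by omega) (Or.inr (Nat.eq_of_beq_eq_true h4))
        omega
      · exact hneg _ _ (Nat.eq_of_beq_eq_true h4)
  · exfalso
    obtain ⟨m, hm, S, hG⟩ := mkS (by
      intro k hk1 hk2
      have := hb.2.1 k hk1 hk2
      linarith) hb.2.2
    exact big_falseH hm S rfl hG hlin hcy hb hw

end word

end Pool.Agent.L0h49.E
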