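import Pool.Agent.L0h49.E.B5

/-! Windows of the traversal. -/

set_option maxRecDepth 100000

namespace Pool.Agent.L0h49.E

open Pool.Agent.N911

theorem runP_46 : runP c133_73 c481_61 5626 5751 = true := by decide +kernel
theorem runM_46 : runM c133_73 c481_61 5626 5751 100 = true := by decide +kernel
theorem runP_47 : runP c133_73 c481_61 5751 5876 = true := by decide +kernel
theorem runM_47 : runM c133_73 c481_61 5751 5876 100 = true := by decide +kernel
theorem runP_48 : runP c133_73 c481_61 5876 6001 = true := by decide +kernel
theorem runM_48 : runM c133_73 c481_61 5876 6001 100 = true := by decide +kernel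
theorem runP_49 : runP c133_73 c481_61 6001 6126 = true := by decide +kernel
theorem runM_49 : runM c133_73 c481_61 6001 6126 100 = true := by decide +kernel
theorem runP_50 : runP c133_73 c481_61 6126 6251 = true := by decide +kernel
theorem runM_50 : runM c133_73 c481_61 6126 6251 100 = true := by decide +kernel

end Pool.Agent.L0h49.E
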