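import Pool.Agent.L0h49.E.B5

/-! Windows of the traversal. -/

set_option maxRecDepth 100000

namespace Pool.Agent.L0h49.E

open Pool.Agent.N911

theorem runP_51 : runP c133_73 c481_61 6251 6376 = true := by decide +kernel
theorem runM_51 : runM c133_73 c481_61 6251 6376 100 = true := by decide +kernel
theorem runP_52 : runP c133_73 c481_61 6376 6501 = true := by decide +kernel
theorem runM_52 : runM c133_73 c481_61 6376 6501 100 = true := by decide +kernel
theorem runP_53 : runP c133_73 c481_61 6501 6626 = true := by decide +kernel
theorem runM_53 : runM c133_73 c481_61 6501 6626 100 = true := by decide +kernel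
theorem runP_54 : runP c133_73 c481_61 6626 6751 = true := by decide +kernel
theorem runM_54 : runM c133_73 c481_61 6626 6751 100 = true := by decide +kernel
theorem runP_55 : runP c133_73 c481_61 6751 6876 = true := by decide +kernel
theorem runM_55 : runM c133_73 c481_61 6751 6876 100 = true := by decide +kernel

end Pool.Agent.L0h49.E
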