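import Pool.Agent.L0h49.E.B5

/-! Windows of the traversal. -/

set_option maxRecDepth 100000

namespace Pool.Agent.L0h49.E

open Pool.Agent.N911

theorem runP_56 : runP c133_73 c481_61 6876 7001 = true := by decide +kernel
theorem runM_56 : runM c133_73 c481_61 6876 7001 100 = true := by decide +kernel
theorem runP_57 : runP c133_73 c481_61 7001 7126 = true := by decide +kernel
theorem runM_57 : runM c133_73 c481_61 7001 7126 100 = true := by decide +kernel
theorem runP_58 : runP c133_73 c481_61 7126 7251 = true := by decide +kernel
theorem runM_58 : runM c133_73 c481_61 7126 7251 100 = true := by decide +kernel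
theorem runP_59 : runP c133_73 c481_61 7251 7376 = true := by decide +kernel
theorem runM_59 : runM c133_73 c481_61 7251 7376 100 = true := by decide +kernel
theorem runP_60 : runP c133_73 c481_61 7376 7501 = true := by decide +kernel
theorem runM_60 : runM c133_73 c481_61 7376 7501 100 = true := by decide +kernel

end Pool.Agent.L0h49.E
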