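import Pool.Agent.L0h49.E.B5

/-! Windows of the traversal. -/

set_option maxRecDepth 100000

namespace Pool.Agent.L0h49.E

open Pool.Agent.N911

theorem runP_61 : runP c133_73 c481_61 7501 7626 = true := by decide +kernel
theorem runM_61 : runM c133_73 c481_61 7501 7626 100 = true := by decide +kernel
theorem runP_62 : runP c133_73 c481_61 7626 7751 = true := by decide +kernel
theorem runM_62 : runM c133_73 c481_61 7626 7751 100 = true := by decide +kernel
theorem runP_63 : runP c133_73 c481_61 7751 7876 = true := by decide +kernel
theorem runM_63 : runM c133_73 c481_61 7751 7876 100 = true := by decide +kernel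
theorem runP_64 : runP c133_73 c481_61 7876 8001 = true := by decide +kernel
theorem runM_64 : runM c133_73 c481_61 7876 8001 100 = true := by decide +kernel
theorem runP_65 : runP c133_73 c481_61 8001 8126 = true := by decide +kernel
theorem runM_65 : runM c133_73 c481_61 8001 8126 100 = true := by decide +kernel

end Pool.Agent.L0h49.E
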