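import Pool.Agent.L0h49.E.B5

/-! Windows of the traversal. -/

set_option maxRecDepth 100000

namespace Pool.Agent.L0h49.E

open Pool.Agent.N911

theorem runP_66 : runP c133_73 c481_61 8126 8251 = true := by decide +kernel
theorem runM_66 : runM c133_73 c481_61 8126 8251 100 = true := by decide +kernel
theorem runP_67 : runP c133_73 c481_61 8251 8376 = true := by decide +kernel
theorem runM_67 : runM c133_73 c481_61 8251 8376 100 = true := by decide +kernel
theorem runP_68 : runP c133_73 c481_61 8376 8501 = true := by decide +kernel
theorem runM_68 : runM c133_73 c481_61 8376 8501 100 = true := by decide +kernel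
theorem runP_69 : runP c133_73 c481_61 8501 8626 = true := by decide +kernel
theorem runM_69 : runM c133_73 c481_61 8501 8626 100 = true := by decide +kernel
theorem runP_70 : runP c133_73 c481_61 8626 8751 = true := by decide +kernel
theorem runM_70 : runM c133_73 c481_61 8626 8751 100 = true := by decide +kernel

end Pool.Agent.L0h49.E
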