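import Pool.Agent.L0h49.E.B5

/-! Windows of the traversal. -/

set_option maxRecDepth 100000

namespace Pool.Agent.L0h49.E

open Pool.Agent.N911

theorem runP_71 : runP c133_73 c481_61 8751 8876 = true := by decide +kernel
theorem runM_71 : runM c133_73 c481_61 8751 8876 100 = true := by decide +kernel
theorem runP_72 : runP c133_73 c481_61 8876 9001 = true := by decide +kernel
theorem runM_72 : runM c133_73 c481_61 8876 9001 100 = true := by decide +kernel
theorem runP_73 : runP c133_73 c481_61 9001 9126 = true := by decide +kernel
theorem runM_73 : runM c133_73 c481_61 9001 9126 100 = true := by decide +kernel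
theorem runP_74 : runP c133_73 c481_61 9126 9251 = true := by decide +kernel
theorem runM_74 : runM c133_73 c481_61 9126 9251 100 = true := by decide +kernel
theorem runP_75 : runP c133_73 c481_61 9251 9376 = true := by decide +kernel
theorem runM_75 : runM c133_73 c481_61 9251 9376 100 = true := by decide +kernel

end Pool.Agent.L0h49.E
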