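import Pool.Agent.L0h49.E.B5

/-! Windows of the traversal. -/

set_option maxRecDepth 100000

namespace Pool.Agent.L0h49.E

open Pool.Agent.N911

theorem runP_76 : runP c133_73 c481_61 9376 9501 = true := by decide +kernel
theorem runM_76 : runM c133_73 c481_61 9376 9501 100 = true := by decide +kernel
theorem runP_77 : runP c133_73 c481_61 9501 9626 = true := by decide +kernel
theorem runM_77 : runM c133_73 c481_61 9501 9626 100 = true := by decide +kernel
theorem runP_78 : runP c133_73 c481_61 9626 9751 = true := by decide +kernel
theorem runM_78 : runM c133_73 c481_61 9626 9751 100 = true := by decide +kernel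
theorem runP_79 : runP c133_73 c481_61 9751 9876 = true := by decide +kernel
theorem runM_79 : runM c133_73 c481_61 9751 9876 100 = true := by decide +kernel
theorem runP_80 : runP c133_73 c481_61 9876 10001 = true := by decide +kernel
theorem runM_80 : runM c133_73 c481_61 9876 10001 100 = true := by decide +kernel

end Pool.Agent.L0h49.E
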