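import Pool.Agent.L0h49.E.B5

/-! Windows of the traversal. -/

set_option maxRecDepth 100000

namespace Pool.Agent.L0h49.E

open Pool.Agent.N911

theorem runP_6 : runP c133_73 c481_61 626 751 = true := by decide +kernel
theorem runM_6 : runM c133_73 c481_61 626 751 100 = true := by decide +kernel
theorem runP_7 : runP c133_73 c481_61 751 876 = true := by decide +kernel
theorem runM_7 : runM c133_73 c481_61 751 876 100 = true := by decide +kernel
theorem runP_8 : runP c133_73 c481_61 876 1001 = true := by decide +kernel
theorem runM_8 : runM c133_73 c481_61 876 1001 100 = true := by decide +kernel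
theorem runP_9 : runP c133_73 c481_61 1001 1126 = true := by decide +kernel
theorem runM_9 : runM c133_73 c481_61 1001 1126 100 = true := by decide +kernel
theorem runP_10 : runP c133_73 c481_61 1126 1251 = true := by decide +kernel
theorem runM_10 : runM c133_73 c481_61 1126 1251 100 = true := by decide +kernel

end Pool.Agent.L0h49.E
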