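import Pool.Agent.L0h49.E.B5

/-! Windows of the traversal. -/

set_option maxRecDepth 100000

namespace Pool.Agent.L0h49.E

open Pool.Agent.N911

theorem runP_11 : runP c133_73 c481_61 1251 1376 = true := by decide +kernel
theorem runM_11 : runM c133_73 c481_61 1251 1376 100 = true := by decide +kernel
theorem runP_12 : runP c133_73 c481_61 1376 1501 = true := by decide +kernel
theorem runM_12 : runM c133_73 c481_61 1376 1501 100 = true := by decide +kernel
theorem runP_13 : runP c133_73 c481_61 1501 1626 = true := by decide +kernel
theorem runM_13 : runM c133_73 c481_61 1501 1626 100 = true := by decide +kernel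
theorem runP_14 : runP c133_73 c481_61 1626 1751 = true := by decide +kernel
theorem runM_14 : runM c133_73 c481_61 1626 1751 100 = true := by decide +kernel
theorem runP_15 : runP c133_73 c481_61 1751 1876 = true := by decide +kernel
theorem runM_15 : runM c133_73 c481_61 1751 1876 100 = true := by decide +kernel

end Pool.Agent.L0h49.E
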