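import Pool.Agent.L0h49.E.B5

/-! Windows of the traversal. -/

set_option maxRecDepth 100000

namespace Pool.Agent.L0h49.E

open Pool.Agent.N911

theorem runP_16 : runP c133_73 c481_61 1876 2001 = true := by decide +kernel
theorem runM_16 : runM c133_73 c481_61 1876 2001 100 = true := by decide +kernel
theorem runP_17 : runP c133_73 c481_61 2001 2126 = true := by decide +kernel
theorem runM_17 : runM c133_73 c481_61 2001 2126 100 = true := by decide +kernel
theorem runP_18 : runP c133_73 c481_61 2126 2251 = true := by decide +kernel
theorem runM_18 : runM c133_73 c481_61 2126 2251 100 = true := by decide +kernel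
theorem runP_19 : runP c133_73 c481_61 2251 2376 = true := by decide +kernel
theorem runM_19 : runM c133_73 c481_61 2251 2376 100 = true := by decide +kernel
theorem runP_20 : runP c133_73 c481_61 2376 2501 = true := by decide +kernel
theorem runM_20 : runM c133_73 c481_61 2376 2501 100 = true := by decide +kernel

end Pool.Agent.L0h49.E
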