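import Pool.Agent.L0h49.E.B5

/-! Windows of the traversal. -/

set_option maxRecDepth 100000

namespace Pool.Agent.L0h49.E

open Pool.Agent.N911

theorem runP_21 : runP c133_73 c481_61 2501 2626 = true := by decide +kernel
theorem runM_21 : runM c133_73 c481_61 2501 2626 100 = true := by decide +kernel
theorem runP_22 : runP c133_73 c481_61 2626 2751 = true := by decide +kernel
theorem runM_22 : runM c133_73 c481_61 2626 2751 100 = true := by decide +kernel
theorem runP_23 : runP c133_73 c481_61 2751 2876 = true := by decide +kernel
theorem runM_23 : runM c133_73 c481_61 2751 2876 100 = true := by decide +kernel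
theorem runP_24 : runP c133_73 c481_61 2876 3001 = true := by decide +kernel
theorem runM_24 : runM c133_73 c481_61 2876 3001 100 = true := by decide +kernel
theorem runP_25 : runP c133_73 c481_61 3001 3126 = true := by decide +kernel
theorem runM_25 : runM c133_73 c481_61 3001 3126 100 = true := by decide +kernel

end Pool.Agent.L0h49.E
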