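import Pool.Agent.L0h49.E.B5

/-! Windows of the traversal. -/

set_option maxRecDepth 100000

namespace Pool.Agent.L0h49.E

open Pool.Agent.N911

theorem runP_26 : runP c133_73 c481_61 3126 3251 = true := by decide +kernel
theorem runM_26 : runM c133_73 c481_61 3126 3251 100 = true := by decide +kernel
theorem runP_27 : runP c133_73 c481_61 3251 3376 = true := by decide +kernel
theorem runM_27 : runM c133_73 c481_61 3251 3376 100 = true := by decide +kernel
theorem runP_28 : runP c133_73 c481_61 3376 3501 = true := by decide +kernel
theorem runM_28 : runM c133_73 c481_61 3376 3501 100 = true := by decide +kernel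
theorem runP_29 : runP c133_73 c481_61 3501 3626 = true := by decide +kernel
theorem runM_29 : runM c133_73 c481_61 3501 3626 100 = true := by decide +kernel
theorem runP_30 : runP c133_73 c481_61 3626 3751 = true := by decide +kernel
theorem runM_30 : runM c133_73 c481_61 3626 3751 100 = true := by decide +kernel

end Pool.Agent.L0h49.E
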