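import Pool.Agent.L0h49.E.B5

/-! Windows of the traversal. -/

set_option maxRecDepth 100000

namespace Pool.Agent.L0h49.E

open Pool.Agent.N911

theorem runP_31 : runP c133_73 c481_61 3751 3876 = true := by decide +kernel
theorem runM_31 : runM c133_73 c481_61 3751 3876 100 = true := by decide +kernel
theorem runP_32 : runP c133_73 c481_61 3876 4001 = true := by decide +kernel
theorem runM_32 : runM c133_73 c481_61 3876 4001 100 = true := by decide +kernel
theorem runP_33 : runP c133_73 c481_61 4001 4126 = true := by decide +kernel
theorem runM_33 : runM c133_73 c481_61 4001 4126 100 = true := by decide +kernel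
theorem runP_34 : runP c133_73 c481_61 4126 4251 = true := by decide +kernel
theorem runM_34 : runM c133_73 c481_61 4126 4251 100 = true := by decide +kernel
theorem runP_35 : runP c133_73 c481_61 4251 4376 = true := by decide +kernel
theorem runM_35 : runM c133_73 c481_61 4251 4376 100 = true := by decide +kernel

end Pool.Agent.L0h49.E
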