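import Pool.Agent.L0h49.E.B5

/-! Windows of the traversal. -/

set_option maxRecDepth 100000

namespace Pool.Agent.L0h49.E

open Pool.Agent.N911

theorem runP_36 : runP c133_73 c481_61 4376 4501 = true := by decide +kernel
theorem runM_36 : runM c133_73 c481_61 4376 4501 100 = true := by decide +kernel
theorem runP_37 : runP c133_73 c481_61 4501 4626 = true := by decide +kernel
theorem runM_37 : runM c133_73 c481_61 4501 4626 100 = true := by decide +kernel
theorem runP_38 : runP c133_73 c481_61 4626 4751 = true := by decide +kernel
theorem runM_38 : runM c133_73 c481_61 4626 4751 100 = true := by decide +kernel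
theorem runP_39 : runP c133_73 c481_61 4751 4876 = true := by decide +kernel
theorem runM_39 : runM c133_73 c481_61 4751 4876 100 = true := by decide +kernel
theorem runP_40 : runP c133_73 c481_61 4876 5001 = true := by decide +kernel
theorem runM_40 : runM c133_73 c481_61 4876 5001 100 = true := by decide +kernel

end Pool.Agent.L0h49.E
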