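import Pool.Agent.L0h49.E.B5

/-! Windows of the traversal. -/

set_option maxRecDepth 100000

namespace Pool.Agent.L0h49.E

open Pool.Agent.N911

theorem runP_41 : runP c133_73 c481_61 5001 5126 = true := by decide +kernel
theorem runM_41 : runM c133_73 c481_61 5001 5126 100 = true := by decide +kernel
theorem runP_42 : runP c133_73 c481_61 5126 5251 = true := by decide +kernel
theorem runM_42 : runM c133_73 c481_61 5126 5251 100 = true := by decide +kernel
theorem runP_43 : runP c133_73 c481_61 5251 5376 = true := by decide +kernel
theorem runM_43 : runM c133_73 c481_61 5251 5376 100 = true := by decide +kernel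
theorem runP_44 : runP c133_73 c481_61 5376 5501 = true := by decide +kernel
theorem runM_44 : runM c133_73 c481_61 5376 5501 100 = true := by decide +kernel
theorem runP_45 : runP c133_73 c481_61 5501 5626 = true := by decide +kernel
theorem runM_45 : runM c133_73 c481_61 5501 5626 100 = true := by decide +kernel

end Pool.Agent.L0h49.E
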