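import Pool.Agent.L0h49.E.R1
import Pool.Agent.L0h49.E.R2
import Pool.Agent.L0h49.E.R3
import Pool.Agent.L0h49.E.R4
import Pool.Agent.L0h49.E.R5
import Pool.Agent.L0h49.E.R6
import Pool.Agent.L0h49.E.R7
import Pool.Agent.L0h49.E.R8
import Pool.Agent.L0h49.E.R9
import Pool.Agent.L0h49.E.R10
import Pool.Agent.L0h49.E.R11
import Pool.Agent.L0h49.E.R12
import Pool.Agent.L0h49.E.R13
import Pool.Agent.L0h49.E.R14
import Pool.Agent.L0h49.E.R15
import Pool.Agent.L0h49.E.R16

/-! All windows. -/

namespace Pool.Agent.L0h49.E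

open Pool.Agent.N911

theorem allP {U x y : ℕ} (hU : U % 2 = 1) (hdet : U * y = x ^ 2 + 2) (hx0 : 0 < x) (hx : x < U)
    (hlo : 3 ≤ U) (hhi : U < 10001) : WordOK 0 U x y := by
  rcases Nat.lt_or_ge U 126 with h1 | h1
  · exact runP_all runP_1 hU hdet hx0 hx (by omega) h1
  rcases Nat.lt_or_ge U 251 with h2 | h2
  · exact runP_all runP_2 hU hdet hx0 hx (by omega) h2
  rcases Nat.lt_or_ge U 376 with h3 | h3
  · exact runP_all runP_3 hU hdet hx0 hx (by omega) h3
  rcases Nat.lt_or_ge U 501 with h4 | h4
  · exact runP_all runP_4 hU hdet hx0 hx (by omega) h4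
  rcases Nat.lt_or_ge U 626 with h5 | h5
  · exact runP_all runP_5 hU hdet hx0 hx (by omega) h5
  rcases Nat.lt_or_ge U 751 with h6 | h6
  · exact runP_all runP_6 hU hdet hx0 hx (by omega) h6
  rcases Nat.lt_or_ge U 876 with h7 | h7
  · exact runP_all runP_7 hU hdet hx0 hx (by omega) h7
  rcases Nat.lt_or_ge U 1001 with h8 | h8
  · exact runP_all runP_8 hU hdet hx0 hx (by omega) h8
  rcases Nat.lt_or_ge U 1126 with h9 | h9
  · exact runP_all runP_9 hU hdet hx0 hx (by omega) h9
  rcases Nat.lt_or_ge U 1251 with h10 | h10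
  · exact runP_all runP_10 hU hdet hx0 hx (by omega) h10
  rcases Nat.lt_or_ge U 1376 with h11 | h11
  · exact runP_all runP_11 hU hdet hx0 hx (by omega) h11
  rcases Nat.lt_or_ge U 1501 with h12 | h12
  · exact runP_all runP_12 hU hdet hx0 hx (by omega) h12
  rcases Nat.lt_or_ge U 1626 with h13 | h13
  · exact runP_all runP_13 hU hdet hx0 hx (by omega) h13
  rcases Nat.lt_or_ge U 1751 with h14 | h14
  · exact runP_all runP_14 hU hdet hx0 hx (by omega) h14
  rcases Nat.lt_or_ge U 1876 with h15 | h15
  · exact runP_all runP_15 hU hdet hx0 hx (by omega) h15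
  rcases Nat.lt_or_ge U 2001 with h16 | h16
  · exact runP_all runP_16 hU hdet hx0 hx (by omega) h16
  rcases Nat.lt_or_ge U 2126 with h17 | h17
  · exact runP_all runP_17 hU hdet hx0 hx (by omega) h17
  rcases Nat.lt_or_ge U 2251 with h18 | h18
  · exact runP_all runP_18 hU hdet hx0 hx (by omega) h18
  rcases Nat.lt_or_ge U 2376 with h19 | h19
  · exact runP_all runP_19 hU hdet hx0 hx (by omega) h19
  rcases Nat.lt_or_ge U 2501 with h20 | h20
  · exact runP_all runP_20 hU hdet hx0 hx (by omega) h20
  rcases Nat.lt_or_ge U 2626 with h21 | h21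
  · exact runP_all runP_21 hU hdet hx0 hx (by omega) h21
  rcases Nat.lt_or_ge U 2751 with h22 | h22
  · exact runP_all runP_22 hU hdet hx0 hx (by omega) h22
  rcases Nat.lt_or_ge U 2876 with h23 | h23
  · exact runP_all runP_23 hU hdet hx0 hx (by omega) h23
  rcases Nat.lt_or_ge U 3001 with h24 | h24
  · exact runP_all runP_24 hU hdet hx0 hx (by omega) h24
  rcases Nat.lt_or_ge U 3126 with h25 | h25
  · exact runP_all runP_25 hU hdet hx0 hx (by omega) h25
  rcases Nat.lt_or_ge U 3251 with h26 | h26
  · exact runP_all runP_26 hU hdet hx0 hx (by omega) h26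
  rcases Nat.lt_or_ge U 3376 with h27 | h27
  · exact runP_all runP_27 hU hdet hx0 hx (by omega) h27
  rcases Nat.lt_or_ge U 3501 with h28 | h28
  · exact runP_all runP_28 hU hdet hx0 hx (by omega) h28
  rcases Nat.lt_or_ge U 3626 with h29 | h29
  · exact runP_all runP_29 hU hdet hx0 hx (by omega) h29
  rcases Nat.lt_or_ge U 3751 with h30 | h30
  · exact runP_all runP_30 hU hdet hx0 hx (by omega) h30
  rcases Nat.lt_or_ge U 3876 with h31 | h31
  · exact runP_all runP_31 hU hdet hx0 hx (by omega) h31
  rcases Nat.lt_or_ge U 4001 with h32 | h32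
  · exact runP_all runP_32 hU hdet hx0 hx (by omega) h32
  rcases Nat.lt_or_ge U 4126 with h33 | h33
  · exact runP_all runP_33 hU hdet hx0 hx (by omega) h33
  rcases Nat.lt_or_ge U 4251 with h34 | h34
  · exact runP_all runP_34 hU hdet hx0 hx (by omega) h34
  rcases Nat.lt_or_ge U 4376 with h35 | h35
  · exact runP_all runP_35 hU hdet hx0 hx (by omega) h35
  rcases Nat.lt_or_ge U 4501 with h36 | h36
  · exact runP_all runP_36 hU hdet hx0 hx (by omega) h36
  rcases Nat.lt_or_ge U 4626 with h37 | h37
  · exact runP_all runP_37 hU hdet hx0 hx (by omega) h37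
  rcases Nat.lt_or_ge U 4751 with h38 | h38
  · exact runP_all runP_38 hU hdet hx0 hx (by omega) h38
  rcases Nat.lt_or_ge U 4876 with h39 | h39
  · exact runP_all runP_39 hU hdet hx0 hx (by omega) h39
  rcases Nat.lt_or_ge U 5001 with h40 | h40
  · exact runP_all runP_40 hU hdet hx0 hx (by omega) h40
  rcases Nat.lt_or_ge U 5126 with h41 | h41
  · exact runP_all runP_41 hU hdet hx0 hx (by omega) h41
  rcases Nat.lt_or_ge U 5251 with h42 | h42
  · exact runP_all runP_42 hU hdet hx0 hx (by omega) h42
  rcases Nat.lt_or_ge U 5376 with h43 | h43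
  · exact runP_all runP_43 hU hdet hx0 hx (by omega) h43
  rcases Nat.lt_or_ge U 5501 with h44 | h44
  · exact runP_all runP_44 hU hdet hx0 hx (by omega) h44
  rcases Nat.lt_or_ge U 5626 with h45 | h45
  · exact runP_all runP_45 hU hdet hx0 hx (by omega) h45
  rcases Nat.lt_or_ge U 5751 with h46 | h46
  · exact runP_all runP_46 hU hdet hx0 hx (by omega) h46
  rcases Nat.lt_or_ge U 5876 with h47 | h47
  · exact runP_all runP_47 hU hdet hx0 hx (by omega) h47
  rcases Nat.lt_or_ge U 6001 with h48 | h48
  · exact runP_all runP_48 hU hdet hx0 hx (by omega) h48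
  rcases Nat.lt_or_ge U 6126 with h49 | h49
  · exact runP_all runP_49 hU hdet hx0 hx (by omega) h49
  rcases Nat.lt_or_ge U 6251 with h50 | h50
  · exact runP_all runP_50 hU hdet hx0 hx (by omega) h50
  rcases Nat.lt_or_ge U 6376 with h51 | h51
  · exact runP_all runP_51 hU hdet hx0 hx (by omega) h51
  rcases Nat.lt_or_ge U 6501 with h52 | h52
  · exact runP_all runP_52 hU hdet hx0 hx (by omega) h52
  rcases Nat.lt_or_ge U 6626 with h53 | h53
  · exact runP_all runP_53 hU hdet hx0 hx (by omega) h53
  rcases Nat.lt_or_ge U 6751 with h54 | h54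
  · exact runP_all runP_54 hU hdet hx0 hx (by omega) h54
  rcases Nat.lt_or_ge U 6876 with h55 | h55
  · exact runP_all runP_55 hU hdet hx0 hx (by omega) h55
  rcases Nat.lt_or_ge U 7001 with h56 | h56
  · exact runP_all runP_56 hU hdet hx0 hx (by omega) h56
  rcases Nat.lt_or_ge U 7126 with h57 | h57
  · exact runP_all runP_57 hU hdet hx0 hx (by omega) h57
  rcases Nat.lt_or_ge U 7251 with h58 | h58
  · exact runP_all runP_58 hU hdet hx0 hx (by omega) h58
  rcases Nat.lt_or_ge U 7376 with h59 | h59
  · exact runP_all runP_59 hU hdet hx0 hx (by omega) h59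
  rcases Nat.lt_or_ge U 7501 with h60 | h60
  · exact runP_all runP_60 hU hdet hx0 hx (by omega) h60
  rcases Nat.lt_or_ge U 7626 with h61 | h61
  · exact runP_all runP_61 hU hdet hx0 hx (by omega) h61
  rcases Nat.lt_or_ge U 7751 with h62 | h62
  · exact runP_all runP_62 hU hdet hx0 hx (by omega) h62
  rcases Nat.lt_or_ge U 7876 with h63 | h63
  · exact runP_all runP_63 hU hdet hx0 hx (by omega) h63
  rcases Nat.lt_or_ge U 8001 with h64 | h64
  · exact runP_all runP_64 hU hdet hx0 hx (by omega) h64
  rcases Nat.lt_or_ge U 8126 with h65 | h65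
  · exact runP_all runP_65 hU hdet hx0 hx (by omega) h65
  rcases Nat.lt_or_ge U 8251 with h66 | h66
  · exact runP_all runP_66 hU hdet hx0 hx (by omega) h66
  rcases Nat.lt_or_ge U 8376 with h67 | h67
  · exact runP_all runP_67 hU hdet hx0 hx (by omega) h67
  rcases Nat.lt_or_ge U 8501 with h68 | h68
  · exact runP_all runP_68 hU hdet hx0 hx (by omega) h68
  rcases Nat.lt_or_ge U 8626 with h69 | h69
  · exact runP_all runP_69 hU hdet hx0 hx (by omega) h69
  rcases Nat.lt_or_ge U 8751 with h70 | h70
  · exact runP_all runP_70 hU hdet hx0 hx (by omega) h70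
  rcases Nat.lt_or_ge U 8876 with h71 | h71
  · exact runP_all runP_71 hU hdet hx0 hx (by omega) h71
  rcases Nat.lt_or_ge U 9001 with h72 | h72
  · exact runP_all runP_72 hU hdet hx0 hx (by omega) h72
  rcases Nat.lt_or_ge U 9126 with h73 | h73
  · exact runP_all runP_73 hU hdet hx0 hx (by omega) h73
  rcases Nat.lt_or_ge U 9251 with h74 | h74
  · exact runP_all runP_74 hU hdet hx0 hx (by omega) h74
  rcases Nat.lt_or_ge U 9376 with h75 | h75
  · exact runP_all runP_75 hU hdet hx0 hx (by omega) h75
  rcases Nat.lt_or_ge U 9501 with h76 | h76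
  · exact runP_all runP_76 hU hdet hx0 hx (by omega) h76
  rcases Nat.lt_or_ge U 9626 with h77 | h77
  · exact runP_all runP_77 hU hdet hx0 hx (by omega) h77
  rcases Nat.lt_or_ge U 9751 with h78 | h78
  · exact runP_all runP_78 hU hdet hx0 hx (by omega) h78
  rcases Nat.lt_or_ge U 9876 with h79 | h79
  · exact runP_all runP_79 hU hdet hx0 hx (by omega) h79
  exact runP_all runP_80 hU hdet hx0 hx (by omega) hhi

theorem allM {U x y : ℕ} (hU : U % 2 = 1) (hdet : U * y + 2 = x ^ 2) (hx : x < U)
    (hlo : 3 ≤ U) (hhi : U < 10001) : WordOK 1 U x y := by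
  rcases Nat.lt_or_ge U 126 with h1 | h1
  · exact runM_all runM_1 (by norm_num) hU hdet hx (by omega) h1
  rcases Nat.lt_or_ge U 251 with h2 | h2
  · exact runM_all runM_2 (by norm_num) hU hdet hx (by omega) h2
  rcases Nat.lt_or_ge U 376 with h3 | h3
  · exact runM_all runM_3 (by norm_num) hU hdet hx (by omega) h3
  rcases Nat.lt_or_ge U 501 with h4 | h4
  · exact runM_all runM_4 (by norm_num) hU hdet hx (by omega) h4
  rcases Nat.lt_or_ge U 626 with h5 | h5
  · exact runM_all runM_5 (by norm_num) hU hdet hx (by omega) h5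
  rcases Nat.lt_or_ge U 751 with h6 | h6
  · exact runM_all runM_6 (by norm_num) hU hdet hx (by omega) h6
  rcases Nat.lt_or_ge U 876 with h7 | h7
  · exact runM_all runM_7 (by norm_num) hU hdet hx (by omega) h7
  rcases Nat.lt_or_ge U 1001 with h8 | h8
  · exact runM_all runM_8 (by norm_num) hU hdet hx (by omega) h8
  rcases Nat.lt_or_ge U 1126 with h9 | h9
  · exact runM_all runM_9 (by norm_num) hU hdet hx (by omega) h9
  rcases Nat.lt_or_ge U 1251 with h10 | h10
  · exact runM_all runM_10 (by norm_num) hU hdet hx (by omega) h10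
  rcases Nat.lt_or_ge U 1376 with h11 | h11
  · exact runM_all runM_11 (by norm_num) hU hdet hx (by omega) h11
  rcases Nat.lt_or_ge U 1501 with h12 | h12
  · exact runM_all runM_12 (by norm_num) hU hdet hx (by omega) h12
  rcases Nat.lt_or_ge U 1626 with h13 | h13
  · exact runM_all runM_13 (by norm_num) hU hdet hx (by omega) h13
  rcases Nat.lt_or_ge U 1751 with h14 | h14
  · exact runM_all runM_14 (by norm_num) hU hdet hx (by omega) h14
  rcases Nat.lt_or_ge U 1876 with h15 | h15
  · exact runM_all runM_15 (by norm_num) hU hdet hx (by omega) h15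
  rcases Nat.lt_or_ge U 2001 with h16 | h16
  · exact runM_all runM_16 (by norm_num) hU hdet hx (by omega) h16
  rcases Nat.lt_or_ge U 2126 with h17 | h17
  · exact runM_all runM_17 (by norm_num) hU hdet hx (by omega) h17
  rcases Nat.lt_or_ge U 2251 with h18 | h18
  · exact runM_all runM_18 (by norm_num) hU hdet hx (by omega) h18
  rcases Nat.lt_or_ge U 2376 with h19 | h19
  · exact runM_all runM_19 (by norm_num) hU hdet hx (by omega) h19
  rcases Nat.lt_or_ge U 2501 with h20 | h20
  · exact runM_all runM_20 (by norm_num) hU hdet hx (by omega) h20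
  rcases Nat.lt_or_ge U 2626 with h21 | h21
  · exact runM_all runM_21 (by norm_num) hU hdet hx (by omega) h21
  rcases Nat.lt_or_ge U 2751 with h22 | h22
  · exact runM_all runM_22 (by norm_num) hU hdet hx (by omega) h22
  rcases Nat.lt_or_ge U 2876 with h23 | h23
  · exact runM_all runM_23 (by norm_num) hU hdet hx (by omega) h23
  rcases Nat.lt_or_ge U 3001 with h24 | h24
  · exact runM_all runM_24 (by norm_num) hU hdet hx (by omega) h24
  rcases Nat.lt_or_ge U 3126 with h25 | h25
  · exact runM_all runM_25 (by norm_num) hU hdet hx (by omega) h25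
  rcases Nat.lt_or_ge U 3251 with h26 | h26
  · exact runM_all runM_26 (by norm_num) hU hdet hx (by omega) h26
  rcases Nat.lt_or_ge U 3376 with h27 | h27
  · exact runM_all runM_27 (by norm_num) hU hdet hx (by omega) h27
  rcases Nat.lt_or_ge U 3501 with h28 | h28
  · exact runM_all runM_28 (by norm_num) hU hdet hx (by omega) h28
  rcases Nat.lt_or_ge U 3626 with h29 | h29
  · exact runM_all runM_29 (by norm_num) hU hdet hx (by omega) h29
  rcases Nat.lt_or_ge U 3751 with h30 | h30
  · exact runM_all runM_30 (by norm_num) hU hdet hx (by omega) h30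
  rcases Nat.lt_or_ge U 3876 with h31 | h31
  · exact runM_all runM_31 (by norm_num) hU hdet hx (by omega) h31
  rcases Nat.lt_or_ge U 4001 with h32 | h32
  · exact runM_all runM_32 (by norm_num) hU hdet hx (by omega) h32
  rcases Nat.lt_or_ge U 4126 with h33 | h33
  · exact runM_all runM_33 (by norm_num) hU hdet hx (by omega) h33
  rcases Nat.lt_or_ge U 4251 with h34 | h34
  · exact runM_all runM_34 (by norm_num) hU hdet hx (by omega) h34
  rcases Nat.lt_or_ge U 4376 with h35 | h35
  · exact runM_all runM_35 (by norm_num) hU hdet hx (by omega) h35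
  rcases Nat.lt_or_ge U 4501 with h36 | h36
  · exact runM_all runM_36 (by norm_num) hU hdet hx (by omega) h36
  rcases Nat.lt_or_ge U 4626 with h37 | h37
  · exact runM_all runM_37 (by norm_num) hU hdet hx (by omega) h37
  rcases Nat.lt_or_ge U 4751 with h38 | h38
  · exact runM_all runM_38 (by norm_num) hU hdet hx (by omega) h38
  rcases Nat.lt_or_ge U 4876 with h39 | h39
  · exact runM_all runM_39 (by norm_num) hU hdet hx (by omega) h39
  rcases Nat.lt_or_ge U 5001 with h40 | h40
  · exact runM_all runM_40 (by norm_num) hU hdet hx (by omega) h40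
  rcases Nat.lt_or_ge U 5126 with h41 | h41
  · exact runM_all runM_41 (by norm_num) hU hdet hx (by omega) h41
  rcases Nat.lt_or_ge U 5251 with h42 | h42
  · exact runM_all runM_42 (by norm_num) hU hdet hx (by omega) h42
  rcases Nat.lt_or_ge U 5376 with h43 | h43
  · exact runM_all runM_43 (by norm_num) hU hdet hx (by omega) h43
  rcases Nat.lt_or_ge U 5501 with h44 | h44
  · exact runM_all runM_44 (by norm_num) hU hdet hx (by omega) h44
  rcases Nat.lt_or_ge U 5626 with h45 | h45
  · exact runM_all runM_45 (by norm_num) hU hdet hx (by omega) h45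
  rcases Nat.lt_or_ge U 5751 with h46 | h46
  · exact runM_all runM_46 (by norm_num) hU hdet hx (by omega) h46
  rcases Nat.lt_or_ge U 5876 with h47 | h47
  · exact runM_all runM_47 (by norm_num) hU hdet hx (by omega) h47
  rcases Nat.lt_or_ge U 6001 with h48 | h48
  · exact runM_all runM_48 (by norm_num) hU hdet hx (by omega) h48
  rcases Nat.lt_or_ge U 6126 with h49 | h49
  · exact runM_all runM_49 (by norm_num) hU hdet hx (by omega) h49
  rcases Nat.lt_or_ge U 6251 with h50 | h50
  · exact runM_all runM_50 (by norm_num) hU hdet hx (by omega) h50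
  rcases Nat.lt_or_ge U 6376 with h51 | h51
  · exact runM_all runM_51 (by norm_num) hU hdet hx (by omega) h51
  rcases Nat.lt_or_ge U 6501 with h52 | h52
  · exact runM_all runM_52 (by norm_num) hU hdet hx (by omega) h52
  rcases Nat.lt_or_ge U 6626 with h53 | h53
  · exact runM_all runM_53 (by norm_num) hU hdet hx (by omega) h53
  rcases Nat.lt_or_ge U 6751 with h54 | h54
  · exact runM_all runM_54 (by norm_num) hU hdet hx (by omega) h54
  rcases Nat.lt_or_ge U 6876 with h55 | h55
  · exact runM_all runM_55 (by norm_num) hU hdet hx (by omega) h55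
  rcases Nat.lt_or_ge U 7001 with h56 | h56
  · exact runM_all runM_56 (by norm_num) hU hdet hx (by omega) h56
  rcases Nat.lt_or_ge U 7126 with h57 | h57
  · exact runM_all runM_57 (by norm_num) hU hdet hx (by omega) h57
  rcases Nat.lt_or_ge U 7251 with h58 | h58
  · exact runM_all runM_58 (by norm_num) hU hdet hx (by omega) h58
  rcases Nat.lt_or_ge U 7376 with h59 | h59
  · exact runM_all runM_59 (by norm_num) hU hdet hx (by omega) h59
  rcases Nat.lt_or_ge U 7501 with h60 | h60
  · exact runM_all runM_60 (by norm_num) hU hdet hx (by omega) h60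
  rcases Nat.lt_or_ge U 7626 with h61 | h61
  · exact runM_all runM_61 (by norm_num) hU hdet hx (by omega) h61
  rcases Nat.lt_or_ge U 7751 with h62 | h62
  · exact runM_all runM_62 (by norm_num) hU hdet hx (by omega) h62
  rcases Nat.lt_or_ge U 7876 with h63 | h63
  · exact runM_all runM_63 (by norm_num) hU hdet hx (by omega) h63
  rcases Nat.lt_or_ge U 8001 with h64 | h64
  · exact runM_all runM_64 (by norm_num) hU hdet hx (by omega) h64
  rcases Nat.lt_or_ge U 8126 with h65 | h65
  · exact runM_all runM_65 (by norm_num) hU hdet hx (by omega) h65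
  rcases Nat.lt_or_ge U 8251 with h66 | h66
  · exact runM_all runM_66 (by norm_num) hU hdet hx (by omega) h66
  rcases Nat.lt_or_ge U 8376 with h67 | h67
  · exact runM_all runM_67 (by norm_num) hU hdet hx (by omega) h67
  rcases Nat.lt_or_ge U 8501 with h68 | h68
  · exact runM_all runM_68 (by norm_num) hU hdet hx (by omega) h68
  rcases Nat.lt_or_ge U 8626 with h69 | h69
  · exact runM_all runM_69 (by norm_num) hU hdet hx (by omega) h69
  rcases Nat.lt_or_ge U 8751 with h70 | h70
  · exact runM_all runM_70 (by norm_num) hU hdet hx (by omega) h70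
  rcases Nat.lt_or_ge U 8876 with h71 | h71
  · exact runM_all runM_71 (by norm_num) hU hdet hx (by omega) h71
  rcases Nat.lt_or_ge U 9001 with h72 | h72
  · exact runM_all runM_72 (by norm_num) hU hdet hx (by omega) h72
  rcases Nat.lt_or_ge U 9126 with h73 | h73
  · exact runM_all runM_73 (by norm_num) hU hdet hx (by omega) h73
  rcases Nat.lt_or_ge U 9251 with h74 | h74
  · exact runM_all runM_74 (by norm_num) hU hdet hx (by omega) h74
  rcases Nat.lt_or_ge U 9376 with h75 | h75
  · exact runM_all runM_75 (by norm_num) hU hdet hx (by omega) h75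
  rcases Nat.lt_or_ge U 9501 with h76 | h76
  · exact runM_all runM_76 (by norm_num) hU hdet hx (by omega) h76
  rcases Nat.lt_or_ge U 9626 with h77 | h77
  · exact runM_all runM_77 (by norm_num) hU hdet hx (by omega) h77
  rcases Nat.lt_or_ge U 9751 with h78 | h78
  · exact runM_all runM_78 (by norm_num) hU hdet hx (by omega) h78
  rcases Nat.lt_or_ge U 9876 with h79 | h79
  · exact runM_all runM_79 (by norm_num) hU hdet hx (by omega) h79
  exact runM_all runM_80 (by norm_num) hU hdet hx (by omega) hhi

end Pool.Agent.L0h49.E
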