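import Pool.Agent.L0h49.E.B6
import Pool.Agent.L0h49.E.RR

/-! Class number one and small elements of norm `± 2`. -/

set_option maxRecDepth 100000

namespace Pool.Agent.L0h49.E

open H419R2 Finset
open Pool.Agent.N911

/-- elements of norms `-1` and `± 2` -/
theorem neg_two {d : ℕ} (hsf : Squarefree d) (hd : 2 < d) {S V a b : ℕ}
    (h1 : S * S + 1 = d * (V * V))
    (h2 : a * a = d * (b * b) + 2 ∨ a * a + 2 = d * (b * b)) : False := by
  have e1 : (S : ℤ) ^ 2 - d * (V : ℤ) ^ 2 = -1 := by
    have : (S : ℤ) * S + 1 = d * (V * V) := by exact_mod_cast h1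
    linear_combination this
  rcases h2 with h2 | h2
  · refine Ev.pell_two hsf hd (a := a) (b := b) e1 ?_
    have : (a : ℤ) * a = d * (b * b) + 2 := by exact_mod_cast h2
    linear_combination this
  · have e2 : (a : ℤ) * a + 2 = d * (b * b) := by exact_mod_cast h2
    refine Ev.pell_two hsf hd (a := a * S + d * b * V) (b := a * V + b * S) e1 ?_
    have : ((a : ℤ) * S + d * b * V) ^ 2 - d * (a * V + b * S) ^ 2 =
        ((a : ℤ) ^ 2 - d * b ^ 2) * (S ^ 2 - d * V ^ 2) := by ring
    rw [this, e1]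
    linear_combination -e2

theorem hcy_nat (c : ℕ) : ∀ l : ℕ, l ∈ LPh → ((c : ℕ) : ZMod l) = (((c : ℕ) : ℤ) : ZMod l) := by
  intro l _
  simp

section final

variable {d : ℕ} {K : Type*} [Field K] [NumberField K] {z : K}

/-- minimal solutions -/
theorem min_final (hsf : Squarefree (d : ℤ)) (hd4 : d % 4 = 2 ∨ d % 4 = 3) (hd2 : 2 < d)
    (hK : Module.finrank ℚ K = 2) (hz : z ^ 2 = ((d : ℤ) : K))
    (hcl : NumberField.classNumber K = 1) {T U : ℕ} (hU0 : 0 < U) (hUB : U < 10001)
    (h : T * T = d * (U * U) + 2 ∨ T * T + 2 = d * (U * U))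
    (hmin : ∀ T' U' : ℕ, 0 < U' →
      (T' * T' = d * (U' * U') + 2 ∨ T' * T' + 2 = d * (U' * U')) → U ≤ U')
    (hneg : ∀ T' U' : ℕ, T' * T' + 1 ≠ d * (U' * U')) : d ∈ LH := by
  have hUodd : U % 2 = 1 := by
    by_contra hc
    obtain ⟨u, rfl⟩ : ∃ u, U = 2 * u := ⟨U / 2, by omega⟩
    have e : d * (2 * u * (2 * u)) = 4 * (d * (u * u)) := by ring
    rw [e] at h
    rcases Nat.mod_two_eq_zero_or_one T with hT | hT
    · obtain ⟨k, rfl⟩ : ∃ k, T = 2 * k := ⟨T / 2, by omega⟩
      have e2 : 2 * k * (2 * k) = 4 * (k * k) := by ring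
      omega
    · obtain ⟨k, rfl⟩ : ∃ k, T = 2 * k + 1 := ⟨T / 2, by omega⟩
      have e2 : (2 * k + 1) * (2 * k + 1) = 2 * (2 * (k * k) + 2 * k) + 1 := by ring
      omega
  rcases Nat.lt_or_ge U 3 with hU3 | hU3
  · -- `U = 1`
    have hU1 : U = 1 := by omega
    subst hU1
    rcases h with h | h
    · -- `T ^ 2 - d = 2`
      have hT3 : 3 ≤ T := by
        by_contra hc
        have h1 : T ≤ 2 := by omega
        have := Nat.mul_le_mul h1 h1
        omega
      obtain ⟨n, rfl⟩ : ∃ n, T = n + 1 := ⟨T - 1, by omega⟩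
      have hdn : d + 1 = n * n + 2 * n := by
        have e : (n + 1) * (n + 1) = n * n + 2 * n + 1 := by ring
        omega
      have hsp := spec_minus
      rw [cj_true, cj_true] at hsp
      obtain ⟨h1, h2, h3⟩ := hsp
      have hck := smN_all h1 h2 (n - 1)
      have e1 : 2 + (n - 1) * 2 = 2 * n := by omega
      have e2 : 1 + (n - 1) * 2 = 2 * n - 1 := by omega
      rw [e1, e2] at hck
      refine word_finalH (v := .cons 1 .nil) (t := 2 * n) (P := 2 * n - 1) (U := 1) (x := 1)
        (c := -1) (cy := M2n - 1) ⟨one_pos, trivial⟩ rfl ?_ ?_ ?_ (by omega) (by omega) ?_ hsf hd4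
        hd2 hK hz hcl hmin hneg hck h3
      · rw [Nat.cast_sub (by omega)]
        push_cast
        ring
      · have : (WL.cons 1 WL.nil).len = 1 := rfl
        rw [this]
        norm_num
      · intro l hl
        have hM : 1 ≤ M2n := by unfold M2n; norm_num
        rw [Nat.cast_sub hM, (ZMod.natCast_eq_zero_iff M2n l).mpr (LPh_dvd hl)]
        push_cast
        ring
      · have e : 2 * n * (2 * n) = 4 * (n * n) := by ring
        omega
    · -- `T ^ 2 + 2 = d`
      obtain ⟨v, hv, hcw, hlen, hsm, hw⟩ := wordOK_plus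
      have hT0 : 0 < T := by
        rcases Nat.eq_zero_or_pos T with h0 | h0
        · subst h0; omega
        · exact h0
      have hck := smAH_sound hsm (by norm_num) (Or.inl (by norm_num)) (t := 2 * T) (P := 2)
        (by omega) (by ring)
      refine word_finalH (v := v) (t := 2 * T) (P := 2) (U := 1) (x := 0)
        (c := ((2 : ℕ) : ℤ)) (cy := 2) hv hcw ?_ ?_ (hcy_nat 2) (by omega) (by omega) ?_ hsf hd4
        hd2 hK hz hcl hmin hneg hck hw
      · push_cast
        ring
      · have : Even v.len := Nat.even_iff.mpr hlen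
        rw [this.neg_one_pow]
        norm_num
      · have e : 2 * T * (2 * T) = 4 * (T * T) := by ring
        omega
  · -- `U ≥ 3`
    set n := T / U with hn
    set x := T % U with hx
    have hxU : x < U := Nat.mod_lt _ hU0
    have hT : T = n * U + x := by
      rw [hn, hx]
      have := Nat.mod_add_div T U
      linarith [mul_comm U (T / U)]
    have hTU : U ≤ T := by
      by_contra hc
      push Not at hc
      have h1 : T * T ≤ U * U := Nat.mul_le_mul hc.le hc.le
      have h2 : 3 * (U * U) ≤ d * (U * U) := Nat.mul_le_mul_right _ hd2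
      have h3 : 3 * 3 ≤ U * U := Nat.mul_le_mul hU3 hU3
      omega
    have hn1 : 1 ≤ n := (Nat.one_le_div_iff hU0).mpr hTU
    have hx0 : 0 < x := by
      rcases Nat.eq_zero_or_pos x with h0 | h0
      · exfalso
        rw [h0, add_zero] at hT
        have h2 : U ∣ 2 := by
          rcases h with h | h
          · have h3 : U ∣ d * (U * U) + 2 := by
              rw [← h, hT]; exact ⟨n * (n * U), by ring⟩
            exact (Nat.dvd_add_right ⟨d * U, by ring⟩).mp h3
          · have h3 : U ∣ T * T + 2 := by rw [h]; exact ⟨d * U, by ring⟩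
            exact (Nat.dvd_add_right ⟨n * (n * U), by rw [hT]; ring⟩).mp h3
        have := Nat.le_of_dvd (by norm_num) h2
        omega
      · exact h0
    have hnU : n * 3 ≤ n * U := Nat.mul_le_mul_left _ hU3
    -- `P`
    have hdn : n * n < d := by
      by_contra hc
      push Not at hc
      have h1 : d * (U * U) ≤ n * n * (U * U) := Nat.mul_le_mul_right _ hc
      have h2 : T * T = n * n * (U * U) + 2 * (n * U * x) + x * x := by rw [hT]; ring
      have h3 : n * U * 1 ≤ n * U * x := Nat.mul_le_mul_left _ hx0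
      rcases h with h | h <;> omega
    obtain ⟨P, hP⟩ : ∃ P, d = n * n + P := ⟨d - n * n, by omega⟩
    have hPU : ∀ e : ℤ, (T : ℤ) * T - d * (U * U) = 2 * e → (P : ℤ) * (U * U) =
        2 * n * x * U + (x * x - 2 * e) := by
      intro e he
      have h1 : (d : ℤ) = n * n + P := by rw [hP]; push_cast; ring
      have h2 : (T : ℤ) = n * U + x := by exact_mod_cast hT
      rw [h1, h2] at he
      linear_combination -he
    have hU' : (0 : ℤ) < U := by exact_mod_cast hU0
    rcases h with h | h
    · -- `ε = 1`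
      have h1 := hPU 1 (by
        have : (T : ℤ) * T = d * (U * U) + 2 := by exact_mod_cast h
        rw [this]; ring)
      have hdv : (U : ℤ) ∣ (x : ℤ) * x - 2 * 1 :=
        ⟨(P : ℤ) * U - 2 * n * x, by linear_combination -h1⟩
      obtain ⟨c', hc'⟩ := hdv
      have hx2 : 2 ≤ x := by
        by_contra hc
        have h2 : x = 1 := by omega
        rw [h2] at hc'
        have h3 : (U : ℤ) ∣ 1 := ⟨-c', by linear_combination -hc'⟩
        have h4 : U ∣ 1 := by exact_mod_cast h3
        have := Nat.le_of_dvd one_pos h4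
        omega
      have hc0 : 0 ≤ c' := by
        by_contra hc
        push Not at hc
        have h3 : (U : ℤ) * c' < 0 := mul_neg_of_pos_of_neg hU' hc
        have h4 : (2 : ℤ) ≤ x := by exact_mod_cast hx2
        nlinarith
      obtain ⟨c, rfl⟩ := Int.eq_ofNat_of_zero_le hc0
      have hdet : U * c + 2 = x ^ 2 := by
        have : ((U * c + 2 : ℕ) : ℤ) = ((x ^ 2 : ℕ) : ℤ) := by push_cast; linarith
        exact_mod_cast this
      have hlin' : (P : ℤ) * U = 2 * n * x + c := by
        have : ((P : ℤ) * U) * U = (2 * n * x + c) * U := by linear_combination h1 + hc'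
        exact mul_right_cancel₀ hU'.ne' this
      have hlin : P * U = 2 * n * x + c := by exact_mod_cast hlin'
      obtain ⟨v, hv, hcw, hlen, hsm, hw⟩ := allM hUodd hdet hxU hU3 hUB
      have hck := smAH_sound hsm hUodd (Or.inr hdet) (t := 2 * n) (P := P) (by omega) hlin
      refine word_finalH (v := v) (t := 2 * n) (P := P) (U := U) (x := x)
        (c := (c : ℤ)) (cy := c) hv hcw ?_ ?_ (hcy_nat c) (by omega) (by omega) ?_ hsf hd4
        hd2 hK hz hcl hmin hneg hck hw
      · push_cast
        linear_combination hlin'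
      · have : Odd v.len := Nat.odd_iff.mpr hlen
        rw [this.neg_one_pow]
        linear_combination -hc'
      · rw [hP]; ring
    · -- `ε = -1`
      have h1 := hPU (-1) (by
        have : (T : ℤ) * T + 2 = d * (U * U) := by exact_mod_cast h
        rw [← this]; ring)
      have hdv : (U : ℤ) ∣ (x : ℤ) * x - 2 * (-1) :=
        ⟨(P : ℤ) * U - 2 * n * x, by linear_combination -h1⟩
      obtain ⟨c', hc'⟩ := hdv
      have hc0 : 0 ≤ c' := by
        by_contra hc
        push Not at hc
        have h3 : (U : ℤ) * c' < 0 := mul_neg_of_pos_of_neg hU' hc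
        have h4 : (0 : ℤ) ≤ x := by positivity
        nlinarith
      obtain ⟨c, rfl⟩ := Int.eq_ofNat_of_zero_le hc0
      have hdet : U * c = x ^ 2 + 2 := by
        have : ((U * c : ℕ) : ℤ) = ((x ^ 2 + 2 : ℕ) : ℤ) := by push_cast; linarith
        exact_mod_cast this
      have hlin' : (P : ℤ) * U = 2 * n * x + c := by
        have : ((P : ℤ) * U) * U = (2 * n * x + c) * U := by linear_combination h1 + hc'
        exact mul_right_cancel₀ hU'.ne' this
      have hlin : P * U = 2 * n * x + c := by exact_mod_cast hlin'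
      obtain ⟨v, hv, hcw, hlen, hsm, hw⟩ := allP hUodd hdet hx0 hxU hU3 hUB
      have hck := smAH_sound hsm hUodd (Or.inl hdet) (t := 2 * n) (P := P) (by omega) hlin
      refine word_finalH (v := v) (t := 2 * n) (P := P) (U := U) (x := x)
        (c := (c : ℤ)) (cy := c) hv hcw ?_ ?_ (hcy_nat c) (by omega) (by omega) ?_ hsf hd4
        hd2 hK hz hcl hmin hneg hck hw
      · push_cast
        linear_combination hlin'
      · have : Even v.len := Nat.even_iff.mpr hlen
        rw [this.neg_one_pow]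
        linear_combination -hc'
      · rw [hP]; ring

/-- the minimal solution is bounded by any unit -/
theorem min_le {T U a b : ℤ} {e : ℤ} (hd : 0 < (d : ℤ)) (hT : 1 < T) (hU : 0 < U)
    (h : T ^ 2 = d * U ^ 2 + 1) (hb : 0 < b) (ha : 0 < a) (he : e = 1 ∨ e = -1)
    (hab : a ^ 2 - d * b ^ 2 = 2 * e)
    (hmin : b ≤ |b * T - a * U|) : d * b ^ 2 ≤ T + 1 := by
  have hbT : 0 < b * T := mul_pos hb (by linarith)
  have haU : 0 < a * U := mul_pos ha hU
  have key : (a * U) ^ 2 = b ^ 2 * (T ^ 2 - 1) + 2 * e * U ^ 2 := by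
    linear_combination U ^ 2 * hab - b ^ 2 * h
  rcases le_total (b * T) (a * U) with hle | hle
  · -- `a U - b T ≥ b`
    have h1 : b * (T + 1) ≤ a * U := by
      rw [abs_of_nonpos (by linarith)] at hmin
      linarith
    have h2 : (b * (T + 1)) ^ 2 ≤ (a * U) ^ 2 := by
      apply pow_le_pow_left₀ _ h1
      exact mul_nonneg hb.le (by linarith)
    rw [key] at h2
    have h3 : b ^ 2 * (T + 1) ≤ e * U ^ 2 := by nlinarith
    rcases he with rfl | rfl
    · have h4 : (d * b ^ 2) * (T + 1) ≤ (T - 1) * (T + 1) := by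
        have : (d : ℤ) * (b ^ 2 * (T + 1)) ≤ d * (1 * U ^ 2) := mul_le_mul_of_nonneg_left h3 hd.le
        nlinarith
      have h5 : d * b ^ 2 ≤ T - 1 := le_of_mul_le_mul_right h4 (by linarith)
      linarith
    · exfalso
      have : 0 < b ^ 2 * (T + 1) := mul_pos (pow_pos hb 2) (by linarith)
      have : 0 < U ^ 2 := pow_pos hU 2
      linarith
  · have h1 : a * U ≤ b * (T - 1) := by
      rw [abs_of_nonneg (by linarith)] at hmin
      linarith
    have h2 : (a * U) ^ 2 ≤ (b * (T - 1)) ^ 2 := pow_le_pow_left₀ haU.le h1 2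
    rw [key] at h2
    have h3 : b ^ 2 * (T - 1) ≤ -e * U ^ 2 := by nlinarith
    rcases he with rfl | rfl
    · exfalso
      have : 0 < b ^ 2 * (T - 1) := mul_pos (pow_pos hb 2) (by linarith)
      have : 0 < U ^ 2 := pow_pos hU 2
      linarith
    · have h4 : (d * b ^ 2) * (T - 1) ≤ (T + 1) * (T - 1) := by
        have : (d : ℤ) * (b ^ 2 * (T - 1)) ≤ d * (- -1 * U ^ 2) :=
          mul_le_mul_of_nonneg_left h3 hd.le
        nlinarith
      exact le_of_mul_le_mul_right h4 (by linarith)

/-- Class number one and a small unit. -/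
theorem unit_final (hsf : Squarefree (d : ℤ)) (hd4 : d % 4 = 2 ∨ d % 4 = 3)
    (hK : Module.finrank ℚ K = 2) (hz : z ^ 2 = ((d : ℤ) : K))
    (hcl : NumberField.classNumber K = 1) {T U : ℕ} (hU0 : 0 < U)
    (h : T ^ 2 = d * U ^ 2 + 1) (hTB : T < 10 ^ 8 * d) : d ∈ LH := by
  rcases Nat.lt_or_ge 2 d with hd2 | hd2
  swap
  · have : d = 2 := by omega
    rw [this]
    decide
  have hd1' : (1 : ℤ) < d := by exact_mod_cast (by omega : 1 < d)
  have hd0 : (0 : ℤ) < d := by linarith
  have hns := not_sq_of_squarefree hsf hd1'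
  have hdz : (d : ℤ) = (0 : ℤ) ^ 2 + (d : ℤ) := by ring
  have i1 : IsDomain (QA (d : ℤ) (2 * 0)) := Ev.isDomain_even hdz hns
  have i2 : IsPrincipalIdealRing (QA (d : ℤ) (2 * 0)) :=
    Ev.pid_even hdz hsf (by omega) hd1' hK hz hcl
  obtain ⟨w, hw⟩ := exists_norm_prime (R := (d : ℤ)) (m := 2 * 0) Nat.prime_two (w0 := (d : ℤ))
    (by
      rcases Int.emod_two_eq_zero_or_one (d : ℤ) with h | h
      · obtain ⟨j, hj⟩ : ∃ j, (d : ℤ) = 2 * j := ⟨(d : ℤ) / 2, by omega⟩
        rw [hj]
        exact ⟨2 * j ^ 2 - j, by push_cast; ring⟩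
      · obtain ⟨j, hj⟩ : ∃ j, (d : ℤ) = 2 * j + 1 := ⟨(d : ℤ) / 2, by omega⟩
        rw [hj]
        exact ⟨2 * j ^ 2 + j, by push_cast; ring⟩)
  rw [norm_eq] at hw
  have hex : ∃ U', 0 < U' ∧ ∃ T', T' * T' = d * (U' * U') + 2 ∨ T' * T' + 2 = d * (U' * U') := by
    refine ⟨w.im.natAbs, ?_, w.re.natAbs, ?_⟩
    · by_contra hc
      have h0 : w.im = 0 := by omega
      rw [h0] at hw
      have h1 : (w.re ^ 2).natAbs = 2 := by
        have e : w.re ^ 2 + 2 * 0 * w.re * 0 - (d : ℤ) * 0 ^ 2 = w.re ^ 2 := by ring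
        rw [e] at hw
        exact hw
      rw [Int.natAbs_pow] at h1
      have h2 : w.re.natAbs ≤ 1 ∨ 2 ≤ w.re.natAbs := by omega
      rcases h2 with h2 | h2
      · have := Nat.pow_le_pow_left h2 2
        omega
      · have := Nat.pow_le_pow_left h2 2
        omega
    · have e1 : ((w.re.natAbs * w.re.natAbs : ℕ) : ℤ) = w.re ^ 2 := by
        rw [Int.natAbs_mul_self]; ring
      have e2 : ((w.im.natAbs * w.im.natAbs : ℕ) : ℤ) = w.im ^ 2 := by
        rw [Int.natAbs_mul_self]; ring
      rcases Int.natAbs_eq (w.re ^ 2 + 2 * 0 * w.re * w.im - (d : ℤ) * w.im ^ 2) with h1 | h1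
      · left
        rw [hw] at h1
        have : ((w.re.natAbs * w.re.natAbs : ℕ) : ℤ) =
            ((d * (w.im.natAbs * w.im.natAbs) + 2 : ℕ) : ℤ) := by
          rw [e1, Nat.cast_add, Nat.cast_mul, e2]
          push_cast at h1 ⊢
          linear_combination h1
        exact_mod_cast this
      · right
        rw [hw] at h1
        have : ((w.re.natAbs * w.re.natAbs + 2 : ℕ) : ℤ) =
            ((d * (w.im.natAbs * w.im.natAbs) : ℕ) : ℤ) := by
          rw [Nat.cast_add, e1, Nat.cast_mul, e2]
          push_cast at h1 ⊢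
          linear_combination h1
        exact_mod_cast this
  classical
  obtain ⟨hV, S, hSV⟩ := Nat.find_spec hex
  have hmin : ∀ T' U' : ℕ, 0 < U' →
      (T' * T' = d * (U' * U') + 2 ∨ T' * T' + 2 = d * (U' * U')) → Nat.find hex ≤ U' :=
    fun T' U' h1 h2 => Nat.find_min' hex ⟨h1, T', h2⟩
  generalize Nat.find hex = V at hV hSV hmin
  -- the bound
  have hS0 : 0 < S := by
    rcases Nat.eq_zero_or_pos S with h0 | h0
    · exfalso
      subst h0
      rcases hSV with h1 | h1
      · omega
      · have h2 : 1 * 1 ≤ V * V := Nat.mul_le_mul hV hV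
        have h3 : 3 * (V * V) ≤ d * (V * V) := Nat.mul_le_mul_right _ hd2
        omega
    · exact h0
  have hT1 : (1 : ℤ) < T := by
    have h1 : (T : ℤ) ^ 2 = d * (U : ℤ) ^ 2 + 1 := by exact_mod_cast h
    have h2 : (0 : ℤ) < d * (U : ℤ) ^ 2 := by positivity
    have h3 : (0 : ℤ) ≤ T := by positivity
    nlinarith
  obtain ⟨e, he, hab⟩ : ∃ e : ℤ, (e = 1 ∨ e = -1) ∧ (S : ℤ) ^ 2 - d * (V : ℤ) ^ 2 = 2 * e := by
    rcases hSV with h1 | h1
    · refine ⟨1, Or.inl rfl, ?_⟩
      have : (S : ℤ) * S = d * (V * V) + 2 := by exact_mod_cast h1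
      linear_combination this
    · refine ⟨-1, Or.inr rfl, ?_⟩
      have : (S : ℤ) * S + 2 = d * (V * V) := by exact_mod_cast h1
      linear_combination this
  have hTz : (T : ℤ) ^ 2 = d * (U : ℤ) ^ 2 + 1 := by exact_mod_cast h
  have hbd : (V : ℤ) ≤ |(V : ℤ) * T - S * U| := by
    set a' : ℤ := (S : ℤ) * T - d * V * U with ha'
    set b' : ℤ := (V : ℤ) * T - S * U with hb'
    have hn : a' ^ 2 - d * b' ^ 2 = 2 * e := by
      rw [ha', hb']
      linear_combination ((S : ℤ) ^ 2 - d * (V : ℤ) ^ 2) * hTz + hab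
    have hb0 : b' ≠ 0 := by
      intro h0
      rw [h0] at hn
      have h1 : a' ^ 2 = 2 * e := by linear_combination hn
      rcases he with rfl | rfl
      · have h2 : a'.natAbs ^ 2 = 2 := by
          have : ((a'.natAbs ^ 2 : ℕ) : ℤ) = 2 := by push_cast; rw [sq_abs, h1]; norm_num
          exact_mod_cast this
        have h3 : a'.natAbs ≤ 1 ∨ 2 ≤ a'.natAbs := by omega
        rcases h3 with h3 | h3
        · have := Nat.pow_le_pow_left h3 2
          omega
        · have := Nat.pow_le_pow_left h3 2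
          omega
      · have := sq_nonneg a'
        linarith
    have h1 := hmin a'.natAbs b'.natAbs (by omega) (by
      have e1 : ((a'.natAbs * a'.natAbs : ℕ) : ℤ) = a' ^ 2 := by
        rw [Int.natAbs_mul_self]; ring
      have e2 : ((b'.natAbs * b'.natAbs : ℕ) : ℤ) = b' ^ 2 := by
        rw [Int.natAbs_mul_self]; ring
      rcases he with rfl | rfl
      · left
        have : ((a'.natAbs * a'.natAbs : ℕ) : ℤ) =
            ((d * (b'.natAbs * b'.natAbs) + 2 : ℕ) : ℤ) := by
          rw [e1, Nat.cast_add, Nat.cast_mul, e2]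
          push_cast
          linear_combination hn
        exact_mod_cast this
      · right
        have : ((a'.natAbs * a'.natAbs + 2 : ℕ) : ℤ) =
            ((d * (b'.natAbs * b'.natAbs) : ℕ) : ℤ) := by
          rw [Nat.cast_add, e1, Nat.cast_mul, e2]
          push_cast
          linear_combination hn
        exact_mod_cast this)
    rw [Int.abs_eq_natAbs]
    exact_mod_cast h1
  have hle := min_le (d := d) hd0 hT1 (by exact_mod_cast hU0) hTz (by exact_mod_cast hV)
    (by exact_mod_cast hS0) he hab hbd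
  have hVB : V < 10001 := by
    by_contra hc
    push Not at hc
    have h1 : 10001 ^ 2 ≤ V ^ 2 := Nat.pow_le_pow_left hc 2
    have h2 : d * 10001 ^ 2 ≤ d * V ^ 2 := Nat.mul_le_mul_left _ h1
    have h3 : d * V ^ 2 ≤ T + 1 := by exact_mod_cast hle
    omega
  exact min_final hsf hd4 hd2 hK hz hcl hV hVB hSV hmin
    (fun T' U' h' => neg_two (Int.squarefree_natCast.mp hsf) hd2 h' hSV)

end final

end Pool.Agent.L0h49.E
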