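import Pool.Agent.L0h49.E.B5

/-! Windows of the traversal. -/

set_option maxRecDepth 100000

namespace Pool.Agent.L0h49.E

open Pool.Agent.N911

theorem runP_1 : runP c133_73 c481_61 3 126 = true := by decide +kernel
theorem runM_1 : runM c133_73 c481_61 3 126 100 = true := by decide +kernel
theorem runP_2 : runP c133_73 c481_61 126 251 = true := by decide +kernel
theorem runM_2 : runM c133_73 c481_61 126 251 100 = true := by decide +kernel
theorem runP_3 : runP c133_73 c481_61 251 376 = true := by decide +kernel
theorem runM_3 : runM c133_73 c481_61 251 376 100 = true := by decide +kernel
theorem runP_4 : runP c133_73 c481_61 376 501 = true := by decide +kernel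
theorem runM_4 : runM c133_73 c481_61 376 501 100 = true := by decide +kernel
theorem runP_5 : runP c133_73 c481_61 501 626 = true := by decide +kernel
theorem runM_5 : runM c133_73 c481_61 501 626 100 = true := by decide +kernel

end Pool.Agent.L0h49.E
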